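import Pool.Agent.Lib.P325P.Defs

/-!
Basic facts about means (complete).
-/

open scoped BigOperators

namespace Pool.Agent.Lib.P325P

section

variable {X Y : Type} [Fintype X] [Fintype Y]

theorem mean_const [Nonempty X] (c : ℝ) : mean (fun _ : X => c) = c := by
  unfold mean
  rw [Finset.sum_const, Finset.card_univ, nsmul_eq_mul]
  have : (Fintype.card X : ℝ) ≠ 0 := Nat.cast_ne_zero.2 Fintype.card_ne_zero
  field_simp

theorem mean_add (f g : X → ℝ) : mean (fun x => f x + g x) = mean f + mean g := by
  unfold mean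
  rw [Finset.sum_add_distrib, add_div]

theorem mean_sub (f g : X → ℝ) : mean (fun x => f x - g x) = mean f - mean g := by
  unfold mean
  rw [Finset.sum_sub_distrib, sub_div]

theorem mean_neg (f : X → ℝ) : mean (fun x => - f x) = - mean f := by
  unfold mean
  rw [Finset.sum_neg_distrib, neg_div]

theorem mean_mul_left (c : ℝ) (f : X → ℝ) : mean (fun x => c * f x) = c * mean f := by
  unfold mean
  rw [← Finset.mul_sum, mul_div_assoc]

theorem mean_mul_right (c : ℝ) (f : X → ℝ) : mean (fun x => f x * c) = mean f * c := by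
  unfold mean
  rw [← Finset.sum_mul, div_mul_eq_mul_div]

theorem mean_sum {ι : Type*} (s : Finset ι) (f : ι → X → ℝ) :
    mean (fun x => ∑ j ∈ s, f j x) = ∑ j ∈ s, mean (f j) := by
  unfold mean
  rw [Finset.sum_comm, Finset.sum_div]

theorem mean_nonneg {f : X → ℝ} (h : ∀ x, 0 ≤ f x) : 0 ≤ mean f :=
  div_nonneg (Finset.sum_nonneg fun x _ => h x) (Nat.cast_nonneg _)

theorem mean_mono {f g : X → ℝ} (h : ∀ x, f x ≤ g x) : mean f ≤ mean g :=
  div_le_div_of_nonneg_right (Finset.sum_le_sum fun x _ => h x) (Nat.cast_nonneg _)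

theorem mean_le [Nonempty X] {f : X → ℝ} {c : ℝ} (h : ∀ x, f x ≤ c) : mean f ≤ c := by
  have := mean_mono (g := fun _ => c) h
  rwa [mean_const] at this

theorem le_mean [Nonempty X] {f : X → ℝ} {c : ℝ} (h : ∀ x, c ≤ f x) : c ≤ mean f := by
  have := mean_mono (f := fun _ => c) h
  rwa [mean_const] at this

theorem mean_congr {f g : X → ℝ} (h : ∀ x, f x = g x) : mean f = mean g := by
  rw [show f = g from funext h]

theorem mean_comp (e : X ≃ Y) (f : Y → ℝ) : mean (fun x => f (e x)) = mean f := by
  unfold mean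
  rw [Equiv.sum_comp e f, Fintype.card_congr e]

theorem mean_prod (f : X × Y → ℝ) : mean f = mean (fun x => mean (fun y => f (x, y))) := by
  unfold mean
  rw [Fintype.sum_prod_type, Fintype.card_prod, Nat.cast_mul, ← Finset.sum_div, div_div,
    mul_comm (Fintype.card X : ℝ)]

theorem mean_swap (f : X → Y → ℝ) :
    mean (fun x => mean (fun y => f x y)) = mean (fun y => mean (fun x => f x y)) := by
  unfold mean
  rw [← Finset.sum_div, ← Finset.sum_div, Finset.sum_comm, div_div, div_div, mul_comm]

theorem abs_mean_le (f : X → ℝ) : |mean f| ≤ mean (fun x => |f x|) := by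
  unfold mean
  rw [abs_div, Nat.abs_cast]
  exact div_le_div_of_nonneg_right (Finset.abs_sum_le_sum_abs _ _) (Nat.cast_nonneg _)

theorem mean_mul_sq_le (f g : X → ℝ) :
    mean (fun x => f x * g x) ^ 2 ≤ mean (fun x => f x ^ 2) * mean (fun x => g x ^ 2) := by
  unfold mean
  rw [div_pow, div_mul_div_comm, ← sq]
  exact div_le_div_of_nonneg_right (Finset.sum_mul_sq_le_sq_mul_sq _ _ _) (sq_nonneg _)

theorem mean_pos_of {f : X → ℝ} (h : ∀ x, 0 ≤ f x) {x : X} (hx : 0 < f x) : 0 < mean f := by
  unfold mean
  have : Nonempty X := ⟨x⟩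
  exact div_pos (lt_of_lt_of_le hx (Finset.single_le_sum (fun y _ => h y) (Finset.mem_univ x)))
    (Nat.cast_pos.2 Fintype.card_pos)

theorem sum_eq_card_mul_mean [Nonempty X] (f : X → ℝ) :
    ∑ x, f x = (Fintype.card X : ℝ) * mean f := by
  unfold mean
  have : (Fintype.card X : ℝ) ≠ 0 := Nat.cast_ne_zero.2 Fintype.card_ne_zero
  field_simp

end

section

variable {V Ω : Type}

theorem ind_nonneg (J : Finset V) (β y : V → Ω) : 0 ≤ ind J β y := by
  unfold ind; split_ifs <;> norm_num

theorem ind_le_one (J : Finset V) (β y : V → Ω) : ind J β y ≤ 1 := by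
  unfold ind; split_ifs <;> norm_num

theorem ind_eq_one {J : Finset V} {β y : V → Ω} (h : ∀ i ∈ J, y i = β i) : ind J β y = 1 := by
  unfold ind; rw [if_pos h]

theorem ind_eq_zero {J : Finset V} {β y : V → Ω} (h : ¬ ∀ i ∈ J, y i = β i) :
    ind J β y = 0 := by
  unfold ind; rw [if_neg h]

theorem ind_comm (J : Finset V) (β y : V → Ω) : ind J β y = ind J y β := by
  by_cases h : ∀ i ∈ J, y i = β i
  · rw [ind_eq_one h, ind_eq_one fun i hi => (h i hi).symm]
  · rw [ind_eq_zero h, ind_eq_zero fun h' => h fun i hi => (h' i hi).symm]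

theorem ind_dep (J : Finset V) (β : V → Ω) : DependsOn (ind J β) (J : Set V) := by
  intro x y h
  by_cases h1 : ∀ i ∈ J, x i = β i
  · rw [ind_eq_one h1, ind_eq_one fun i hi => by rw [← h i hi]; exact h1 i hi]
  · rw [ind_eq_zero h1, ind_eq_zero fun h' => h1 fun i hi => by rw [h i hi]; exact h' i hi]

end

section

variable {W Ω : Type} [Fintype W] [DecidableEq W] [Fintype Ω]

/-- Mixing two independent random labelings gives a random labeling. -/
theorem mean_mix (S : Finset W) (F : (W → Ω) → ℝ) :
    mean (fun x : W → Ω => mean (fun x' : W → Ω => F (fun w => if w ∈ S then x w else x' w)))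
      = mean F := by
  classical
  by_cases hne : Nonempty (W → Ω)
  · let e : (W → Ω) × (W → Ω) ≃ (W → Ω) × (W → Ω) :=
      { toFun := fun p => (fun w => if w ∈ S then p.1 w else p.2 w,
          fun w => if w ∈ S then p.2 w else p.1 w)
        invFun := fun p => (fun w => if w ∈ S then p.1 w else p.2 w,
          fun w => if w ∈ S then p.2 w else p.1 w)
        left_inv := by
          intro p
          ext w
          · by_cases h : w ∈ S <;> simp [h]
          · by_cases h : w ∈ S <;> simp [h]
        right_inv := by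
          intro p
          ext w
          · by_cases h : w ∈ S <;> simp [h]
          · by_cases h : w ∈ S <;> simp [h] }
    have h1 : mean (fun p : (W → Ω) × (W → Ω) => F (e p).1) =
        mean (fun p : (W → Ω) × (W → Ω) => F p.1) :=
      mean_comp e (fun p => F p.1)
    rw [mean_prod, mean_prod] at h1
    have h2 : mean (fun x : W → Ω => mean (fun _ : W → Ω => F x)) = mean F :=
      mean_congr fun x => mean_const _
    rw [← h2]
    exact h1
  · have := not_nonempty_iff.1 hne
    unfold mean
    simp

end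

end Pool.Agent.Lib.P325P
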