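import Pool.Agent.Lib.P325P.Defs
import Pool.Agent.Lib.P325P.Base

/-!
Module Cm (1.5h; black box Base). Basic properties of the conditional means.
PROOF. Everything follows from Base (mean_mix, mean_swap, mean_mul_left, ...). Unfold `cm`.
cm_cm: cm S (cm T f) y = mean_x mean_x' f (w ↦ if w ∈ T then (if w ∈ S then y w else x w) else x' w);
this is mean_x mean_x' F (w ↦ if w ∈ T then x w else x' w) with F u = f (w ↦ if w ∈ S ∩ T then y w else u w);
use mean_mix T F. mean_cm: mean_mix. mean_mul_cm: by mean_cm applied to f * cm S g and cm_mul_left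
(swap the factors): mean (cm S (cm S g * f)) = mean (cm S g * cm S f). cm_of_dep: the argument of f
agrees with y on S. cm_le_card: the labelings x' = (y on S, x off S): each x' arises from
card(Ω)^|S| many x, i.e. mean_x f(y on S, x off S) = q^|S| mean_u (1[u = y on S] f u) (the last by
mean_mix S with F u = 1[u = y on S] f u: mean_x 1[x = y on S] = q^(-|S|)) and the indicator is ≤ 1.
sq_le_card: g^2 depends on S, so g^2 = cm S (g^2) ≤ q^|S| mean g^2.
-/

open scoped BigOperators

namespace Pool.Agent.Lib.P325P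

variable {W Ω : Type} [Fintype W] [DecidableEq W] [Fintype Ω] [Nonempty Ω]

theorem cm_univ (f : (W → Ω) → ℝ) (y : W → Ω) : cm Finset.univ f y = f y := by
  unfold cm
  simp only [Finset.mem_univ, if_true]
  exact mean_const _

theorem cm_empty (f : (W → Ω) → ℝ) (y : W → Ω) : cm ∅ f y = mean f := by
  unfold cm
  simp only [Finset.notMem_empty, if_false]

theorem cm_dep (S : Finset W) (f : (W → Ω) → ℝ) : DependsOn (cm S f) (S : Set W) := by
  intro x y h
  unfold cm
  refine mean_congr fun u => ?_
  congr 1
  funext w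
  by_cases hw : w ∈ S
  · simp only [hw, if_true]; exact h w hw
  · simp only [hw, if_false]

theorem cm_cm (S T : Finset W) (f : (W → Ω) → ℝ) (y : W → Ω) :
    cm S (cm T f) y = cm (S ∩ T) f y := by
  have h := mean_mix T (fun u : W → Ω => f (fun w => if w ∈ S ∩ T then y w else u w))
  unfold cm
  rw [← h]
  refine mean_congr fun x => mean_congr fun x' => ?_
  congr 1
  funext w
  by_cases h1 : w ∈ T
  · by_cases h2 : w ∈ S
    · simp [h1, h2]
    · simp [h1, h2]
  · simp [h1]

theorem cm_of_dep {S T : Finset W} {f : (W → Ω) → ℝ} (h : DependsOn f (S : Set W))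
    (hST : S ⊆ T) (y : W → Ω) : cm T f y = f y := by
  unfold cm
  rw [← mean_const (X := W → Ω) (f y)]
  refine mean_congr fun x => ?_
  refine h (fun w hw => ?_)
  have : w ∈ T := hST hw
  simp [this]

theorem cm_mul_left {S : Finset W} {g : (W → Ω) → ℝ} (h : DependsOn g (S : Set W))
    (f : (W → Ω) → ℝ) (y : W → Ω) : cm S (fun x => g x * f x) y = g y * cm S f y := by
  unfold cm
  rw [← mean_mul_left]
  refine mean_congr fun x => ?_
  have e : g (fun w => if w ∈ S then y w else x w) = g y := by
    refine h (fun w hw => ?_)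
    have : w ∈ S := hw
    simp [this]
  show g (fun w => if w ∈ S then y w else x w) * _ = _
  rw [e]

theorem mean_cm (S : Finset W) (f : (W → Ω) → ℝ) : mean (cm S f) = mean f :=
  mean_mix S f

theorem mean_mul_cm (S : Finset W) (f g : (W → Ω) → ℝ) :
    mean (fun y => f y * cm S g y) = mean (fun y => cm S f y * cm S g y) := by
  have h1 : mean (fun y => f y * cm S g y) = mean (fun y => cm S g y * f y) :=
    mean_congr fun y => mul_comm _ _
  rw [h1, ← mean_cm S (fun y => cm S g y * f y)]
  refine mean_congr fun y => ?_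
  rw [cm_mul_left (cm_dep S g) f y, mul_comm]

theorem cm_sum (S : Finset W) {ι : Type*} (s : Finset ι) (c : ι → ℝ) (f : ι → (W → Ω) → ℝ)
    (y : W → Ω) :
    cm S (fun x => ∑ j ∈ s, c j * f j x) y = ∑ j ∈ s, c j * cm S (f j) y := by
  unfold cm
  rw [mean_sum s (fun j (x : W → Ω) => c j * f j (fun w => if w ∈ S then y w else x w))]
  exact Finset.sum_congr rfl fun j _ => mean_mul_left _ _

theorem cm_nonneg (S : Finset W) {f : (W → Ω) → ℝ} (h : ∀ x, 0 ≤ f x) (y : W → Ω) :
    0 ≤ cm S f y :=
  mean_nonneg fun _ => h _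

theorem cm_le (S : Finset W) {f : (W → Ω) → ℝ} {M : ℝ} (h : ∀ x, f x ≤ M) (y : W → Ω) :
    cm S f y ≤ M :=
  mean_le fun _ => h _

/-- the number of labelings that agree with `y` on `S` -/
private theorem card_agree (S : Finset W) (y : W → Ω) :
    (Fintype.card Ω : ℝ) ^ S.card * mean (ind S y) = 1 := by
  classical
  have hΩ : (Fintype.card Ω : ℝ) ≠ 0 := Nat.cast_ne_zero.2 Fintype.card_ne_zero
  have h1 : (∑ x : W → Ω, ind S y x) = ((Fintype.card Ω : ℝ)) ^ (Sᶜ.card) := by
    have h2 : ∀ x : W → Ω, ind S y x = ∏ w, (if w ∈ S then (if x w = y w then (1 : ℝ) else 0)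
        else 1) := by
      intro x
      by_cases h : ∀ i ∈ S, x i = y i
      · rw [ind_eq_one h]
        symm
        refine Finset.prod_eq_one fun w _ => ?_
        by_cases hw : w ∈ S
        · simp [hw, h w hw]
        · simp [hw]
      · rw [ind_eq_zero h]
        push Not at h
        obtain ⟨w, hw, hne⟩ := h
        symm
        refine Finset.prod_eq_zero (Finset.mem_univ w) ?_
        simp [hw, hne]
    simp only [h2]
    have h3 := (Fintype.prod_sum (fun (w : W) (ω : Ω) => if w ∈ S then
      (if ω = y w then (1 : ℝ) else 0) else 1))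
    rw [← h3]
    have h4 : ∀ w : W, (∑ ω : Ω, (if w ∈ S then (if ω = y w then (1 : ℝ) else 0) else 1)) =
        if w ∈ S then 1 else (Fintype.card Ω : ℝ) := by
      intro w
      by_cases hw : w ∈ S
      · simp [hw]
      · simp [hw]
    simp only [h4]
    rw [Finset.prod_ite]
    simp only [Finset.prod_const_one, one_mul, Finset.prod_const]
    congr 2
    ext w
    simp
  unfold mean
  rw [h1, Fintype.card_fun, Nat.cast_pow, mul_div_assoc', ← pow_add, Finset.card_add_card_compl]
  exact div_self (pow_ne_zero _ hΩ)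

private theorem cm_eq_card (S : Finset W) (f : (W → Ω) → ℝ) (y : W → Ω) :
    cm S f y = (Fintype.card Ω : ℝ) ^ S.card * mean (fun u => ind S y u * f u) := by
  have h := mean_mix S (fun u => ind S y u * f u)
  have h2 : ∀ x : W → Ω, mean (fun x' : W → Ω =>
      ind S y (fun w => if w ∈ S then x w else x' w) *
        f (fun w => if w ∈ S then x w else x' w)) = ind S y x * cm S f y := by
    intro x
    unfold cm
    rw [← mean_mul_left]
    refine mean_congr fun x' => ?_
    have e1 : ind S y (fun w => if w ∈ S then x w else x' w) = ind S y x :=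
      ind_dep S y (fun w hw => by
        have : w ∈ S := hw
        simp [this])
    rw [e1]
    by_cases hx : ∀ i ∈ S, x i = y i
    · congr 2
      funext w
      by_cases hw : w ∈ S
      · simp [hw, hx w hw]
      · simp [hw]
    · rw [ind_eq_zero hx, zero_mul, zero_mul]
  rw [← h]
  simp only [h2]
  rw [mean_mul_right, ← mul_assoc, card_agree, one_mul]

theorem cm_le_card (S : Finset W) {f : (W → Ω) → ℝ} (h : ∀ x, 0 ≤ f x) (y : W → Ω) :
    cm S f y ≤ (Fintype.card Ω : ℝ) ^ S.card * mean f := by
  rw [cm_eq_card]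
  refine mul_le_mul_of_nonneg_left (mean_mono fun u => ?_) (by positivity)
  have h1 := ind_le_one S y u
  have h2 := h u
  nlinarith

theorem sq_le_card {S : Finset W} {g : (W → Ω) → ℝ} (h : DependsOn g (S : Set W))
    (y : W → Ω) : g y ^ 2 ≤ (Fintype.card Ω : ℝ) ^ S.card * mean (fun x => g x ^ 2) := by
  have h1 : DependsOn (fun x => g x ^ 2) (S : Set W) := fun x y hxy => by
    show g x ^ 2 = g y ^ 2
    rw [h hxy]
  have h2 := cm_of_dep h1 (Finset.Subset.refl S) y
  rw [← h2]
  exact cm_le_card S (fun x => sq_nonneg _) y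

end Pool.Agent.Lib.P325P
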