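import Pool.Agent.Lib.P325P.Defs
import Pool.Agent.Lib.P325P.Base

/-!
Module CmMul (1h; black box Base). Independence.
PROOF. cm_mul_disj: with x random, f (y on T, x off T) depends on x at J only and g (y on T, x off T)
depends on x at S only. mean_indep: F depends on J, G depends on J^c: by mean_mix J applied to F * G,
mean (F G) = mean_x mean_x' F(x on J, x' off J) G(x on J, x' off J) = mean_x mean_x' F x * G x'.
mean_ind: mean of the indicator of agreement with β on J is q^(-|J|): induction on J with mean_indep
(or counting: card of {y | ∀ i ∈ J, y i = β i} = q^(|W| - |J|)).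
-/

open scoped BigOperators

namespace Pool.Agent.Lib.P325P

variable {W Ω : Type} [Fintype W] [DecidableEq W] [Fintype Ω] [Nonempty Ω]

theorem mean_indep {J S : Finset W} {F G : (W → Ω) → ℝ} (hF : DependsOn F (J : Set W))
    (hG : DependsOn G (S : Set W)) (hJS : Disjoint J S) :
    mean (fun x => F x * G x) = mean F * mean G := by
  have h := mean_mix J (fun x : W → Ω => F x * G x)
  rw [← h]
  have h1 : ∀ x x' : W → Ω, F (fun w => if w ∈ J then x w else x' w) = F x := fun x x' =>
    hF fun i hi => by
      have hi' : i ∈ J := hi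
      simp [hi']
  have h2 : ∀ x x' : W → Ω, G (fun w => if w ∈ J then x w else x' w) = G x' := fun x x' =>
    hG fun i hi => by
      have hi' : i ∉ J := fun hJ => (Finset.disjoint_left.1 hJS hJ) hi
      simp [hi']
  calc mean (fun x : W → Ω => mean (fun x' : W → Ω =>
        F (fun w => if w ∈ J then x w else x' w) * G (fun w => if w ∈ J then x w else x' w)))
      = mean (fun x : W → Ω => F x * mean G) :=
        mean_congr fun x => by
          rw [← mean_mul_left]
          exact mean_congr fun x' => by rw [h1, h2]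
    _ = mean F * mean G := mean_mul_right _ _

theorem cm_mul_disj {J S : Finset W} {f g : (W → Ω) → ℝ} (hf : DependsOn f (J : Set W))
    (hg : DependsOn g (S : Set W)) (hJS : Disjoint J S) (T : Finset W) (y : W → Ω) :
    cm T (fun x => f x * g x) y = cm T f y * cm T g y := by
  unfold cm
  refine mean_indep (J := J) (S := S) ?_ ?_ hJS
  · intro x x' h
    refine hf fun i hi => ?_
    by_cases hT : i ∈ T
    · simp [hT]
    · simp [hT, h i hi]
  · intro x x' h
    refine hg fun i hi => ?_
    by_cases hT : i ∈ T
    · simp [hT]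
    · simp [hT, h i hi]

theorem mean_ind (J : Finset W) (β : W → Ω) :
    mean (ind J β) = ((Fintype.card Ω : ℝ) ^ J.card)⁻¹ := by
  classical
  have hq : (Fintype.card Ω : ℝ) ≠ 0 := Nat.cast_ne_zero.2 Fintype.card_ne_zero
  have h1 : ∀ y : W → Ω, ind J β y =
      ∏ w, (if w ∈ J then (if y w = β w then (1 : ℝ) else 0) else 1) := by
    intro y
    by_cases h : ∀ i ∈ J, y i = β i
    · rw [ind_eq_one h, Finset.prod_eq_one]
      intro w _
      by_cases hw : w ∈ J
      · rw [if_pos hw, if_pos (h w hw)]
      · rw [if_neg hw]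
    · rw [ind_eq_zero h]
      push Not at h
      obtain ⟨i, hi, hne⟩ := h
      rw [Finset.prod_eq_zero (Finset.mem_univ i)]
      rw [if_pos hi, if_neg hne]
  have h2 : ∑ y : W → Ω, ind J β y =
      ∏ w, ∑ o : Ω, (if w ∈ J then (if o = β w then (1 : ℝ) else 0) else 1) := by
    rw [Finset.prod_univ_sum]
    rw [Fintype.piFinset_univ]
    exact Finset.sum_congr rfl fun y _ => h1 y
  have h3 : ∀ w : W, ∑ o : Ω, (if w ∈ J then (if o = β w then (1 : ℝ) else 0) else 1) =
      if w ∈ J then 1 else (Fintype.card Ω : ℝ) := by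
    intro w
    by_cases hw : w ∈ J
    · simp [hw]
    · simp [hw]
  unfold mean
  rw [h2, Finset.prod_congr rfl fun w _ => h3 w]
  have h4 : (∏ w : W, if w ∈ J then (1 : ℝ) else (Fintype.card Ω : ℝ)) *
      (Fintype.card Ω : ℝ) ^ J.card = (Fintype.card Ω : ℝ) ^ Fintype.card W := by
    have h5 : (Fintype.card Ω : ℝ) ^ J.card =
        ∏ w : W, if w ∈ J then (Fintype.card Ω : ℝ) else 1 := by
      rw [Finset.prod_ite_mem, Finset.univ_inter, Finset.prod_const]
    rw [h5, ← Finset.prod_mul_distrib, ← Finset.card_univ (α := W), ← Finset.prod_const]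
    refine Finset.prod_congr rfl fun w _ => ?_
    by_cases hw : w ∈ J
    · simp [hw]
    · simp [hw]
  rw [Fintype.card_fun, Nat.cast_pow, ← h4]
  have h6 : (∏ w : W, if w ∈ J then (1 : ℝ) else (Fintype.card Ω : ℝ)) ≠ 0 := by
    refine Finset.prod_ne_zero_iff.2 fun w _ => ?_
    by_cases hw : w ∈ J
    · simp [hw]
    · simp [hw, hq]
  field_simp

end Pool.Agent.Lib.P325P
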