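import Mathlib

/-!
Means, conditional means and Efron-Stein components of functions on a finite product space, the
truncated extension of a Sherali-Adams functional, and the lift of functions along a choice of one
copy of each vertex.
-/

open scoped BigOperators

namespace Pool.Agent.Lib.P325P

/-- The mean of `f` over a uniformly random argument. -/
noncomputable def mean {X : Type} [Fintype X] (f : X → ℝ) : ℝ :=
  (∑ x, f x) / (Fintype.card X : ℝ)

section ES

variable {W Ω : Type} [Fintype W] [DecidableEq W] [Fintype Ω]

/-- The conditional mean of `f` given the labels of the vertices in `S`. -/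
noncomputable def cm (S : Finset W) (f : (W → Ω) → ℝ) (y : W → Ω) : ℝ :=
  mean (fun x : W → Ω => f (fun w => if w ∈ S then y w else x w))

/-- The Efron-Stein component of `f` at the set `S`. -/
noncomputable def es (S : Finset W) (f : (W → Ω) → ℝ) (y : W → Ω) : ℝ :=
  ∑ T ∈ S.powerset, (-1 : ℝ) ^ (S.card - T.card) * cm T f y

/-- `f` is equal to its component at `S`: it depends on the labels of `S` only and all its other
components vanish. -/
def PureAt (S : Finset W) (f : (W → Ω) → ℝ) : Prop :=
  DependsOn f (S : Set W) ∧ ∀ T, T ≠ S → ∀ y, es T f y = 0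

/-- The noise operator. -/
noncomputable def noise (ρ : ℝ) (f : (W → Ω) → ℝ) (y : W → Ω) : ℝ :=
  ∑ S : Finset W, ρ ^ S.card * es S f y

/-- The extension of the functional `E` by zero on the components at sets of more than `r`
vertices. -/
noncomputable def Lam (r : ℕ) (E : ((W → Ω) → ℝ) →ₗ[ℝ] ℝ) (f : (W → Ω) → ℝ) : ℝ :=
  ∑ T ∈ Finset.univ.filter (fun T : Finset W => T.card ≤ r), E (es T f)

end ES

/-- The indicator that `y` and `β` agree on `J`. -/
noncomputable def ind {V Ω : Type} (J : Finset V) (β y : V → Ω) : ℝ := by
  classical
  exact if ∀ i ∈ J, y i = β i then 1 else 0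

section Lift

variable {V K Ω : Type} [Fintype V] [DecidableEq V] [Fintype K] [DecidableEq K] [Fintype Ω]

/-- The chosen copies `(i, z i)` of the vertices `i ∈ S`. -/
def sec (z : V → K) (S : Finset V) : Finset (V × K) := S.image (fun i => (i, z i))

/-- The chosen copies `(i, z i)` get the labels `y i`, all other copies get random labels. -/
noncomputable def lift (z : V → K) (v : (V × K → Ω) → ℝ) (y : V → Ω) : ℝ :=
  mean (fun x : V × K → Ω => v (fun p => if p.2 = z p.1 then y p.1 else x p))

/-- The average of `u z * lift z v` over the choice `z`. -/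
noncomputable def avg (u : (V → K) → ℝ) (v : (V × K → Ω) → ℝ) (y : V → Ω) : ℝ :=
  mean (fun z : V → K => u z * lift z v y)

/-- The function `v`, restricted to the labelings with the label `β i` at the copy `(i, α i)` for
`i ∈ J`, and rescaled. -/
noncomputable def res (J : Finset V) (α : V → K) (β : V → Ω) (v : (V × K → Ω) → ℝ)
    (x : V × K → Ω) : ℝ :=
  (Fintype.card Ω : ℝ) ^ J.card * ind J β (fun i => x (i, α i)) * v x

/-- The mass of `u` on the choices that agree with `z` on `S`. -/
noncomputable def massAt (u : (V → K) → ℝ) (S : Finset V) (z : V → K) : ℝ :=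
  mean (fun z' : V → K => ind S z z' * u z')

end Lift

end Pool.Agent.Lib.P325P
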