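import Pool.Agent.Lib.P325P.Defs
import Pool.Agent.Lib.P325P.Base
import Pool.Agent.Lib.P325P.CmMul

/-!
Module Dense. Density restoring partition. t = card K.
PROOF. Strong induction on the number of z with u z ≠ 0. If mean u ≤ τ: no parts, u0 = u. Otherwise choose
(J, α) with massAt u J α ≥ mean u / √t^|J| and |J| maximal (J = ∅ qualifies: ind ∅ = 1). Part
up z = ind J α z * u z ≥ 0; rest u' = u - up ∈ [0,1], supported on the z that differ from α on J.
mean up = massAt u J α ≥ mean u / √t^|J| > 0, so up z ≠ 0 for some z and the induction applies to u'.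
Support of up: clear. Density of up: S disjoint from J; S = ∅: massAt up ∅ z = mean up. S ≠ ∅: if the set
of z' agreeing with z on S and α on J has up-mass > mean up / √t^|S| ≥ mean u / √t^(|J|+|S|), then with
J' = J ∪ S, α' = α on J, z on S: massAt u J' α' = massAt up S z ≥ mean u / √t^|J'|, |J'| > |J|,
contradiction. Size: mean u / √t^|J| ≤ mean up ≤ mean (ind J α) = t^(-|J|) (mean_ind; u ≤ 1), and
mean u > τ, so τ √t^|J| ≤ 1 (√t^2 = t).
-/

open scoped BigOperators

namespace Pool.Agent.Lib.P325P

namespace DenseAux

variable {V K : Type} [Fintype V] [DecidableEq V] [Fintype K] [DecidableEq K]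

theorem sqrt_pos [Nonempty K] : 0 < Real.sqrt (Fintype.card K : ℝ) :=
  Real.sqrt_pos.2 (Nat.cast_pos.2 Fintype.card_pos)

/-- The choice of a heavy pair of maximal size. -/
theorem choose_max [Nonempty K] (u : (V → K) → ℝ) :
    ∃ (J : Finset V) (α : V → K),
      mean u / Real.sqrt (Fintype.card K) ^ J.card ≤ massAt u J α ∧
      ∀ (J' : Finset V) (α' : V → K),
        mean u / Real.sqrt (Fintype.card K) ^ J'.card ≤ massAt u J' α' → J'.card ≤ J.card := by
  classical
  let P : Finset (Finset V × (V → K)) := Finset.univ.filter (fun p =>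
    mean u / Real.sqrt (Fintype.card K) ^ p.1.card ≤ massAt u p.1 p.2)
  have hP : P.Nonempty := by
    refine ⟨(∅, fun _ => Classical.arbitrary K), ?_⟩
    simp only [P, Finset.mem_filter, Finset.mem_univ, true_and, Finset.card_empty, pow_zero,
      div_one]
    unfold massAt
    refine le_of_eq (mean_congr fun z' => ?_)
    rw [ind_eq_one (by simp), one_mul]
  obtain ⟨p, hp, hmax⟩ := Finset.exists_max_image P (fun p => p.1.card) hP
  refine ⟨p.1, p.2, (Finset.mem_filter.1 hp).2, fun J' α' h => ?_⟩
  exact hmax (J', α') (Finset.mem_filter.2 ⟨Finset.mem_univ _, h⟩)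

/-- The mass of the part on a further set is the mass of `u` on the union. -/
theorem mass_part (u : (V → K) → ℝ) (J S : Finset V) (hd : Disjoint S J) (α z : V → K) :
    massAt (fun y => ind J α y * u y) S z =
      massAt u (J ∪ S) (fun i => if i ∈ J then α i else z i) := by
  unfold massAt
  refine mean_congr fun y => ?_
  rw [← mul_assoc]
  congr 1
  by_cases h1 : ∀ i ∈ S, y i = z i
  · by_cases h2 : ∀ i ∈ J, y i = α i
    · rw [ind_eq_one h1, ind_eq_one h2, ind_eq_one, one_mul]
      intro i hi
      by_cases hJ : i ∈ J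
      · simp only [hJ, if_true]; exact h2 i hJ
      · simp only [hJ, if_false]
        exact h1 i ((Finset.mem_union.1 hi).resolve_left hJ)
    · rw [ind_eq_zero h2, mul_zero, ind_eq_zero]
      intro h3
      refine h2 fun i hi => ?_
      have := h3 i (Finset.mem_union_left _ hi)
      simpa only [hi, if_true] using this
  · rw [ind_eq_zero h1, zero_mul, ind_eq_zero]
    intro h3
    refine h1 fun i hi => ?_
    have hJ : i ∉ J := Finset.disjoint_left.1 hd hi
    have := h3 i (Finset.mem_union_right _ hi)
    simpa only [hJ, if_false] using this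

/-- The main induction. -/
theorem main [Nonempty K] (τ : ℝ) (hτ : 0 < τ) (N : ℕ) :
    ∀ u : (V → K) → ℝ, (∀ z, 0 ≤ u z) → (∀ z, u z ≤ 1) →
    (Finset.univ.filter (fun z => u z ≠ 0)).card = N →
    ∃ (n : ℕ) (up : Fin n → (V → K) → ℝ) (J : Fin n → Finset V) (α : Fin n → V → K)
      (u0 : (V → K) → ℝ), (∀ z, u z = u0 z + ∑ p, up p z) ∧ (∀ z, 0 ≤ u0 z) ∧ mean u0 ≤ τ ∧
      ∀ p, (∀ z, 0 ≤ up p z) ∧ (∀ z, up p z ≠ 0 → ∀ i ∈ J p, z i = α p i) ∧
        (∀ S : Finset V, Disjoint S (J p) → ∀ z,
          massAt (up p) S z ≤ mean (up p) / Real.sqrt (Fintype.card K) ^ S.card) ∧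
        τ * Real.sqrt (Fintype.card K) ^ (J p).card ≤ 1 := by
  induction N using Nat.strong_induction_on with
  | _ N ih =>
  intro u h0 h1 hN
  by_cases hm : mean u ≤ τ
  · refine ⟨0, fun p => p.elim0, fun p => p.elim0, fun p => p.elim0, u, ?_, h0, hm,
      fun p => p.elim0⟩
    intro z
    simp
  · push Not at hm
    have hpos : 0 < mean u := hτ.trans hm
    have hs : 0 < Real.sqrt (Fintype.card K : ℝ) := sqrt_pos
    obtain ⟨J, α, hJ, hmax⟩ := choose_max u
    have hmup : mean (fun y => ind J α y * u y) = massAt u J α := rfl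
    have hmuppos : 0 < mean (fun y => ind J α y * u y) := by
      rw [hmup]
      exact lt_of_lt_of_le (div_pos hpos (pow_pos hs _)) hJ
    -- a point in the support of the part
    have hex : ∃ z, ind J α z * u z ≠ 0 := by
      by_contra hcon
      push Not at hcon
      have : mean (fun y => ind J α y * u y) = 0 := by
        rw [show (fun y => ind J α y * u y) = fun _ => (0 : ℝ) from funext hcon]
        unfold mean
        simp
      rw [this] at hmuppos
      exact lt_irrefl _ hmuppos
    obtain ⟨z0, hz0⟩ := hex
    have hcases : ∀ z, (ind J α z = 1 ∧ ∀ i ∈ J, z i = α i) ∨ ind J α z = 0 := by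
      intro z
      by_cases h : ∀ i ∈ J, z i = α i
      · exact Or.inl ⟨ind_eq_one h, h⟩
      · exact Or.inr (ind_eq_zero h)
    set u' : (V → K) → ℝ := fun z => u z - ind J α z * u z with hu'
    have hu'0 : ∀ z, 0 ≤ u' z := by
      intro z
      rcases hcases z with h | h
      · simp only [hu', h.1, one_mul, sub_self, le_refl]
      · simp only [hu', h, zero_mul, sub_zero]; exact h0 z
    have hu'1 : ∀ z, u' z ≤ 1 := by
      intro z
      rcases hcases z with h | h
      · simp only [hu', h.1, one_mul, sub_self]; exact zero_le_one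
      · simp only [hu', h, zero_mul, sub_zero]; exact h1 z
    have hcard : (Finset.univ.filter (fun z => u' z ≠ 0)).card < N := by
      rw [← hN]
      apply Finset.card_lt_card
      rw [Finset.ssubset_iff_of_subset]
      · refine ⟨z0, ?_, ?_⟩
        · simp only [Finset.mem_filter, Finset.mem_univ, true_and]
          exact fun h => hz0 (by rw [h, mul_zero])
        · simp only [Finset.mem_filter, Finset.mem_univ, true_and, not_not]
          rcases hcases z0 with h | h
          · simp only [hu', h.1, one_mul, sub_self]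
          · exact absurd (by rw [h, zero_mul]) hz0
      · intro z hz
        simp only [Finset.mem_filter, Finset.mem_univ, true_and] at hz ⊢
        intro h
        exact hz (by simp only [hu', h, mul_zero, sub_self])
    obtain ⟨n, up, Jn, αn, u0, hsum, hu00, hu0m, hp⟩ := ih _ hcard u' hu'0 hu'1 rfl
    refine ⟨n + 1, Fin.cons (fun y => ind J α y * u y) up, Fin.cons J Jn, Fin.cons α αn, u0,
      ?_, hu00, hu0m, ?_⟩
    · intro z
      rw [Fin.sum_univ_succ]
      simp only [Fin.cons_zero, Fin.cons_succ]
      have := hsum z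
      simp only [hu'] at this
      linarith
    · intro p
      refine Fin.cases ?_ ?_ p
      · simp only [Fin.cons_zero]
        refine ⟨fun z => mul_nonneg (ind_nonneg _ _ _) (h0 z), ?_, ?_, ?_⟩
        · intro z hz
          rcases hcases z with h | h
          · exact h.2
          · exact absurd (by rw [h, zero_mul]) hz
        · intro S hS z
          by_contra hcon
          push Not at hcon
          rw [mass_part u J S hS α z] at hcon
          have hcardU : (J ∪ S).card = J.card + S.card :=
            Finset.card_union_of_disjoint hS.symm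
          have h2 : mean u / Real.sqrt (Fintype.card K) ^ (J ∪ S).card ≤
              massAt u (J ∪ S) (fun i => if i ∈ J then α i else z i) := by
            refine le_trans ?_ hcon.le
            rw [hcardU, pow_add, ← div_div]
            exact div_le_div_of_nonneg_right (hmup ▸ hJ) (pow_nonneg hs.le _)
          have h3 := hmax _ _ h2
          rw [hcardU] at h3
          have hS0 : S = ∅ := Finset.card_eq_zero.1 (by omega)
          subst hS0
          have h4 : massAt u (J ∪ ∅) (fun i => if i ∈ J then α i else z i) =
              mean (fun y => ind J α y * u y) := by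
            rw [← mass_part u J ∅ hS α z]
            unfold massAt
            refine mean_congr fun y => ?_
            rw [ind_eq_one (by simp), one_mul]
          rw [h4] at hcon
          simp only [Finset.card_empty, pow_zero, div_one] at hcon
          exact lt_irrefl _ hcon
        · -- size
          have h5 : mean (fun y => ind J α y * u y) ≤ mean (ind J α) := by
            refine mean_mono fun y => ?_
            calc ind J α y * u y ≤ ind J α y * 1 :=
                  mul_le_mul_of_nonneg_left (h1 y) (ind_nonneg _ _ _)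
              _ = ind J α y := mul_one _
          rw [mean_ind] at h5
          have h6 : mean u / Real.sqrt (Fintype.card K) ^ J.card ≤
              ((Fintype.card K : ℝ) ^ J.card)⁻¹ := (hmup ▸ hJ).trans h5
          have hsq : (Fintype.card K : ℝ) =
              Real.sqrt (Fintype.card K) * Real.sqrt (Fintype.card K) :=
            (Real.mul_self_sqrt (Nat.cast_nonneg _)).symm
          set s := Real.sqrt (Fintype.card K : ℝ) with hsdef
          rw [hsq, mul_pow, mul_inv, div_eq_mul_inv] at h6
          have hinv : 0 < (s ^ J.card)⁻¹ := inv_pos.2 (pow_pos hs _)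
          have h7 : mean u ≤ (s ^ J.card)⁻¹ := le_of_mul_le_mul_right h6 hinv
          have h8 : τ ≤ (s ^ J.card)⁻¹ := hm.le.trans h7
          calc τ * s ^ J.card ≤ (s ^ J.card)⁻¹ * s ^ J.card :=
                mul_le_mul_of_nonneg_right h8 (pow_nonneg hs.le _)
            _ = 1 := inv_mul_cancel₀ (pow_pos hs _).ne'
      · intro q
        simp only [Fin.cons_succ]
        exact hp q

end DenseAux

theorem dense {V K : Type} [Fintype V] [DecidableEq V] [Fintype K] [DecidableEq K] [Nonempty K]
    (τ : ℝ) (hτ : 0 < τ) (u : (V → K) → ℝ) (h0 : ∀ z, 0 ≤ u z) (h1 : ∀ z, u z ≤ 1) :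
    ∃ (n : ℕ) (up : Fin n → (V → K) → ℝ) (J : Fin n → Finset V) (α : Fin n → V → K)
      (u0 : (V → K) → ℝ), (∀ z, u z = u0 z + ∑ p, up p z) ∧ (∀ z, 0 ≤ u0 z) ∧ mean u0 ≤ τ ∧
      ∀ p, (∀ z, 0 ≤ up p z) ∧ (∀ z, up p z ≠ 0 → ∀ i ∈ J p, z i = α p i) ∧
        (∀ S : Finset V, Disjoint S (J p) → ∀ z,
          massAt (up p) S z ≤ mean (up p) / Real.sqrt (Fintype.card K) ^ S.card) ∧
        τ * Real.sqrt (Fintype.card K) ^ (J p).card ≤ 1 := by
  exact DenseAux.main τ hτ _ u h0 h1 rfl

end Pool.Agent.Lib.P325P
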