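import Pool.Agent.Lib.P325P.Defs
import Pool.Agent.Lib.P325P.Base
import Pool.Agent.Lib.P325P.Cm

/-!
Module Es (2h; black boxes Base, Cm). Efron-Stein decomposition.
PROOF. sum_es: exchange the sums: ∑_(S ⊆ T) ∑_(R ⊆ S) (-1)^(|S|-|R|) cm R f = ∑_(R ⊆ T) cm R f *
∑_(R ⊆ S ⊆ T) (-1)^(|S|-|R|), the inner sum is 1 for R = T and 0 otherwise
(Finset.sum_powerset_neg_one_pow_card_of_nonempty and S = R ∪ S'). Alternative: strong induction on T.
cm_es: cm T (es S f) = ∑_(R ⊆ S) (-1)^(|S|-|R|) cm (T ∩ R) f by cm_cm and cm_sum; if S ⊆ T it is es S f;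
otherwise pair R with R △ {w}, w ∈ S \ T. es_es: es T (es S f) = ∑_(R ⊆ T) (-1)^(|T|-|R|) cm R (es S f)
= es S f * ∑_(S ⊆ R ⊆ T) (-1)^(|T|-|R|). orth: let S ≠ T, say w ∈ T \ S (or symmetric); es S f depends on
S, so mean (es S f * es T g) = mean (cm S (es S f * es T g)) = mean (es S f * cm S (es T g)) = 0 if ¬ T ⊆ S.
parseval: f = ∑_S es S f (sum_es with T = univ and cm_univ), expand and use orth.
es_zero_of_dep: cm J f = f, so es S f = es S (cm J f) and cm R (cm J f) = cm (R ∩ J) f; pair R with
R △ {w}, w ∈ S \ J. Bounds: es is a signed sum of 2^|S| conditional means, use cm_le_card, cm_le.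
pure_es: from es_dep, es_es.
-/

open scoped BigOperators

namespace Pool.Agent.Lib.P325P

variable {W Ω : Type} [Fintype W] [DecidableEq W] [Fintype Ω] [Nonempty Ω]

namespace EsAux

/-- alternating sum over the subsets -/
def mob (c : Finset W → ℝ) (S : Finset W) : ℝ :=
  ∑ T ∈ S.powerset, (-1 : ℝ) ^ (S.card - T.card) * c T

omit [Fintype W] in
theorem mob_insert (c : Finset W → ℝ) {a : W} {S : Finset W} (ha : a ∉ S) :
    mob c (insert a S) = mob (fun R => c (insert a R)) S - mob c S := by
  unfold mob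
  rw [Finset.sum_powerset_insert ha]
  have h1 : ∀ T ∈ S.powerset, (-1 : ℝ) ^ ((insert a S).card - T.card) * c T =
      - ((-1 : ℝ) ^ (S.card - T.card) * c T) := by
    intro T hT
    have hc := Finset.card_le_card (Finset.mem_powerset.1 hT)
    rw [Finset.card_insert_of_notMem ha, Nat.succ_sub hc, pow_succ]
    ring
  have h2 : ∀ T ∈ S.powerset, (-1 : ℝ) ^ ((insert a S).card - (insert a T).card) *
      c (insert a T) = (-1 : ℝ) ^ (S.card - T.card) * c (insert a T) := by
    intro T hT
    have haT : a ∉ T := fun h => ha (Finset.mem_powerset.1 hT h)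
    rw [Finset.card_insert_of_notMem ha, Finset.card_insert_of_notMem haT, Nat.add_sub_add_right]
  rw [Finset.sum_congr rfl h1, Finset.sum_congr rfl h2, Finset.sum_neg_distrib]
  ring

omit [Fintype W] in
theorem mob_congr {c d : Finset W → ℝ} {S : Finset W} (h : ∀ R ⊆ S, c R = d R) :
    mob c S = mob d S := by
  unfold mob
  apply Finset.sum_congr rfl
  intro T hT
  rw [h T (Finset.mem_powerset.1 hT)]

omit [Fintype W] in
theorem mob_zero {c : Finset W → ℝ} {S : Finset W} {w : W} (hw : w ∈ S)
    (h : ∀ R, c (insert w R) = c R) : mob c S = 0 := by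
  rw [← Finset.insert_erase hw, mob_insert c (Finset.notMem_erase w S), sub_eq_zero]
  exact mob_congr (fun R _ => h R)

omit [Fintype W] in
theorem sum_mob (T : Finset W) : ∀ c : Finset W → ℝ, ∑ S ∈ T.powerset, mob c S = c T := by
  induction T using Finset.induction_on with
  | empty =>
    intro c
    simp [mob]
  | insert a T ha ih =>
    intro c
    rw [Finset.sum_powerset_insert ha]
    have h1 : ∀ S ∈ T.powerset, mob c (insert a S) = mob (fun R => c (insert a R)) S - mob c S := by
      intro S hS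
      exact mob_insert c (fun h => ha (Finset.mem_powerset.1 hS h))
    rw [Finset.sum_congr rfl h1, Finset.sum_sub_distrib, ih (fun R => c (insert a R))]
    ring

omit [Nonempty Ω] in
theorem es_eq (S : Finset W) (f : (W → Ω) → ℝ) (y : W → Ω) :
    es S f y = mob (fun T => cm T f y) S := rfl

end EsAux

open EsAux

theorem sum_es (T : Finset W) (f : (W → Ω) → ℝ) (y : W → Ω) :
    ∑ S ∈ T.powerset, es S f y = cm T f y :=
  sum_mob T (fun T => cm T f y)

theorem sum_es_univ (f : (W → Ω) → ℝ) (y : W → Ω) : ∑ S : Finset W, es S f y = f y := by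
  rw [← cm_univ f y, ← sum_es, Finset.powerset_univ]

theorem es_dep (S : Finset W) (f : (W → Ω) → ℝ) : DependsOn (es S f) (S : Set W) := by
  intro x y h
  rw [es_eq, es_eq]
  apply mob_congr
  intro R hR
  exact cm_dep R f (fun i hi => h i (hR hi))

theorem es_sum (S : Finset W) {ι : Type*} (s : Finset ι) (c : ι → ℝ) (f : ι → (W → Ω) → ℝ)
    (y : W → Ω) :
    es S (fun x => ∑ j ∈ s, c j * f j x) y = ∑ j ∈ s, c j * es S (f j) y := by
  unfold es
  simp only [cm_sum, Finset.mul_sum]
  rw [Finset.sum_comm]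
  apply Finset.sum_congr rfl
  intro j _
  apply Finset.sum_congr rfl
  intro T _
  ring

theorem cm_es (S T : Finset W) (f : (W → Ω) → ℝ) (y : W → Ω) :
    cm T (es S f) y = if S ⊆ T then es S f y else 0 := by
  have h1 : cm T (es S f) y = mob (fun R => cm (T ∩ R) f y) S := by
    have h2 : es S f = fun x => ∑ R ∈ S.powerset, (-1 : ℝ) ^ (S.card - R.card) * cm R f x := rfl
    rw [h2, cm_sum]
    unfold mob
    apply Finset.sum_congr rfl
    intro R _
    rw [cm_cm]
  rw [h1]
  split_ifs with h
  · rw [es_eq]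
    apply mob_congr
    intro R hR
    show cm (T ∩ R) f y = cm R f y
    rw [Finset.inter_eq_right.2 (hR.trans h)]
  · obtain ⟨w, hw, hw'⟩ := Finset.not_subset.1 h
    apply mob_zero hw
    intro R
    show cm (T ∩ insert w R) f y = cm (T ∩ R) f y
    rw [Finset.inter_insert_of_notMem hw']

theorem es_es (S T : Finset W) (f : (W → Ω) → ℝ) (y : W → Ω) :
    es T (es S f) y = if T = S then es S f y else 0 := by
  rw [es_eq]
  have h1 : mob (fun R => cm R (es S f) y) T = mob (fun R => if S ⊆ R then es S f y else 0) T :=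
    mob_congr (fun R _ => cm_es S R f y)
  rw [h1]
  split_ifs with h
  · subst h
    unfold mob
    rw [Finset.sum_eq_single T]
    · simp
    · intro R hR hne
      have : ¬ T ⊆ R := fun h' => hne (Finset.Subset.antisymm (Finset.mem_powerset.1 hR) h')
      dsimp only
      rw [if_neg this, mul_zero]
    · intro h'
      exact absurd (Finset.mem_powerset_self T) h'
  · by_cases hST : S ⊆ T
    · have : ¬ T ⊆ S := fun h' => h (Finset.Subset.antisymm h' hST)
      obtain ⟨w, hw, hw'⟩ := Finset.not_subset.1 this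
      apply mob_zero hw
      intro R
      have : S ⊆ insert w R ↔ S ⊆ R := by
        rw [Finset.subset_insert_iff_of_notMem hw']
      simp only [this]
    · unfold mob
      apply Finset.sum_eq_zero
      intro R hR
      have : ¬ S ⊆ R := fun h' => hST (h'.trans (Finset.mem_powerset.1 hR))
      dsimp only
      rw [if_neg this, mul_zero]

theorem pure_es (S : Finset W) (f : (W → Ω) → ℝ) : PureAt S (es S f) :=
  ⟨es_dep S f, fun T hT y => by rw [es_es, if_neg hT]⟩

namespace EsAux

theorem orth_aux {S T : Finset W} (h : ¬ T ⊆ S) (f g : (W → Ω) → ℝ) :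
    mean (fun y => es T g y * es S f y) = 0 := by
  have h1 : (fun y => es T g y * es S f y) = (fun y => es T g y * cm S (es S f) y) := by
    funext y
    rw [cm_of_dep (es_dep S f) (Finset.Subset.refl S)]
  rw [h1, mean_mul_cm]
  have h2 : (fun y => cm S (es T g) y * cm S (es S f) y) = fun _ => (0 : ℝ) := by
    funext y
    rw [cm_es, if_neg h, zero_mul]
  rw [h2]
  exact mean_const 0

end EsAux

theorem orth {S T : Finset W} (h : S ≠ T) (f g : (W → Ω) → ℝ) :
    mean (fun y => es S f y * es T g y) = 0 := by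
  by_cases h1 : T ⊆ S
  · have h2 : ¬ S ⊆ T := fun h' => h (Finset.Subset.antisymm h' h1)
    exact orth_aux h2 g f
  · have h3 : (fun y => es S f y * es T g y) = fun y => es T g y * es S f y := by
      funext y
      ring
    rw [h3]
    exact orth_aux h1 f g

theorem parseval (f : (W → Ω) → ℝ) :
    mean (fun y => f y ^ 2) = ∑ S : Finset W, mean (fun y => es S f y ^ 2) := by
  have h1 : (fun y => f y ^ 2) = fun y => ∑ S : Finset W, ∑ T : Finset W, es S f y * es T f y := by
    funext y
    rw [← sum_es_univ f y, sq, Finset.sum_mul_sum]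
  rw [h1, mean_sum]
  apply Finset.sum_congr rfl
  intro S _
  rw [mean_sum, Finset.sum_eq_single S]
  · apply mean_congr
    intro y
    ring
  · intro T _ hT
    exact orth hT.symm f f
  · intro h
    exact absurd (Finset.mem_univ S) h

theorem es_zero_of_dep {J S : Finset W} {f : (W → Ω) → ℝ} (h : DependsOn f (J : Set W))
    (hS : ¬ S ⊆ J) (y : W → Ω) : es S f y = 0 := by
  have h1 : cm J f = f := by
    funext x
    exact cm_of_dep h (Finset.Subset.refl J) x
  have h2 : es S f y = mob (fun R => cm (R ∩ J) f y) S := by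
    rw [es_eq]
    apply mob_congr
    intro R _
    show cm R f y = cm (R ∩ J) f y
    rw [← cm_cm, h1]
  rw [h2]
  obtain ⟨w, hw, hw'⟩ := Finset.not_subset.1 hS
  apply mob_zero hw
  intro R
  show cm (insert w R ∩ J) f y = cm (R ∩ J) f y
  rw [Finset.insert_inter_of_notMem hw']

theorem es_empty (f : (W → Ω) → ℝ) (y : W → Ω) : es ∅ f y = mean f := by
  unfold es
  rw [Finset.powerset_empty, Finset.sum_singleton, cm_empty]
  simp

namespace EsAux

omit [Fintype W] in
theorem abs_mob_le {c : Finset W → ℝ} {S : Finset W} {M : ℝ} (h : ∀ R ⊆ S, |c R| ≤ M) :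
    |mob c S| ≤ 2 ^ S.card * M := by
  unfold mob
  refine (Finset.abs_sum_le_sum_abs _ _).trans ?_
  have h1 : ∀ T ∈ S.powerset, |(-1 : ℝ) ^ (S.card - T.card) * c T| ≤ M := by
    intro T hT
    rw [abs_mul, abs_pow, abs_neg, abs_one, one_pow, one_mul]
    exact h T (Finset.mem_powerset.1 hT)
  refine (Finset.sum_le_sum h1).trans ?_
  rw [Finset.sum_const, Finset.card_powerset, nsmul_eq_mul]
  push_cast
  exact le_rfl

end EsAux

theorem abs_es_le_mean (S : Finset W) {f : (W → Ω) → ℝ} (h : ∀ x, 0 ≤ f x) (y : W → Ω) :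
    |es S f y| ≤ (2 * (Fintype.card Ω : ℝ)) ^ S.card * mean f := by
  rw [es_eq, mul_pow, mul_assoc]
  apply abs_mob_le
  intro R hR
  rw [abs_of_nonneg (cm_nonneg R h y)]
  refine (cm_le_card R h y).trans ?_
  apply mul_le_mul_of_nonneg_right _ (mean_nonneg h)
  have hq : (1 : ℝ) ≤ (Fintype.card Ω : ℝ) := by
    have : 1 ≤ Fintype.card Ω := Fintype.card_pos
    exact_mod_cast this
  exact pow_le_pow_right₀ hq (Finset.card_le_card hR)

theorem abs_es_le (S : Finset W) {f : (W → Ω) → ℝ} {M : ℝ} (h : ∀ x, |f x| ≤ M) (y : W → Ω) :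
    |es S f y| ≤ 2 ^ S.card * M := by
  rw [es_eq]
  apply abs_mob_le
  intro R _
  exact (abs_mean_le _).trans (mean_le (fun x => h _))

end Pool.Agent.Lib.P325P
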