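import Pool.Agent.Lib.P325P.Defs
import Pool.Agent.Lib.P325P.Base
import Pool.Agent.Lib.P325P.Cm
import Pool.Agent.Lib.P325P.Es

/-!
Module EsLift (2h; black boxes Base, Cm, Es). Components of the lift.
PROOF. cm_lift: cm T (lift z v) y = mean_y' mean_x v (p ↦ if p.2 = z p.1 then (if p.1 ∈ T then y p.1 else
y' p.1) else x p). The labeling of V × K which is y' p.1 at the chosen copies and x p elsewhere is
uniformly random if y' and x are: so this is mean_x v (p ↦ if p ∈ sec z T then y p.1 else x p)
= cm (sec z T) v (fun p => y p.1) (p ∈ sec z T iff p.2 = z p.1 and p.1 ∈ T). For the uniformity: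
mean_graph below (for F, mean_y' mean_x F (p ↦ if p.2 = z p.1 then y' p.1 else x p) = mean F): use
mean_mix with the set sec z univ and the equivalence of (sec z univ → Ω) with (V → Ω); e.g. mean_mix gives
mean F = mean_x'' mean_x F (x'' on sec z univ, x elsewhere) and the inner mean is a function
H (fun i => x'' (i, z i)) of the labels of x'' at the chosen copies; mean_x'' H (fun i => x'' (i, z i))
= mean H (mean_sel), as the map x'' ↦ (fun i => x'' (i, z i)) has fibres of equal size.
es_lift: sum over T ⊆ S, sec z is injective, (sec z S).powerset = image of S.powerset, same cards.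
mean_es_lift: es (sec z S) v depends on the labels of sec z S only: es (sec z S) v (fun p => y p.1) =
H y, and es (sec z S) v x = H (fun i => x (i, z i)); mean_sel.
-/

open scoped BigOperators

namespace Pool.Agent.Lib.P325P

variable {V K Ω : Type} [Fintype V] [DecidableEq V] [Fintype K] [DecidableEq K] [Fintype Ω]
  [Nonempty Ω]

omit [Fintype V] [DecidableEq V] [Fintype K] [Fintype Ω] [Nonempty Ω] in
private theorem swp_invol (z : V → K) (q : (V → Ω) × (V × K → Ω)) :
    ((fun i => (fun p : V × K => if p.2 = z p.1 then q.1 p.1 else q.2 p) (i, z i)),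
      (fun p : V × K => if p.2 = z p.1 then (fun i => q.2 (i, z i)) p.1
        else (fun p : V × K => if p.2 = z p.1 then q.1 p.1 else q.2 p) p)) = q := by
  refine Prod.ext ?_ ?_
  · funext i
    simp
  · funext p
    obtain ⟨a, b⟩ := p
    by_cases h : b = z a
    · subst h
      simp
    · simp [h]

/-- The involution that exchanges the labels `y i` and the labels of the chosen copies. -/
private def swp (z : V → K) : (V → Ω) × (V × K → Ω) ≃ (V → Ω) × (V × K → Ω) where
  toFun q := (fun i => q.2 (i, z i), fun p => if p.2 = z p.1 then q.1 p.1 else q.2 p)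
  invFun q := (fun i => q.2 (i, z i), fun p => if p.2 = z p.1 then q.1 p.1 else q.2 p)
  left_inv q := swp_invol z q
  right_inv q := swp_invol z q

theorem mean_sel (z : V → K) (H : (V → Ω) → ℝ) :
    mean (fun x : V × K → Ω => H (fun i => x (i, z i))) = mean H := by
  have h1 : mean (fun q : (V → Ω) × (V × K → Ω) => H (swp z q).1) =
      mean (fun q : (V → Ω) × (V × K → Ω) => H q.1) :=
    mean_comp (swp z) (fun q => H q.1)
  rw [mean_prod, mean_prod] at h1
  have h2 : mean (fun y : V → Ω => mean (fun _ : V × K → Ω => H y)) = mean H :=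
    mean_congr fun y => mean_const _
  have h3 : mean (fun _ : V → Ω => mean (fun x : V × K → Ω => H (fun i => x (i, z i)))) =
      mean (fun x : V × K → Ω => H (fun i => x (i, z i))) := mean_const _
  rw [← h2, ← h3]
  exact h1

theorem mean_graph (z : V → K) (F : (V × K → Ω) → ℝ) :
    mean (fun y : V → Ω => mean (fun x : V × K → Ω =>
      F (fun p => if p.2 = z p.1 then y p.1 else x p))) = mean F := by
  have h1 : mean (fun q : (V → Ω) × (V × K → Ω) => F (swp z q).2) =
      mean (fun q : (V → Ω) × (V × K → Ω) => F q.2) :=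
    mean_comp (swp z) (fun q => F q.2)
  rw [mean_prod, mean_prod] at h1
  have h2 : mean (fun _ : V → Ω => mean (fun x : V × K → Ω => F x)) = mean F :=
    mean_const _
  rw [← h2]
  exact h1

theorem mem_sec (z : V → K) (S : Finset V) (p : V × K) :
    p ∈ sec z S ↔ p.1 ∈ S ∧ p.2 = z p.1 := by
  unfold sec
  rw [Finset.mem_image]
  constructor
  · rintro ⟨i, hi, rfl⟩
    exact ⟨hi, rfl⟩
  · rintro ⟨h1, h2⟩
    exact ⟨p.1, h1, Prod.ext rfl h2.symm⟩

theorem card_sec (z : V → K) (S : Finset V) : (sec z S).card = S.card := by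
  unfold sec
  exact Finset.card_image_of_injective _ fun i j h => (Prod.ext_iff.1 h).1

theorem cm_lift (z : V → K) (v : (V × K → Ω) → ℝ) (T : Finset V) (y : V → Ω) :
    cm T (lift z v) y = cm (sec z T) v (fun p => y p.1) := by
  have h := mean_graph z (fun x : V × K → Ω => v (fun p => if p ∈ sec z T then y p.1 else x p))
  unfold cm lift
  rw [← h]
  refine mean_congr fun y' => mean_congr fun x => ?_
  congr 1
  funext p
  show (if p.2 = z p.1 then (if p.1 ∈ T then y p.1 else y' p.1) else x p) =
    (if p ∈ sec z T then y p.1 else (if p.2 = z p.1 then y' p.1 else x p))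
  by_cases h1 : p.2 = z p.1
  · by_cases h2 : p.1 ∈ T
    · rw [if_pos h1, if_pos h2, if_pos ((mem_sec z T p).2 ⟨h2, h1⟩)]
    · rw [if_pos h1, if_neg h2, if_neg fun h3 => h2 ((mem_sec z T p).1 h3).1, if_pos h1]
  · rw [if_neg h1, if_neg fun h3 => h1 ((mem_sec z T p).1 h3).2, if_neg h1]

private theorem sec_inj (z : V → K) {S T : Finset V} (h : sec z S = sec z T) : S = T := by
  ext i
  have h1 : (i, z i) ∈ sec z S ↔ (i, z i) ∈ sec z T := by rw [h]
  rw [mem_sec, mem_sec] at h1
  simpa using h1

theorem es_lift (z : V → K) (v : (V × K → Ω) → ℝ) (S : Finset V) (y : V → Ω) :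
    es S (lift z v) y = es (sec z S) v (fun p => y p.1) := by
  unfold es
  refine Finset.sum_bij (fun T _ => sec z T) ?_ ?_ ?_ ?_
  · intro T hT
    rw [Finset.mem_powerset] at hT ⊢
    intro p hp
    rw [mem_sec] at hp ⊢
    exact ⟨hT hp.1, hp.2⟩
  · intro T1 _ T2 _ h
    exact sec_inj z h
  · intro T' hT'
    rw [Finset.mem_powerset] at hT'
    refine ⟨T'.image Prod.fst, ?_, ?_⟩
    · rw [Finset.mem_powerset]
      intro i hi
      obtain ⟨p, hp, rfl⟩ := Finset.mem_image.1 hi
      exact ((mem_sec z S p).1 (hT' hp)).1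
    · ext p
      rw [mem_sec, Finset.mem_image]
      constructor
      · rintro ⟨⟨q, hq, hqp⟩, h2⟩
        have h3 := ((mem_sec z S q).1 (hT' hq)).2
        have h4 : q = p := Prod.ext hqp (by rw [h3, h2, hqp])
        exact h4 ▸ hq
      · intro hp
        exact ⟨⟨p, hp, rfl⟩, ((mem_sec z S p).1 (hT' hp)).2⟩
  · intro T _
    rw [card_sec, card_sec, cm_lift]

theorem mean_es_lift (z : V → K) (v : (V × K → Ω) → ℝ) (S : Finset V) :
    mean (fun y => es S (lift z v) y ^ 2) = mean (fun x => es (sec z S) v x ^ 2) := by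
  have h1 : mean (fun y => es S (lift z v) y ^ 2) =
      mean (fun y : V → Ω => es (sec z S) v (fun p => y p.1) ^ 2) :=
    mean_congr fun y => by rw [es_lift]
  rw [h1, ← mean_sel z (fun y : V → Ω => es (sec z S) v (fun p => y p.1) ^ 2)]
  refine mean_congr fun x => ?_
  have h2 : es (sec z S) v (fun p => x (p.1, z p.1)) = es (sec z S) v x := by
    refine es_dep (sec z S) v ?_
    intro p hp
    have h3 := ((mem_sec z S p).1 (Finset.mem_coe.1 hp)).2
    show x (p.1, z p.1) = x p
    rw [← h3]
  show es (sec z S) v (fun p => x (p.1, z p.1)) ^ 2 = _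
  rw [h2]

theorem mean_lift (z : V → K) (v : (V × K → Ω) → ℝ) : mean (lift z v) = mean v :=
  mean_graph z v

theorem lift_sel (z : V → K) (F : (V → Ω) → ℝ) (y : V → Ω) :
    lift z (fun x : V × K → Ω => F (fun i => x (i, z i))) y = F y := by
  unfold lift
  rw [← mean_const (X := V × K → Ω) (F y)]
  refine mean_congr fun x => ?_
  show F (fun i => if z i = z i then y i else x (i, z i)) = F y
  congr 1
  funext i
  simp

end Pool.Agent.Lib.P325P
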