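import Pool.Agent.Lib.P325P.Defs
import Pool.Agent.Lib.P325P.Base
import Pool.Agent.Lib.P325P.Cm
import Pool.Agent.Lib.P325P.CmMul
import Pool.Agent.Lib.P325P.Es

/-!
Module EsMul (1.5h; black boxes Base, Cm, CmMul, Es). Components of a product of a function of the
labels of J with a pure function at S, J and S disjoint.
PROOF. For T ⊆ univ: cm R (f g) = cm R f * cm R g (CmMul) = cm R f * (if S ⊆ R then g else 0) (g is the
sum of its components, so g = es S g; cm_es). So es T (f g) = ∑_(R ⊆ T, S ⊆ R) (-1)^(|T|-|R|) cm R f * g: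
zero if ¬ S ⊆ T; otherwise R = S ∪ R', R' ⊆ T \ S, and cm (S ∪ R') f = cm R' f, since f depends on J and
J ∩ S = ∅ (f = cm J f and cm_cm: (S ∪ R') ∩ J = R' ∩ J). This gives es (T \ S) f * g.
-/

open scoped BigOperators

namespace Pool.Agent.Lib.P325P

variable {W Ω : Type} [Fintype W] [DecidableEq W] [Fintype Ω] [Nonempty Ω]

theorem EsMulAux.cm_pure {S : Finset W} {g : (W → Ω) → ℝ} (hg : PureAt S g) (R : Finset W)
    (y : W → Ω) : cm R g y = if S ⊆ R then g y else 0 := by
  have h1 : es S g = g := by
    funext x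
    have h := sum_es_univ g x
    rw [Finset.sum_eq_single S (fun T _ hT => hg.2 T hT x)
      (fun h => absurd (Finset.mem_univ _) h)] at h
    exact h
  have h2 := cm_es S R g y
  rw [h1] at h2
  exact h2

theorem EsMulAux.cm_union {J S : Finset W} {f : (W → Ω) → ℝ} (hf : DependsOn f (J : Set W))
    (hJS : Disjoint J S) (R : Finset W) (y : W → Ω) : cm (S ∪ R) f y = cm R f y := by
  have h1 : cm J f = f := funext fun x => cm_of_dep hf (Finset.Subset.refl _) x
  have h2 : cm (S ∪ R) (cm J f) y = cm ((S ∪ R) ∩ J) f y := cm_cm _ _ _ _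
  have h3 : cm R (cm J f) y = cm (R ∩ J) f y := cm_cm _ _ _ _
  have h4 : (S ∪ R) ∩ J = R ∩ J := by
    rw [Finset.union_inter_distrib_right, Finset.disjoint_iff_inter_eq_empty.1 hJS.symm,
      Finset.empty_union]
  rw [h1] at h2 h3
  rw [h2, h3, h4]

theorem es_mul {J S : Finset W} {f g : (W → Ω) → ℝ} (hf : DependsOn f (J : Set W))
    (hg : PureAt S g) (hJS : Disjoint J S) (T : Finset W) (y : W → Ω) :
    es T (fun x => f x * g x) y = if S ⊆ T then es (T \ S) f y * g y else 0 := by
  have hc : ∀ R : Finset W, cm R (fun x => f x * g x) y =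
      cm R f y * (if S ⊆ R then g y else 0) := by
    intro R
    rw [cm_mul_disj hf hg.1 hJS R y, EsMulAux.cm_pure hg R y]
  have he : es T (fun x => f x * g x) y =
      ∑ R ∈ T.powerset, (-1 : ℝ) ^ (T.card - R.card) *
        (cm R f y * (if S ⊆ R then g y else 0)) := by
    unfold es
    exact Finset.sum_congr rfl fun R _ => by rw [hc R]
  rw [he]
  by_cases hST : S ⊆ T
  · rw [if_pos hST]
    unfold es
    rw [Finset.sum_mul, ← Finset.sum_filter_add_sum_filter_not T.powerset (fun R => S ⊆ R)]
    have hz : ∑ R ∈ T.powerset.filter (fun R => ¬ S ⊆ R), (-1 : ℝ) ^ (T.card - R.card) *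
        (cm R f y * (if S ⊆ R then g y else 0)) = 0 := by
      refine Finset.sum_eq_zero fun R hR => ?_
      rw [if_neg (Finset.mem_filter.1 hR).2, mul_zero, mul_zero]
    rw [hz, add_zero]
    refine Finset.sum_nbij' (fun R => R \ S) (fun R => S ∪ R) ?_ ?_ ?_ ?_ ?_
    · intro R hR
      have h := Finset.mem_filter.1 hR
      exact Finset.mem_powerset.2 (Finset.sdiff_subset_sdiff (Finset.mem_powerset.1 h.1)
        (Finset.Subset.refl _))
    · intro R hR
      have h := Finset.mem_powerset.1 hR
      exact Finset.mem_filter.2 ⟨Finset.mem_powerset.2 (Finset.union_subset hST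
        (h.trans Finset.sdiff_subset)), Finset.subset_union_left⟩
    · intro R hR
      exact Finset.union_sdiff_of_subset (Finset.mem_filter.1 hR).2
    · intro R hR
      have h := Finset.mem_powerset.1 hR
      have hd : Disjoint S R := by
        refine Finset.disjoint_left.2 fun a ha hb => ?_
        exact (Finset.mem_sdiff.1 (h hb)).2 ha
      exact Finset.union_sdiff_cancel_left hd
    · intro R hR
      have h := Finset.mem_filter.1 hR
      have hRT := Finset.mem_powerset.1 h.1
      rw [if_pos h.2]
      have hcu := EsMulAux.cm_union hf hJS (R \ S) y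
      rw [Finset.union_sdiff_of_subset h.2] at hcu
      have e1 : (T \ S).card - (R \ S).card = T.card - R.card := by
        rw [Finset.card_sdiff_of_subset hST, Finset.card_sdiff_of_subset h.2]
        have a1 := Finset.card_le_card hRT
        have a2 := Finset.card_le_card h.2
        omega
      show (-1 : ℝ) ^ (T.card - R.card) * (cm R f y * g y) =
        (-1 : ℝ) ^ ((T \ S).card - (R \ S).card) * cm (R \ S) f y * g y
      rw [e1, hcu, mul_assoc]
  · rw [if_neg hST]
    refine Finset.sum_eq_zero fun R hR => ?_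
    rw [if_neg fun h => hST (h.trans (Finset.mem_powerset.1 hR)), mul_zero, mul_zero]

end Pool.Agent.Lib.P325P
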