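import Mathlib
import Pool.Agent.Lib.P325x.Defs
import Pool.Agent.Lib.P325P.Defs
import Pool.Agent.Lib.P325P.Base
import Pool.Agent.Lib.P325P.Es

/-!
Module EsSat (1h; black box Es). The components of `s - satFrac` at sets of more than two vertices
vanish.
PROOF. satFrac = (∑_e indicator of satisfaction of e) / card ι as functions of the labeling, each indicator
depends on the two labels of src e and dst e only: es_zero_of_dep with J = {inl (src e), inr (dst e)},
|J| ≤ 2 < |T|; the constant s depends on ∅; es_sum for the linear combination.
-/

open scoped BigOperators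

namespace Pool.Agent.Lib.P325P

open Pool.Agent.Lib.P325x (Game)

theorem es_sat {n k : ℕ} [NeZero k] {ι : Type} [Fintype ι] (src dst : ι → Fin n)
    (b : ι → ZMod k) (s : ℝ) (T : Finset (Fin n ⊕ Fin n)) (hT : 2 < T.card)
    (y : Fin n ⊕ Fin n → ZMod k) :
    es T (fun z => s - (Game.mk src dst (fun e => Equiv.addRight (b e))).satFrac
      (fun i => z (Sum.inl i)) (fun i => z (Sum.inr i))) y = 0 := by
  classical
  let c : Option ι → ℝ := fun o => o.elim s (fun _ => - (1 / (Fintype.card ι : ℝ)))
  let f : Option ι → (Fin n ⊕ Fin n → ZMod k) → ℝ := fun o =>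
    o.elim (fun _ => 1)
      (fun e z => if z (Sum.inl (src e)) + b e = z (Sum.inr (dst e)) then 1 else 0)
  have h1 : (fun z : Fin n ⊕ Fin n → ZMod k =>
      s - (Game.mk src dst (fun e => Equiv.addRight (b e))).satFrac
      (fun i => z (Sum.inl i)) (fun i => z (Sum.inr i))) =
      fun z => ∑ o ∈ (Finset.univ : Finset (Option ι)), c o * f o z := by
    funext z
    rw [Fintype.sum_option]
    simp only [c, f, Option.elim]
    have h3 : (Game.mk src dst (fun e => Equiv.addRight (b e))).satFrac
        (fun i => z (Sum.inl i)) (fun i => z (Sum.inr i)) =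
        (∑ e, (if z (Sum.inl (src e)) + b e = z (Sum.inr (dst e)) then (1 : ℝ) else 0)) /
          (Fintype.card ι : ℝ) := by
      unfold Game.satFrac
      rw [Finset.sum_boole]
      congr 3
      exact Finset.filter_congr_decidable _ _ _
    rw [h3, ← Finset.mul_sum]
    ring
  rw [h1, es_sum]
  apply Finset.sum_eq_zero
  intro o _
  have h2 : es T (f o) y = 0 := by
    rcases o with _ | e
    · apply es_zero_of_dep (J := ∅)
      · intro u v _
        rfl
      · intro h
        rw [Finset.subset_empty.1 h] at hT
        simp at hT
    · apply es_zero_of_dep (J := {Sum.inl (src e), Sum.inr (dst e)})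
      · intro u v huv
        have e1 : u (Sum.inl (src e)) = v (Sum.inl (src e)) := huv _ (by simp)
        have e2 : u (Sum.inr (dst e)) = v (Sum.inr (dst e)) := huv _ (by simp)
        simp only [f, Option.elim, e1, e2]
      · intro h
        have h3 := Finset.card_le_card h
        have h4 := Finset.card_le_two (a := (Sum.inl (src e) : Fin n ⊕ Fin n))
          (b := Sum.inr (dst e))
        omega
  rw [h2, mul_zero]

end Pool.Agent.Lib.P325P
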