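import Mathlib

/-!
Module Fark (1.5h; Mathlib only). Farkas' lemma, affine form, in an arbitrary real vector space.
PROOF. Homogeneous form by induction on R (Bartl): if w y ≤ 0 whenever A j y ≤ 0 for all j, then
w = ∑ l j • A j with l ≥ 0. R = 0: w y ≤ 0 and w (-y) ≤ 0, so w = 0. R + 1 (last index n): if already
A j y ≤ 0 for j < n implies w y ≤ 0, use the induction hypothesis and l n = 0. Otherwise there is y' with
A j y' ≤ 0 (j < n), w y' > 0, hence A n y' > 0; scale to A n y' = 1. Put A' j = A j - A j y' • A n,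
w' = w - w y' • A n (j < n). If A' j y ≤ 0 for all j < n, then y'' = y - A n y • y' has A j y'' ≤ 0 (j < n),
A n y'' = 0, so w y'' = w' y ≤ 0. By induction w' = ∑ l j • A' j, so
w = ∑_(j<n) l j • A j + (w y' - ∑ l j A j y') • A n, and the last coefficient is ≥ 0.
Affine form: apply it in Y × ℝ to A j y - c j h ≤ 0, -h ≤ 0 and w y - s h ≤ 0: for h > 0 the point
h⁻¹ • y is feasible; for h = 0, y0 + θ • y is feasible for all θ ≥ 0, so w y ≤ 0. The result is
w = ∑ l j • A j and s = ∑ l j c j + μ, μ ≥ 0.
-/

open scoped BigOperators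

namespace Pool.Agent.Lib.P325P

/-- The homogeneous form. -/
theorem farkas_hom {Y : Type*} [AddCommGroup Y] [Module ℝ Y] : ∀ (R : ℕ) (A : Fin R → Y →ₗ[ℝ] ℝ)
    (w : Y →ₗ[ℝ] ℝ) (_ : ∀ y, (∀ j, A j y ≤ 0) → w y ≤ 0),
    ∃ l : Fin R → ℝ, (∀ j, 0 ≤ l j) ∧ w = ∑ j, l j • A j
  | 0, A, w, h => by
      refine ⟨fun _ => 0, fun _ => le_refl 0, ?_⟩
      ext y
      have h1 : w y ≤ 0 := h y (fun j => j.elim0)
      have h2 : w (-y) ≤ 0 := h (-y) (fun j => j.elim0)
      rw [map_neg] at h2
      simp
      linarith
  | n + 1, A, w, h => by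
      by_cases hc : ∀ y, (∀ j : Fin n, A j.castSucc y ≤ 0) → w y ≤ 0
      · obtain ⟨l, hl0, hl⟩ := farkas_hom n (fun j => A j.castSucc) w hc
        refine ⟨Fin.snoc l 0, ?_, ?_⟩
        · intro j
          refine Fin.lastCases ?_ (fun i => ?_) j
          · simp
          · simpa using hl0 i
        · rw [Fin.sum_univ_castSucc]
          simp only [Fin.snoc_castSucc, Fin.snoc_last, zero_smul, add_zero]
          exact hl
      · push Not at hc
        obtain ⟨y1, hy1, hw1⟩ := hc
        have hA1 : 0 < A (Fin.last n) y1 := by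
          by_contra hcon
          push Not at hcon
          have : w y1 ≤ 0 := by
            apply h
            intro j
            refine Fin.lastCases hcon (fun i => hy1 i) j
          linarith
        set a := A (Fin.last n) y1 with ha
        set y' := a⁻¹ • y1 with hy'
        have hAn : A (Fin.last n) y' = 1 := by
          rw [hy', map_smul, smul_eq_mul, ← ha, inv_mul_cancel₀ hA1.ne']
        have hAj : ∀ j : Fin n, A j.castSucc y' ≤ 0 := by
          intro j
          rw [hy', map_smul, smul_eq_mul]
          exact mul_nonpos_of_nonneg_of_nonpos (inv_nonneg.2 hA1.le) (hy1 j)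
        have hwy : 0 ≤ w y' := by
          rw [hy', map_smul, smul_eq_mul]
          exact mul_nonneg (inv_nonneg.2 hA1.le) hw1.le
        obtain ⟨l, hl0, hl⟩ := farkas_hom n
          (fun j => A j.castSucc - A j.castSucc y' • A (Fin.last n))
          (w - w y' • A (Fin.last n)) (by
            intro y hy
            have h3 : w (y - A (Fin.last n) y • y') ≤ 0 := by
              apply h
              intro j
              refine Fin.lastCases ?_ (fun i => ?_) j
              · rw [map_sub, map_smul, smul_eq_mul, hAn]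
                linarith
              · have := hy i
                simp only [LinearMap.sub_apply, LinearMap.smul_apply, smul_eq_mul] at this
                rw [map_sub, map_smul, smul_eq_mul]
                linarith
            rw [map_sub, map_smul, smul_eq_mul] at h3
            simp only [LinearMap.sub_apply, LinearMap.smul_apply, smul_eq_mul]
            linarith)
        refine ⟨Fin.snoc l (w y' - ∑ j, l j * A j.castSucc y'), ?_, ?_⟩
        · intro j
          refine Fin.lastCases ?_ (fun i => ?_) j
          · simp only [Fin.snoc_last]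
            have : ∑ j, l j * A j.castSucc y' ≤ 0 :=
              Finset.sum_nonpos fun j _ => mul_nonpos_of_nonneg_of_nonpos (hl0 j) (hAj j)
            linarith
          · simpa using hl0 i
        · rw [Fin.sum_univ_castSucc]
          simp only [Fin.snoc_castSucc, Fin.snoc_last]
          ext y
          have h4 := congrArg (fun u : Y →ₗ[ℝ] ℝ => u y) hl
          simp only [LinearMap.sub_apply, LinearMap.smul_apply, smul_eq_mul,
            LinearMap.coe_sum, Finset.sum_apply, LinearMap.add_apply] at h4 ⊢
          have h5 : ∑ x, l x * (A x.castSucc y - A x.castSucc y' * A (Fin.last n) y)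
              = ∑ x, l x * A x.castSucc y
                - (∑ x, l x * A x.castSucc y') * A (Fin.last n) y := by
            rw [Finset.sum_mul, ← Finset.sum_sub_distrib]
            apply Finset.sum_congr rfl
            intro x _
            ring
          rw [h5] at h4
          linarith

theorem farkas {Y : Type*} [AddCommGroup Y] [Module ℝ Y] (R : ℕ) (A : Fin R → Y →ₗ[ℝ] ℝ)
    (c : Fin R → ℝ) (y0 : Y) (hy0 : ∀ j, A j y0 ≤ c j) (w : Y →ₗ[ℝ] ℝ) (s : ℝ)
    (h : ∀ y, (∀ j, A j y ≤ c j) → w y ≤ s) :
    ∃ l : Fin R → ℝ, (∀ j, 0 ≤ l j) ∧ w = ∑ j, l j • A j ∧ ∑ j, l j * c j ≤ s := by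
  -- functionals on Y × ℝ
  set B : Fin (R + 1) → (Y × ℝ) →ₗ[ℝ] ℝ := Fin.snoc
    (fun j => (A j).comp (LinearMap.fst ℝ Y ℝ) - c j • LinearMap.snd ℝ Y ℝ)
    (-(LinearMap.snd ℝ Y ℝ)) with hB
  set W : (Y × ℝ) →ₗ[ℝ] ℝ := w.comp (LinearMap.fst ℝ Y ℝ) - s • LinearMap.snd ℝ Y ℝ with hW
  have hBj : ∀ (j : Fin R) (z : Y × ℝ), B j.castSucc z = A j z.1 - c j * z.2 := by
    intro j z
    rw [hB]
    simp
  have hBl : ∀ z : Y × ℝ, B (Fin.last R) z = - z.2 := by
    intro z
    rw [hB]
    simp
  have hWz : ∀ z : Y × ℝ, W z = w z.1 - s * z.2 := by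
    intro z
    rw [hW]
    simp
  have hmain : ∀ z, (∀ j, B j z ≤ 0) → W z ≤ 0 := by
    intro z hz
    have hz2 : 0 ≤ z.2 := by
      have := hz (Fin.last R)
      rw [hBl] at this
      linarith
    have hzj : ∀ j : Fin R, A j z.1 ≤ c j * z.2 := by
      intro j
      have := hz j.castSucc
      rw [hBj] at this
      linarith
    rw [hWz]
    rcases hz2.eq_or_lt with h0 | h0
    · -- z.2 = 0
      rw [← h0]
      rw [mul_zero, sub_zero]
      by_contra hcon
      push Not at hcon
      -- choose θ large
      have hfe : ∀ θ : ℝ, 0 ≤ θ → w y0 + θ * w z.1 ≤ s := by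
        intro θ hθ
        have := h (y0 + θ • z.1) (by
          intro j
          rw [map_add, map_smul, smul_eq_mul]
          have h1 := hzj j
          rw [← h0, mul_zero] at h1
          have h2 := hy0 j
          nlinarith [mul_nonpos_of_nonneg_of_nonpos hθ h1])
        rwa [map_add, map_smul, smul_eq_mul] at this
      have h1 := hfe ((|s - w y0| + 1) / w z.1) (by positivity)
      rw [div_mul_cancel₀ _ hcon.ne'] at h1
      have h2 := le_abs_self (s - w y0)
      linarith
    · have h1 := h (z.2⁻¹ • z.1) (by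
        intro j
        rw [map_smul, smul_eq_mul]
        have h2 := hzj j
        rw [inv_mul_le_iff₀ h0]
        linarith)
      rw [map_smul, smul_eq_mul, inv_mul_le_iff₀ h0] at h1
      linarith
  obtain ⟨l, hl0, hl⟩ := farkas_hom (R + 1) B W hmain
  refine ⟨fun j => l j.castSucc, fun j => hl0 _, ?_, ?_⟩
  · ext y
    have h1 := congrArg (fun u : (Y × ℝ) →ₗ[ℝ] ℝ => u (y, 0)) hl
    simp only [LinearMap.coe_sum, Finset.sum_apply, LinearMap.smul_apply, smul_eq_mul] at h1 ⊢
    rw [hWz, Fin.sum_univ_castSucc] at h1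
    simp only [hBj, hBl, mul_zero, sub_zero, neg_zero, add_zero] at h1
    exact h1
  · have h1 := congrArg (fun u : (Y × ℝ) →ₗ[ℝ] ℝ => u (0, 1)) hl
    simp only [LinearMap.coe_sum, Finset.sum_apply, LinearMap.smul_apply, smul_eq_mul] at h1
    rw [hWz, Fin.sum_univ_castSucc] at h1
    simp only [hBj, hBl, map_zero, mul_one, zero_sub, mul_neg] at h1
    have h2 := hl0 (Fin.last R)
    rw [Finset.sum_neg_distrib] at h1
    linarith

end Pool.Agent.Lib.P325P
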