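import Pool.Agent.Lib.P325P.Defs
import Pool.Agent.Lib.P325P.Base

/-!
Module Grp (1.5h; black box Base). Two Cauchy-Schwarz estimates.
PROOF. mean_mean_sq: G(y) = mean_z u z g z y; mean_y G^2 = mean_z mean_z' u z u z' mean_y (g z y g z' y) and
mean_y (g z g z') ≤ √(mean g_z^2) √(mean g_z'^2) (mean_mul_sq_le, abs_le_of_sq_le or Real.le_sqrt).
group: let A range over the sets of card |S| and Q A = mean_z (u z 1[sec z S = A]) ≥ 0. Then
mean_z (u z * w (sec z S)) = ∑_A Q A * w A (each z contributes to A = sec z S only, which has |S|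
elements), ∑_A Q A = U, Q A ≤ c for all A (if Q A ≠ 0 then A = sec z0 S for some z0, and sec z S = sec z0 S
iff z = z0 on S, so Q A = massAt u S z0 (ind S z0 z = 1 iff z = z0 on S)). Cauchy-Schwarz:
(∑ Q w)^2 ≤ ∑ Q^2 ∑ w^2 ≤ c U ∑ w^2.
-/

open scoped BigOperators

namespace Pool.Agent.Lib.P325P

namespace GrpAux

theorem mean_sq {X : Type} [Fintype X] (f : X → ℝ) :
    mean f ^ 2 = mean (fun z => mean (fun z' => f z * f z')) := by
  have h : (fun z => mean (fun z' => f z * f z')) = fun z => f z * mean f :=
    funext fun z => mean_mul_left _ _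
  rw [h, mean_mul_right, sq]

theorem sec_card {V K : Type} [DecidableEq V] [DecidableEq K] (z : V → K) (S : Finset V) :
    (sec z S).card = S.card := by
  unfold sec
  refine Finset.card_image_of_injective _ fun i j h => ?_
  exact (Prod.ext_iff.1 h).1

theorem sec_eq_iff {V K : Type} [DecidableEq V] [DecidableEq K] (z z0 : V → K) (S : Finset V) :
    sec z S = sec z0 S ↔ ∀ i ∈ S, z i = z0 i := by
  constructor
  · intro h i hi
    have h1 : ((i, z i) : V × K) ∈ sec z0 S := by
      rw [← h]
      exact Finset.mem_image_of_mem _ hi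
    obtain ⟨j, _, hj⟩ := Finset.mem_image.1 h1
    have h2 := Prod.ext_iff.1 hj
    have h3 : j = i := h2.1
    have h4 : z0 j = z i := h2.2
    rw [← h4, h3]
  · intro h
    unfold sec
    refine Finset.image_congr fun i hi => ?_
    have := h i (Finset.mem_coe.1 hi)
    simp only [this]

end GrpAux

open GrpAux

theorem mean_mean_sq {Z Y : Type} [Fintype Z] [Fintype Y] (u : Z → ℝ) (hu : ∀ z, 0 ≤ u z)
    (g : Z → Y → ℝ) :
    mean (fun y => mean (fun z => u z * g z y) ^ 2) ≤
      mean (fun z => u z * Real.sqrt (mean (fun y => g z y ^ 2))) ^ 2 := by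
  have h1 : mean (fun y => mean (fun z => u z * g z y) ^ 2) =
      mean (fun z => mean (fun z' => u z * u z' * mean (fun y => g z y * g z' y))) := by
    have e1 : (fun y => mean (fun z => u z * g z y) ^ 2) = fun y =>
        mean (fun z => mean (fun z' => (u z * g z y) * (u z' * g z' y))) :=
      funext fun y => mean_sq _
    rw [e1, mean_swap]
    refine mean_congr fun z => ?_
    rw [mean_swap]
    refine mean_congr fun z' => ?_
    rw [← mean_mul_left]
    exact mean_congr fun y => by ring
  rw [h1, mean_sq]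
  refine mean_mono fun z => mean_mono fun z' => ?_
  have h2 : mean (fun y => g z y * g z' y) ≤
      Real.sqrt (mean (fun y => g z y ^ 2)) * Real.sqrt (mean (fun y => g z' y ^ 2)) := by
    rw [← Real.sqrt_mul (mean_nonneg fun y => sq_nonneg _)]
    exact Real.le_sqrt_of_sq_le (mean_mul_sq_le _ _)
  calc u z * u z' * mean (fun y => g z y * g z' y)
      ≤ u z * u z' * (Real.sqrt (mean (fun y => g z y ^ 2)) *
          Real.sqrt (mean (fun y => g z' y ^ 2))) :=
        mul_le_mul_of_nonneg_left h2 (mul_nonneg (hu z) (hu z'))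
    _ = u z * Real.sqrt (mean (fun y => g z y ^ 2)) *
          (u z' * Real.sqrt (mean (fun y => g z' y ^ 2))) := by ring

theorem group {V K : Type} [Fintype V] [DecidableEq V] [Fintype K] [DecidableEq K]
    (u : (V → K) → ℝ) (hu : ∀ z, 0 ≤ u z) (w : Finset (V × K) → ℝ) (S : Finset V) (U c : ℝ)
    (hU : mean u = U) (hc : ∀ z, massAt u S z ≤ c) :
    mean (fun z => u z * w (sec z S)) ^ 2 ≤
      c * U * ∑ A ∈ Finset.univ.filter (fun A : Finset (V × K) => A.card = S.card), w A ^ 2 := by
  obtain ⟨Q, hQ⟩ : ∃ Q : Finset (V × K) → ℝ, ∀ A, Q A =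
      mean (fun z : V → K => if sec z S = A then u z else 0) := ⟨_, fun _ => rfl⟩
  have hsec : ∀ z : V → K, sec z S ∈
      Finset.univ.filter (fun A : Finset (V × K) => A.card = S.card) := fun z =>
    Finset.mem_filter.2 ⟨Finset.mem_univ _, sec_card z S⟩
  have hQ0 : ∀ A, 0 ≤ Q A := by
    intro A
    rw [hQ]
    refine mean_nonneg fun z => ?_
    split_ifs
    · exact hu z
    · exact le_rfl
  have hsum1 : ∑ A ∈ Finset.univ.filter (fun A : Finset (V × K) => A.card = S.card), Q A = U := by
    rw [← hU]
    simp only [hQ]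
    rw [← mean_sum]
    refine mean_congr fun z => ?_
    rw [Finset.sum_ite_eq, if_pos (hsec z)]
  have hsum2 : mean (fun z => u z * w (sec z S)) =
      ∑ A ∈ Finset.univ.filter (fun A : Finset (V × K) => A.card = S.card), Q A * w A := by
    simp only [hQ]
    have e1 : ∀ A : Finset (V × K), mean (fun z : V → K => if sec z S = A then u z else 0) * w A =
        mean (fun z : V → K => if sec z S = A then u z * w A else 0) := by
      intro A
      rw [← mean_mul_right]
      refine mean_congr fun z => ?_
      split_ifs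
      · rfl
      · exact zero_mul _
    simp only [e1]
    rw [← mean_sum]
    refine mean_congr fun z => ?_
    rw [Finset.sum_ite_eq (s := Finset.univ.filter (fun A : Finset (V × K) => A.card = S.card))
      (a := sec z S) (b := fun A => u z * w A), if_pos (hsec z)]
  have hQc : ∀ A, Q A ^ 2 ≤ c * Q A := by
    intro A
    by_cases hA : ∃ z0 : V → K, sec z0 S = A
    · obtain ⟨z0, rfl⟩ := hA
      have e1 : Q (sec z0 S) = massAt u S z0 := by
        rw [hQ]
        unfold massAt
        refine mean_congr fun z => ?_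
        by_cases h : ∀ i ∈ S, z i = z0 i
        · rw [if_pos ((sec_eq_iff z z0 S).2 h), ind_eq_one h, one_mul]
        · rw [if_neg (fun h' => h ((sec_eq_iff z z0 S).1 h')), ind_eq_zero h, zero_mul]
      have e2 : Q (sec z0 S) ≤ c := by
        rw [e1]
        exact hc z0
      rw [sq]
      exact mul_le_mul_of_nonneg_right e2 (hQ0 _)
    · have e1 : Q A = 0 := by
        rw [hQ]
        have e2 : (fun z : V → K => if sec z S = A then u z else 0) = fun _ => 0 := by
          funext z
          exact if_neg fun h => hA ⟨z, h⟩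
        rw [e2]
        unfold mean
        simp
      rw [e1]
      simp
  rw [hsum2]
  refine (Finset.sum_mul_sq_le_sq_mul_sq _ _ _).trans ?_
  refine mul_le_mul_of_nonneg_right ?_ (Finset.sum_nonneg fun A _ => sq_nonneg _)
  refine (Finset.sum_le_sum fun A _ => hQc A).trans (le_of_eq ?_)
  rw [← Finset.mul_sum, hsum1]

end Pool.Agent.Lib.P325P
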