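import Pool.Agent.Lib.P325P.Defs
import Pool.Agent.Lib.P325P.Base
import Pool.Agent.Lib.P325P.Es

/-!
Module HypC (1.5h; black boxes Base, Es). The noise operator as a product kernel, and its second
moment.
PROOF. noise_eq: with q = card Ω, expand ∏ w, (ρ 1[y w = x w] + (1-ρ)/q) by Finset.prod_add over
subsets T: ∑_x f x ∏_(w ∈ T) ρ 1[y w = x w] ∏_(w ∉ T) (1-ρ)/q = ρ^|T| (1-ρ)^(|W|-|T|) cm T f y (the mean
over x of f (y on T, x off T): every labeling u with u = y on T arises from q^|T| labelings x). Then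
cm T f = ∑_(S ⊆ T) es S f (sum_es) and ∑_(T ⊇ S) ρ^|T| (1-ρ)^(|W|-|T|) = ρ^|S| (binomial theorem for
T \ S in univ \ S: Finset.sum_pow_mul_eq_add_pow / prod_add with ρ + (1 - ρ) = 1).
mean_noise_sq: es S (noise ρ f) = ρ^|S| es S f (es_sum, es_es), then parseval.
-/

open scoped BigOperators

namespace Pool.Agent.Lib.P325P

variable {W Ω : Type} [Fintype W] [DecidableEq W] [Fintype Ω] [Nonempty Ω]

/-- The kernel of the noise operator on one block. -/
noncomputable def kap {Ω : Type} [Fintype Ω] (ρ : ℝ) (a b : Ω) : ℝ := by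
  classical
  exact (if a = b then ρ else 0) + (1 - ρ) / (Fintype.card Ω : ℝ)

namespace HypCAux

open Classical in
/-- the number of labelings that agree with `y` on `T` -/
theorem sum_ind (T : Finset W) (y : W → Ω) :
    (Fintype.card Ω : ℝ) ^ T.card * ∑ x : W → Ω, ∏ w ∈ T, (if y w = x w then (1 : ℝ) else 0) =
      (Fintype.card (W → Ω) : ℝ) := by
  have h1 : ∀ x : W → Ω, ∏ w ∈ T, (if y w = x w then (1 : ℝ) else 0) =
      ∏ w, (if w ∈ T then (if y w = x w then (1 : ℝ) else 0) else 1) := by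
    intro x
    rw [Finset.prod_ite_mem, Finset.univ_inter]
  have h2 : ∑ x : W → Ω, ∏ w, (if w ∈ T then (if y w = x w then (1 : ℝ) else 0) else 1) =
      ∏ w, ∑ a : Ω, (if w ∈ T then (if y w = a then (1 : ℝ) else 0) else 1) := by
    rw [Finset.prod_univ_sum]
    rw [Fintype.piFinset_univ]
  rw [Finset.sum_congr rfl fun x _ => h1 x, h2]
  have h3 : ∀ w : W, (∑ a : Ω, (if w ∈ T then (if y w = a then (1 : ℝ) else 0) else 1)) =
      if w ∈ T then (1 : ℝ) else (Fintype.card Ω : ℝ) := by
    intro w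
    by_cases hw : w ∈ T
    · simp [hw]
    · simp [hw]
  rw [Finset.prod_congr rfl fun w _ => h3 w]
  have h4 : (Fintype.card Ω : ℝ) ^ T.card =
      ∏ w, (if w ∈ T then (Fintype.card Ω : ℝ) else 1) := by
    rw [Finset.prod_ite, Finset.prod_const_one, mul_one, Finset.prod_const]
    congr 2
    ext w
    simp
  rw [h4, ← Finset.prod_mul_distrib, Fintype.card_fun, Nat.cast_pow, ← Finset.card_univ (α := W),
    ← Finset.prod_const]
  refine Finset.prod_congr rfl fun w _ => ?_
  by_cases hw : w ∈ T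
  · simp [hw]
  · simp [hw]

open Classical in
/-- the sum over the labelings that agree with `y` on `T` -/
theorem sum_agree (T : Finset W) (f : (W → Ω) → ℝ) (y : W → Ω) :
    (Fintype.card Ω : ℝ) ^ T.card *
      ∑ x : W → Ω, (∏ w ∈ T, (if y w = x w then (1 : ℝ) else 0)) * f x =
      (Fintype.card (W → Ω) : ℝ) * cm T f y := by
  have h1 := mean_mix T (fun u : W → Ω => (∏ w ∈ T, (if y w = u w then (1 : ℝ) else 0)) * f u)
  have h2 : ∀ x : W → Ω, mean (fun x' : W → Ω =>
      (fun u : W → Ω => (∏ w ∈ T, (if y w = u w then (1 : ℝ) else 0)) * f u)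
        (fun w => if w ∈ T then x w else x' w)) =
      (∏ w ∈ T, (if y w = x w then (1 : ℝ) else 0)) * cm T f y := by
    intro x
    have h3 : ∀ x' : W → Ω, (∏ w ∈ T, (if y w = (if w ∈ T then x w else x' w) then (1 : ℝ) else 0)) =
        ∏ w ∈ T, (if y w = x w then (1 : ℝ) else 0) := by
      intro x'
      refine Finset.prod_congr rfl fun w hw => ?_
      rw [if_pos hw]
    simp only [h3]
    rw [mean_mul_left]
    by_cases h4 : ∀ w ∈ T, y w = x w
    · congr 1
      unfold cm
      refine mean_congr fun x' => ?_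
      congr 1
      funext w
      by_cases hw : w ∈ T
      · rw [if_pos hw, if_pos hw, h4 w hw]
      · rw [if_neg hw, if_neg hw]
    · push Not at h4
      obtain ⟨w, hw, hne⟩ := h4
      rw [Finset.prod_eq_zero hw (if_neg hne), zero_mul, zero_mul]
  rw [mean_congr h2, mean_mul_right] at h1
  have h5 := sum_ind T y
  have hq : (Fintype.card (W → Ω) : ℝ) ≠ 0 := Nat.cast_ne_zero.2 Fintype.card_ne_zero
  have h6 : ∑ x : W → Ω, (∏ w ∈ T, (if y w = x w then (1 : ℝ) else 0)) * f x =
      (∑ x : W → Ω, ∏ w ∈ T, (if y w = x w then (1 : ℝ) else 0)) * cm T f y := by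
    unfold mean at h1
    field_simp at h1
    rw [← h1]
  rw [h6, ← mul_assoc, h5]

/-- the binomial theorem over the subsets containing `S` -/
theorem sum_super (ρ : ℝ) (S : Finset W) :
    ∑ T : Finset W, (if S ⊆ T then ρ ^ T.card * (1 - ρ) ^ (Fintype.card W - T.card) else 0) =
      ρ ^ S.card := by
  have h1 := Finset.prod_add (fun _ : W => ρ) (fun w : W => if w ∈ S then 0 else 1 - ρ)
    Finset.univ
  have h2 : ∏ w : W, (ρ + (if w ∈ S then 0 else 1 - ρ)) = ρ ^ S.card := by
    have : ∀ w : W, (ρ + (if w ∈ S then 0 else 1 - ρ)) = if w ∈ S then ρ else 1 := by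
      intro w
      by_cases hw : w ∈ S
      · simp [hw]
      · simp [hw]
    rw [Finset.prod_congr rfl fun w _ => this w, Finset.prod_ite, Finset.prod_const_one, mul_one,
      Finset.prod_const]
    congr 2
    ext w
    simp
  rw [h2, Finset.powerset_univ] at h1
  rw [h1]
  refine Finset.sum_congr rfl fun T _ => ?_
  rw [Finset.prod_const]
  by_cases hST : S ⊆ T
  · rw [if_pos hST]
    congr 1
    have : ∀ w ∈ Finset.univ \ T, (if w ∈ S then (0 : ℝ) else 1 - ρ) = 1 - ρ := by
      intro w hw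
      rw [if_neg]
      intro hwS
      exact (Finset.mem_sdiff.1 hw).2 (hST hwS)
    rw [Finset.prod_congr rfl this, Finset.prod_const, Finset.card_sdiff_of_subset
      (Finset.subset_univ T), Finset.card_univ]
  · rw [if_neg hST]
    obtain ⟨w, hwS, hwT⟩ := Finset.not_subset.1 hST
    rw [Finset.prod_eq_zero (i := w) (by simp [hwT]) (by simp [hwS]), mul_zero]

/-- the noise operator as an average of conditional means -/
theorem noise_cm (ρ : ℝ) (f : (W → Ω) → ℝ) (y : W → Ω) :
    noise ρ f y = ∑ T : Finset W, ρ ^ T.card * (1 - ρ) ^ (Fintype.card W - T.card) * cm T f y := by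
  unfold noise
  have h1 : ∀ T : Finset W, cm T f y = ∑ S : Finset W, if S ⊆ T then es S f y else 0 := by
    intro T
    rw [← sum_es T f y, ← Finset.sum_filter]
    refine Finset.sum_congr ?_ fun _ _ => rfl
    ext S
    simp
  have h2 : ∑ T : Finset W, ρ ^ T.card * (1 - ρ) ^ (Fintype.card W - T.card) * cm T f y =
      ∑ S : Finset W, ∑ T : Finset W, ρ ^ T.card * (1 - ρ) ^ (Fintype.card W - T.card) *
        (if S ⊆ T then es S f y else 0) := by
    rw [Finset.sum_comm]
    refine Finset.sum_congr rfl fun T _ => ?_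
    rw [h1 T, Finset.mul_sum]
  rw [h2]
  refine Finset.sum_congr rfl fun S _ => ?_
  rw [← sum_super ρ S, Finset.sum_mul]
  refine Finset.sum_congr rfl fun T _ => ?_
  by_cases hST : S ⊆ T
  · rw [if_pos hST, if_pos hST]
  · rw [if_neg hST, if_neg hST, zero_mul, mul_zero]

end HypCAux

open HypCAux in
theorem noise_eq (ρ : ℝ) (f : (W → Ω) → ℝ) (y : W → Ω) :
    noise ρ f y = ∑ x : W → Ω, (∏ w, kap ρ (y w) (x w)) * f x := by
  classical
  have hq : (Fintype.card Ω : ℝ) ≠ 0 := Nat.cast_ne_zero.2 Fintype.card_ne_zero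
  have h1 : ∀ x : W → Ω, ∏ w, kap ρ (y w) (x w) = ∑ T : Finset W,
      (ρ ^ T.card * ((1 - ρ) / (Fintype.card Ω : ℝ)) ^ (Fintype.card W - T.card)) *
        ∏ w ∈ T, (if y w = x w then (1 : ℝ) else 0) := by
    intro x
    have h2 : ∀ w, kap ρ (y w) (x w) =
        (if y w = x w then ρ else 0) + (1 - ρ) / (Fintype.card Ω : ℝ) := by
      intro w
      unfold kap
      congr
    rw [Finset.prod_congr rfl fun w _ => h2 w, Finset.prod_add, Finset.powerset_univ]
    refine Finset.sum_congr rfl fun T _ => ?_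
    rw [Finset.prod_const, Finset.card_sdiff_of_subset (Finset.subset_univ T), Finset.card_univ]
    have h3 : ∏ w ∈ T, (if y w = x w then ρ else 0) =
        ρ ^ T.card * ∏ w ∈ T, (if y w = x w then (1 : ℝ) else 0) := by
      rw [← Finset.prod_const, ← Finset.prod_mul_distrib]
      refine Finset.prod_congr rfl fun w _ => ?_
      by_cases hw : y w = x w
      · simp [hw]
      · simp [hw]
    rw [h3]
    ring
  have hR : ∑ x : W → Ω, (∏ w, kap ρ (y w) (x w)) * f x = ∑ T : Finset W, ∑ x : W → Ω,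
      (ρ ^ T.card * ((1 - ρ) / (Fintype.card Ω : ℝ)) ^ (Fintype.card W - T.card)) *
        (∏ w ∈ T, (if y w = x w then (1 : ℝ) else 0)) * f x := by
    rw [Finset.sum_comm]
    refine Finset.sum_congr rfl fun x _ => ?_
    rw [h1 x, Finset.sum_mul]
  rw [noise_cm, hR]
  refine Finset.sum_congr rfl fun T _ => ?_
  have h4 : ∀ x : W → Ω, (ρ ^ T.card * ((1 - ρ) / (Fintype.card Ω : ℝ)) ^ (Fintype.card W - T.card)) *
        (∏ w ∈ T, (if y w = x w then (1 : ℝ) else 0)) * f x =
      (ρ ^ T.card * ((1 - ρ) / (Fintype.card Ω : ℝ)) ^ (Fintype.card W - T.card)) *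
        ((∏ w ∈ T, (if y w = x w then (1 : ℝ) else 0)) * f x) := fun x => by ring
  rw [Finset.sum_congr rfl fun x _ => h4 x, ← Finset.mul_sum]
  have h5 := sum_agree T f y
  have hc : (Fintype.card (W → Ω) : ℝ) =
      (Fintype.card Ω : ℝ) ^ T.card * (Fintype.card Ω : ℝ) ^ (Fintype.card W - T.card) := by
    rw [Fintype.card_fun, Nat.cast_pow, ← pow_add]
    congr 1
    have := Finset.card_le_univ T
    omega
  have hqT : (Fintype.card Ω : ℝ) ^ T.card ≠ 0 := pow_ne_zero _ hq
  have hqW : (Fintype.card Ω : ℝ) ^ (Fintype.card W - T.card) ≠ 0 := pow_ne_zero _ hq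
  have h6 : ∑ x : W → Ω, (∏ w ∈ T, (if y w = x w then (1 : ℝ) else 0)) * f x =
      (Fintype.card Ω : ℝ) ^ (Fintype.card W - T.card) * cm T f y := by
    rw [hc, mul_assoc] at h5
    exact mul_left_cancel₀ hqT h5
  rw [h6, div_pow]
  field_simp

theorem mean_noise_sq (ρ : ℝ) (f : (W → Ω) → ℝ) :
    mean (fun y => noise ρ f y ^ 2) =
      ∑ S : Finset W, ρ ^ (2 * S.card) * mean (fun y => es S f y ^ 2) := by
  rw [parseval]
  refine Finset.sum_congr rfl fun S _ => ?_
  have h1 : ∀ y, es S (noise ρ f) y = ρ ^ S.card * es S f y := by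
    intro y
    have h2 : noise ρ f = fun x => ∑ T ∈ (Finset.univ : Finset (Finset W)),
        ρ ^ T.card * (fun T => es T f) T x := rfl
    rw [h2, es_sum]
    rw [Finset.sum_eq_single S]
    · rw [es_es, if_pos rfl]
    · intro T _ hT
      rw [es_es, if_neg (Ne.symm hT), mul_zero]
    · intro h; exact absurd (Finset.mem_univ _) h
  rw [← mean_mul_left]
  refine mean_congr fun y => ?_
  rw [h1 y, mul_pow, ← pow_mul, mul_comm S.card 2]

end Pool.Agent.Lib.P325P
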