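import Pool.Agent.Lib.P325P.Defs
import Pool.Agent.Lib.P325P.Base

/-!
Module HypA (1.5h; black box Base). Hypercontractivity for nonnegative functions on one block.
PROOF. If mean f = 0 then f = 0 and both sides are 0. Otherwise scale to mean f = 1 (both sides are
homogeneous of degree 2). Then f ≤ q := card Ω, and the left side is 1 + ρ^2 Var with
Var = mean ((f - 1)^2). Pointwise for x in [0,q]: x^p ≥ 1 + p (x - 1) + c (x - 1)^2, c = p (p - 1)/(2 q):
the difference vanishes to second order at x = 1 and has second derivative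
p (p - 1) (x^(p-2) - 1/q) ≥ 0 on (0, q] (x^(p-2) ≥ q^(p-2) ≥ 1/q as 1 ≤ p ≤ 2, q ≥ 1). So
mean f^p ≥ 1 + c Var, and (1 + c Var)^(2/p) ≥ 1 + (2/p) c Var = 1 + (p-1) Var / q (Bernoulli,
one_add_mul_self_le_rpow_one_add, 2/p ≥ 1) ≥ 1 + ρ^2 Var.
-/

open scoped BigOperators

namespace Pool.Agent.Lib.P325P

/-- The pointwise inequality. -/
theorem hypA_pt (p q x : ℝ) (hp1 : 1 ≤ p) (hp2 : p ≤ 2) (hq : 1 ≤ q) (hx0 : 0 ≤ x) (hxq : x ≤ q) :
    1 + p * (x - 1) + p * (p - 1) / (2 * q) * (x - 1) ^ 2 ≤ x ^ p := by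
  have hp0 : 0 < p := by linarith
  have hq0 : 0 < q := by linarith
  set g : ℝ → ℝ := fun y => y ^ p - 1 - p * (y - 1) - p * (p - 1) / (2 * q) * (y - 1) ^ 2 with hg
  have hcont : Continuous g := by
    have h1 : Continuous fun y : ℝ => y ^ p := by
      rw [continuous_iff_continuousAt]
      intro y
      exact Real.continuousAt_rpow_const y p (Or.inr hp0.le)
    have h2 : Continuous fun y : ℝ => p * (y - 1) := by fun_prop
    have h3 : Continuous fun y : ℝ => p * (p - 1) / (2 * q) * (y - 1) ^ 2 := by fun_prop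
    exact ((h1.sub continuous_const).sub h2).sub h3
  have hder : ∀ y : ℝ, 0 < y → HasDerivAt g
      (p * y ^ (p - 1) - p - p * (p - 1) / q * (y - 1)) y := by
    intro y hy
    have h1 : HasDerivAt (fun y : ℝ => y ^ p) (p * y ^ (p - 1)) y :=
      Real.hasDerivAt_rpow_const (Or.inl hy.ne')
    have h2 : HasDerivAt (fun y : ℝ => p * (y - 1)) (p * 1) y :=
      ((hasDerivAt_id y).sub_const 1).const_mul p
    have h3 : HasDerivAt (fun y : ℝ => p * (p - 1) / (2 * q) * (y - 1) ^ 2)
        (p * (p - 1) / (2 * q) * (2 * (y - 1))) y := by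
      have h4 : HasDerivAt (fun y : ℝ => (y - 1) ^ 2) (2 * (y - 1)) y := by
        have := ((hasDerivAt_id' y).sub_const 1).fun_pow 2
        simpa using this
      exact h4.const_mul _
    have h5 := ((h1.sub_const 1).sub h2).sub h3
    have h6 : p * (p - 1) / q * (y - 1) = p * (p - 1) / (2 * q) * (2 * (y - 1)) := by
      field_simp
    have h7 : p * y ^ (p - 1) - p - p * (p - 1) / q * (y - 1)
        = p * y ^ (p - 1) - p * 1 - p * (p - 1) / (2 * q) * (2 * (y - 1)) := by
      rw [h6, mul_one]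
    rw [h7]
    exact h5
  have hg1 : g 1 = 0 := by simp [hg]
  have hr0 : 0 ≤ p - 1 := by linarith
  have hr1 : p - 1 ≤ 1 := by linarith
  -- derivative signs
  have hlow : ∀ y : ℝ, 0 < y → y ≤ 1 → p * y ^ (p - 1) - p - p * (p - 1) / q * (y - 1) ≤ 0 := by
    intro y hy hy1
    have hb : y ^ (p - 1) ≤ 1 + (p - 1) * (y - 1) := by
      have := rpow_one_add_le_one_add_mul_self (s := y - 1) (by linarith) hr0 hr1
      simpa using this
    have h1 : (p - 1) / q ≤ p - 1 := by
      rw [div_le_iff₀ hq0]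
      nlinarith
    have h2 : (p - 1) * (y - 1) ≤ (p - 1) / q * (y - 1) := by nlinarith
    have h3 : y ^ (p - 1) - 1 - (p - 1) / q * (y - 1) ≤ 0 := by linarith
    have h4 : p * y ^ (p - 1) - p - p * (p - 1) / q * (y - 1)
        = p * (y ^ (p - 1) - 1 - (p - 1) / q * (y - 1)) := by ring
    rw [h4]
    exact mul_nonpos_of_nonneg_of_nonpos hp0.le h3
  have hhigh : ∀ y : ℝ, 1 ≤ y → y ≤ q → 0 ≤ p * y ^ (p - 1) - p - p * (p - 1) / q * (y - 1) := by
    intro y hy1 hyq
    have hy : 0 < y := by linarith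
    have hb : (y⁻¹) ^ (p - 1) ≤ 1 + (p - 1) * (y⁻¹ - 1) := by
      have hyi : 0 < y⁻¹ := inv_pos.2 hy
      have := rpow_one_add_le_one_add_mul_self (s := y⁻¹ - 1) (by linarith) hr0 hr1
      simpa using this
    rw [Real.inv_rpow hy.le] at hb
    have hyp : 0 < y ^ (p - 1) := Real.rpow_pos_of_pos hy _
    have h0 : 0 ≤ 1 - y⁻¹ := by
      have : y⁻¹ ≤ 1 := inv_le_one_of_one_le₀ hy1
      linarith
    -- y^r ≥ 1 + r (1 - 1/y)
    have h1 : 1 + (p - 1) * (1 - y⁻¹) ≤ y ^ (p - 1) := by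
      set t := (p - 1) * (1 - y⁻¹) with ht
      have ht0 : 0 ≤ t := mul_nonneg hr0 h0
      have hb' : (y ^ (p - 1))⁻¹ ≤ 1 - t := by
        have : 1 + (p - 1) * (y⁻¹ - 1) = 1 - t := by rw [ht]; ring
        linarith
      have h6 : 1 ≤ (1 - t) * y ^ (p - 1) := by
        have := mul_le_mul_of_nonneg_right hb' hyp.le
        rwa [inv_mul_cancel₀ hyp.ne'] at this
      have h7 : 0 < 1 - t := by
        have : 0 < (y ^ (p - 1))⁻¹ := inv_pos.2 hyp
        linarith
      nlinarith [mul_nonneg ht0 ht0]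
    have h2 : (p - 1) / q * (y - 1) ≤ (p - 1) * (1 - y⁻¹) := by
      have h8 : (p - 1) * (1 - y⁻¹) = (p - 1) / y * (y - 1) := by
        field_simp
      rw [h8]
      apply mul_le_mul_of_nonneg_right _ (by linarith)
      exact div_le_div_of_nonneg_left hr0 hy hyq
    have h3 : 0 ≤ y ^ (p - 1) - 1 - (p - 1) / q * (y - 1) := by linarith
    have h4 : p * y ^ (p - 1) - p - p * (p - 1) / q * (y - 1)
        = p * (y ^ (p - 1) - 1 - (p - 1) / q * (y - 1)) := by ring
    rw [h4]
    exact mul_nonneg hp0.le h3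
  have hgx : 0 ≤ g x := by
    rcases le_total x 1 with hx1 | hx1
    · have hanti : AntitoneOn g (Set.Icc 0 1) := by
        apply antitoneOn_of_deriv_nonpos (convex_Icc 0 1) hcont.continuousOn
        · intro y hy
          rw [interior_Icc] at hy
          exact (hder y hy.1).differentiableAt.differentiableWithinAt
        · intro y hy
          rw [interior_Icc] at hy
          rw [(hder y hy.1).deriv]
          exact hlow y hy.1 hy.2.le
      have := hanti (Set.mem_Icc.2 ⟨hx0, hx1⟩) (Set.mem_Icc.2 ⟨zero_le_one, le_refl 1⟩) hx1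
      rw [hg1] at this
      exact this
    · have hmono : MonotoneOn g (Set.Icc 1 q) := by
        apply monotoneOn_of_deriv_nonneg (convex_Icc 1 q) hcont.continuousOn
        · intro y hy
          rw [interior_Icc] at hy
          exact (hder y (by linarith [hy.1])).differentiableAt.differentiableWithinAt
        · intro y hy
          rw [interior_Icc] at hy
          rw [(hder y (by linarith [hy.1])).deriv]
          exact hhigh y hy.1.le hy.2.le
      have := hmono (Set.mem_Icc.2 ⟨le_refl 1, hq⟩) (Set.mem_Icc.2 ⟨hx1, hxq⟩) hx1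
      rw [hg1] at this
      exact this
  have : g x = x ^ p - 1 - p * (x - 1) - p * (p - 1) / (2 * q) * (x - 1) ^ 2 := rfl
  linarith

/-- The case of mean one. -/
theorem hypA_one {Ω : Type} [Fintype Ω] [Nonempty Ω] (p ρ : ℝ) (hp1 : 1 ≤ p) (hp2 : p ≤ 2)
    (hρ : ρ ^ 2 ≤ (p - 1) / (Fintype.card Ω : ℝ)) (f : Ω → ℝ)
    (hf : ∀ a, 0 ≤ f a) (hm : mean f = 1) :
    mean (fun a => (ρ * f a + (1 - ρ)) ^ 2) ≤ (mean (fun a => f a ^ p)) ^ (2 / p) := by
  have hp0 : 0 < p := by linarith
  set q : ℝ := (Fintype.card Ω : ℝ) with hqdef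
  have hcard : 0 < Fintype.card Ω := Fintype.card_pos
  have hq1 : 1 ≤ q := by
    rw [hqdef]; exact_mod_cast hcard
  have hq0 : 0 < q := by linarith
  have hsum : ∑ a, f a = q := by
    unfold mean at hm
    rw [div_eq_one_iff_eq (by rw [← hqdef]; exact hq0.ne')] at hm
    exact hm
  have hle : ∀ a, f a ≤ q := by
    intro a
    rw [← hsum]
    exact Finset.single_le_sum (fun b _ => hf b) (Finset.mem_univ a)
  set V : ℝ := mean (fun a => (f a - 1) ^ 2) with hV
  have hV0 : 0 ≤ V := mean_nonneg fun a => sq_nonneg _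
  have hm0 : mean (fun a => f a - 1) = 0 := by
    rw [mean_sub f (fun _ => 1), mean_const, hm, sub_self]
  have hL : mean (fun a => (ρ * f a + (1 - ρ)) ^ 2) = 1 + ρ ^ 2 * V := by
    have h1 : ∀ a, (ρ * f a + (1 - ρ)) ^ 2
        = (1 + 2 * ρ * (f a - 1)) + ρ ^ 2 * (f a - 1) ^ 2 := by
      intro a; ring
    rw [mean_congr h1, mean_add (fun a => 1 + 2 * ρ * (f a - 1)) (fun a => ρ ^ 2 * (f a - 1) ^ 2),
      mean_add (fun _ => (1 : ℝ)) (fun a => 2 * ρ * (f a - 1)), mean_const,
      mean_mul_left (2 * ρ) (fun a => f a - 1), hm0, mean_mul_left (ρ ^ 2)]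
    rw [hV]
    ring
  set c : ℝ := p * (p - 1) / (2 * q) with hc
  have hc0 : 0 ≤ c := by
    rw [hc]
    apply div_nonneg (mul_nonneg hp0.le (by linarith)) (by linarith)
  have hR : 1 + c * V ≤ mean (fun a => f a ^ p) := by
    have h1 : mean (fun a => (1 + p * (f a - 1)) + c * (f a - 1) ^ 2) ≤ mean (fun a => f a ^ p) := by
      apply mean_mono
      intro a
      exact hypA_pt p q (f a) hp1 hp2 hq1 (hf a) (hle a)
    have h2 : mean (fun a => (1 + p * (f a - 1)) + c * (f a - 1) ^ 2) = 1 + c * V := by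
      rw [mean_add (fun a => 1 + p * (f a - 1)) (fun a => c * (f a - 1) ^ 2),
        mean_add (fun _ => (1 : ℝ)) (fun a => p * (f a - 1)), mean_const,
        mean_mul_left p (fun a => f a - 1), hm0, mean_mul_left c]
      rw [hV]
      ring
    rw [← h2]; exact h1
  have h2p : 1 ≤ 2 / p := by
    rw [le_div_iff₀ hp0]; linarith
  have hcV : 0 ≤ c * V := mul_nonneg hc0 hV0
  calc mean (fun a => (ρ * f a + (1 - ρ)) ^ 2) = 1 + ρ ^ 2 * V := hL
    _ ≤ 1 + (2 / p) * (c * V) := by
        have h3 : (2 / p) * (c * V) = (p - 1) / q * V := by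
          rw [hc]; field_simp
        rw [h3]
        have := mul_le_mul_of_nonneg_right hρ hV0
        linarith
    _ ≤ (1 + c * V) ^ (2 / p) :=
        one_add_mul_self_le_rpow_one_add (by linarith) h2p
    _ ≤ (mean (fun a => f a ^ p)) ^ (2 / p) :=
        Real.rpow_le_rpow (by linarith) hR (by linarith)

theorem hypA {Ω : Type} [Fintype Ω] [Nonempty Ω] (p ρ : ℝ) (hp1 : 1 ≤ p) (hp2 : p ≤ 2)
    (hρ0 : 0 ≤ ρ) (hρ : ρ ^ 2 ≤ (p - 1) / (Fintype.card Ω : ℝ)) (f : Ω → ℝ)
    (hf : ∀ a, 0 ≤ f a) :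
    mean (fun a => (ρ * f a + (1 - ρ) * mean f) ^ 2) ≤
      (mean (fun a => f a ^ p)) ^ (2 / p) := by
  have hp0 : 0 < p := by linarith
  have hm0 : 0 ≤ mean f := mean_nonneg hf
  rcases hm0.eq_or_lt with hm | hm
  · have hsum : ∑ a, f a = 0 := by
      have h1 := hm.symm
      unfold mean at h1
      have hc : (Fintype.card Ω : ℝ) ≠ 0 := Nat.cast_ne_zero.2 Fintype.card_ne_zero
      rcases div_eq_zero_iff.1 h1 with h | h
      · exact h
      · exact absurd h hc
    have hz : ∀ a, f a = 0 := by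
      intro a
      exact (Finset.sum_eq_zero_iff_of_nonneg (fun b _ => hf b)).1 hsum a (Finset.mem_univ a)
    have h2 : ∀ a, (ρ * f a + (1 - ρ) * mean f) ^ 2 = 0 := by
      intro a
      rw [hz a, ← hm]; ring
    rw [mean_congr h2, mean_const]
    apply Real.rpow_nonneg
    exact mean_nonneg fun a => Real.rpow_nonneg (hf a) _
  · set m := mean f with hmdef
    set F : Ω → ℝ := fun a => f a / m with hF
    have hF0 : ∀ a, 0 ≤ F a := fun a => div_nonneg (hf a) hm.le
    have hFm : mean F = 1 := by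
      have h1 : ∀ a, F a = m⁻¹ * f a := by
        intro a; rw [hF]; field_simp
      rw [mean_congr h1, mean_mul_left, ← hmdef, inv_mul_cancel₀ hm.ne']
    have key := hypA_one p ρ hp1 hp2 hρ F hF0 hFm
    have h1 : ∀ a, (ρ * f a + (1 - ρ) * m) ^ 2 = m ^ 2 * (ρ * F a + (1 - ρ)) ^ 2 := by
      intro a
      rw [hF]
      field_simp
    have h2 : ∀ a, f a ^ p = m ^ p * F a ^ p := by
      intro a
      rw [← Real.mul_rpow hm.le (hF0 a)]
      congr 1
      rw [hF]; field_simp
    rw [mean_congr h1, mean_mul_left, mean_congr h2, mean_mul_left,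
      Real.mul_rpow (Real.rpow_nonneg hm.le _) (mean_nonneg fun a => Real.rpow_nonneg (hF0 a) _),
      ← Real.rpow_mul hm.le]
    have h3 : m ^ (p * (2 / p)) = m ^ 2 := by
      have : p * (2 / p) = (2 : ℕ) := by
        push_cast; field_simp
      rw [this, Real.rpow_natCast]
    rw [h3]
    exact mul_le_mul_of_nonneg_left key (sq_nonneg m)

end Pool.Agent.Lib.P325P
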