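import Pool.Agent.Lib.P325P.Defs
import Pool.Agent.Lib.P325P.Base

/-!
Tensorisation of hypercontractive inequalities for nonnegative kernels, from Minkowski's inequality
for finite means.
-/

open scoped BigOperators

namespace Pool.Agent.Lib.P325P

/-- The kernel operator of `k` is bounded from `L^p` to `L^2` on nonnegative functions. -/
def HC {X : Type} [Fintype X] (p : ℝ) (k : X → X → ℝ) : Prop :=
  ∀ f : X → ℝ, (∀ x, 0 ≤ f x) →
    mean (fun x => (∑ x', k x x' * f x') ^ 2) ≤ (mean (fun x => f x ^ p)) ^ (2 / p)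

private theorem minkSum {X Y : Type} [Fintype X] (s : ℝ) (hs : 1 ≤ s) (G : X → Y → ℝ)
    (hG : ∀ x y, 0 ≤ G x y) (t : Finset Y) :
    (∑ x, (∑ y ∈ t, G x y) ^ s) ^ (1 / s) ≤ ∑ y ∈ t, (∑ x, G x y ^ s) ^ (1 / s) := by
  classical
  have hs0 : 0 < s := by linarith
  induction t using Finset.induction_on with
  | empty =>
    simp only [Finset.sum_empty]
    rw [Real.zero_rpow hs0.ne']
    simp only [Finset.sum_const_zero]
    rw [Real.zero_rpow (by positivity)]
  | insert a t ha ih =>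
    rw [Finset.sum_insert ha]
    have h1 : (∑ x, (∑ y ∈ insert a t, G x y) ^ s) = ∑ x, (G x a + ∑ y ∈ t, G x y) ^ s := by
      refine Finset.sum_congr rfl fun x _ => ?_
      rw [Finset.sum_insert ha]
    rw [h1]
    refine le_trans (Real.Lp_add_le_of_nonneg Finset.univ hs (fun x _ => hG x a)
      (fun x _ => Finset.sum_nonneg fun y _ => hG x y)) ?_
    linarith

theorem mink {X Y : Type} [Fintype X] [Fintype Y] (s : ℝ) (hs : 1 ≤ s) (G : X → Y → ℝ)
    (hG : ∀ x y, 0 ≤ G x y) :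
    mean (fun x => (mean (fun y => G x y)) ^ s) ≤
      (mean (fun y => (mean (fun x => G x y ^ s)) ^ (1 / s))) ^ s := by
  have hs0 : 0 < s := by linarith
  have h := minkSum s hs G hG Finset.univ
  unfold mean
  set N : ℝ := (Fintype.card X : ℝ) with hN
  set M : ℝ := (Fintype.card Y : ℝ) with hM
  have hN0 : 0 ≤ N := Nat.cast_nonneg _
  have hM0 : 0 ≤ M := Nat.cast_nonneg _
  have hS0 : ∀ x, 0 ≤ ∑ y, G x y := fun x => Finset.sum_nonneg fun y _ => hG x y
  have hT0 : ∀ y, 0 ≤ ∑ x, G x y ^ s := fun y =>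
    Finset.sum_nonneg fun x _ => Real.rpow_nonneg (hG x y) _
  have hA0 : 0 ≤ ∑ x, (∑ y, G x y) ^ s := Finset.sum_nonneg fun x _ => Real.rpow_nonneg (hS0 x) _
  have hB0 : 0 ≤ ∑ y, (∑ x, G x y ^ s) ^ (1 / s) :=
    Finset.sum_nonneg fun y _ => Real.rpow_nonneg (hT0 y) _
  have hl : (∑ x, ((∑ y, G x y) / M) ^ s) / N = (∑ x, (∑ y, G x y) ^ s) / (M ^ s * N) := by
    rw [← div_div]
    have e0 : ∀ x, ((∑ y, G x y) / M) ^ s = (∑ y, G x y) ^ s / M ^ s := fun x =>
      Real.div_rpow (hS0 x) hM0 s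
    simp only [e0]
    rw [← Finset.sum_div]
  have hr : ((∑ y, ((∑ x, G x y ^ s) / N) ^ (1 / s)) / M) ^ s =
      (∑ y, (∑ x, G x y ^ s) ^ (1 / s)) ^ s / (M ^ s * N) := by
    have e1 : (∑ y, ((∑ x, G x y ^ s) / N) ^ (1 / s)) =
        (∑ y, (∑ x, G x y ^ s) ^ (1 / s)) / N ^ (1 / s) := by
      rw [Finset.sum_div]
      refine Finset.sum_congr rfl fun y _ => ?_
      rw [Real.div_rpow (hT0 y) hN0]
    rw [e1, div_div, Real.div_rpow hB0 (mul_nonneg (Real.rpow_nonneg hN0 _) hM0),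
      Real.mul_rpow (Real.rpow_nonneg hN0 _) hM0, ← Real.rpow_mul hN0, one_div_mul_cancel hs0.ne',
      Real.rpow_one, mul_comm N]
  rw [hl, hr]
  refine div_le_div_of_nonneg_right ?_ (mul_nonneg (Real.rpow_nonneg hM0 _) hN0)
  have h2 := Real.rpow_le_rpow (Real.rpow_nonneg hA0 _) h hs0.le
  rwa [← Real.rpow_mul hA0, one_div_mul_cancel hs0.ne', Real.rpow_one] at h2

theorem hypB {X Y : Type} [Fintype X] [Fintype Y] (p : ℝ) (hp1 : 1 ≤ p) (hp2 : p ≤ 2)
    (k1 : X → X → ℝ) (k2 : Y → Y → ℝ) (h1 : ∀ x x', 0 ≤ k1 x x') (h2 : ∀ y y', 0 ≤ k2 y y')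
    (H1 : HC p k1) (H2 : HC p k2) :
    HC p (fun a b : X × Y => k1 a.1 b.1 * k2 a.2 b.2) := by
  intro f hf
  have hp0 : 0 < p := by linarith
  have hs : 1 ≤ 2 / p := by rw [le_div_iff₀ hp0]; linarith
  have hs0 : 0 < 2 / p := by positivity
  set g : X → Y → ℝ := fun x y => ∑ x', k1 x x' * f (x', y) with hg
  have hg0 : ∀ x y, 0 ≤ g x y := fun x y =>
    Finset.sum_nonneg fun x' _ => mul_nonneg (h1 x x') (hf _)
  have e1 : ∀ x y, (∑ b : X × Y, k1 x b.1 * k2 y b.2 * f b) = ∑ y', k2 y y' * g x y' := by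
    intro x y
    rw [Fintype.sum_prod_type, Finset.sum_comm]
    refine Finset.sum_congr rfl fun y' _ => ?_
    rw [hg, Finset.mul_sum]
    refine Finset.sum_congr rfl fun x' _ => ?_
    ring
  have s1 : mean (fun a : X × Y => (∑ b : X × Y, k1 a.1 b.1 * k2 a.2 b.2 * f b) ^ 2) ≤
      mean (fun x => (mean (fun y => g x y ^ p)) ^ (2 / p)) := by
    rw [mean_prod]
    refine mean_mono fun x => ?_
    have := H2 (g x) (hg0 x)
    refine le_trans (le_of_eq (mean_congr fun y => ?_)) this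
    rw [e1 x y]
  have s2 := mink (2 / p) hs (fun x y => g x y ^ p) (fun x y => Real.rpow_nonneg (hg0 x y) _)
  refine le_trans s1 (le_trans s2 ?_)
  refine Real.rpow_le_rpow (mean_nonneg fun y => Real.rpow_nonneg
    (mean_nonneg fun x => Real.rpow_nonneg (Real.rpow_nonneg (hg0 x y) _) _) _) ?_ hs0.le
  rw [mean_prod, mean_swap]
  refine mean_mono fun y => ?_
  have e2 : mean (fun x => (g x y ^ p) ^ (2 / p)) = mean (fun x => (g x y) ^ 2) := by
    refine mean_congr fun x => ?_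
    rw [← Real.rpow_mul (hg0 x y), mul_div_cancel₀ _ hp0.ne', Real.rpow_two]
  rw [e2]
  have h3 := H1 (fun x => f (x, y)) (fun x => hf _)
  have h4 := Real.rpow_le_rpow (mean_nonneg fun x => sq_nonneg (g x y)) h3
    (show (0:ℝ) ≤ 1 / (2 / p) by positivity)
  refine le_trans h4 (le_of_eq ?_)
  rw [← Real.rpow_mul (mean_nonneg fun x => Real.rpow_nonneg (hf _) _), mul_one_div_cancel hs0.ne',
    Real.rpow_one]

end Pool.Agent.Lib.P325P
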