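import Pool.Agent.Lib.P325P.Defs
import Pool.Agent.Lib.P325P.Base
import Pool.Agent.Lib.P325P.HypA
import Pool.Agent.Lib.P325P.HypB
import Pool.Agent.Lib.P325P.HypC

/-!
Module HypD (1.5h; black boxes Base, HypA, HypB, HypC). Hypercontractivity on the product space.
PROOF. prod_hc by Fintype.induction_empty_option (or induction on card W): for an equivalence W ≃ W'
transport along (W → Ω) ≃ (W' → Ω) (Equiv.arrowCongr, mean_comp, Fintype.prod_equiv); for the empty type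
the space has one point, kernel 1: f^2 ≤ (f^p)^(2/p); for Option W: (Option W → Ω) ≃ Ω × (W → Ω), hypB
with k1 = kap ρ (hypA: ∑ b, kap ρ a b * f b = ρ f a + (1-ρ) mean f; kap ≥ 0 since ρ^2 ≤ (p-1)/q ≤ 1 gives
ρ ≤ 1). hyper: noise_eq and prod_hc.
-/

open scoped BigOperators

namespace Pool.Agent.Lib.P325P

private theorem hc_equiv {X Y : Type} [Fintype X] [Fintype Y] (e : X ≃ Y) {p : ℝ}
    {k : Y → Y → ℝ} (h : HC p k) : HC p (fun x x' : X => k (e x) (e x')) := by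
  intro f hf
  have h1 := h (fun y => f (e.symm y)) (fun y => hf _)
  have h2 := mean_comp e (fun y => (∑ y', k y y' * f (e.symm y')) ^ 2)
  have h3 := mean_comp e (fun y => f (e.symm y) ^ p)
  have h4 : ∀ x, (∑ y', k (e x) y' * f (e.symm y')) = ∑ x', k (e x) (e x') * f x' := by
    intro x
    rw [← Equiv.sum_comp e]
    simp only [Equiv.symm_apply_apply]
  simp only [h4, Equiv.symm_apply_apply] at h2 h3
  rw [h2, h3]
  exact h1

private theorem hc_kap {Ω : Type} [Fintype Ω] [Nonempty Ω] (p ρ : ℝ)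
    (hp1 : 1 ≤ p) (hp2 : p ≤ 2) (hρ0 : 0 ≤ ρ) (hρ : ρ ^ 2 ≤ (p - 1) / (Fintype.card Ω : ℝ)) :
    HC p (fun a b : Ω => kap ρ a b) := by
  classical
  intro f hf
  have h := hypA p ρ hp1 hp2 hρ0 hρ f hf
  have e : ∀ a, (∑ b, kap ρ a b * f b) = ρ * f a + (1 - ρ) * mean f := by
    intro a
    have e1 : ∀ b, kap ρ a b * f b = (if a = b then ρ * f b else 0) +
        (1 - ρ) / (Fintype.card Ω : ℝ) * f b := by
      intro b
      unfold kap
      by_cases hab : a = b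
      · simp only [hab, if_true]
        ring
      · simp only [hab, if_false]
        ring
    simp only [e1]
    rw [Finset.sum_add_distrib, Finset.sum_ite_eq, if_pos (Finset.mem_univ _), ← Finset.mul_sum]
    unfold mean
    ring
  simp only [e]
  exact h

private theorem kap_nonneg {Ω : Type} [Fintype Ω] [Nonempty Ω] (p ρ : ℝ)
    (hp2 : p ≤ 2) (hρ0 : 0 ≤ ρ) (hρ : ρ ^ 2 ≤ (p - 1) / (Fintype.card Ω : ℝ))
    (a b : Ω) : 0 ≤ kap ρ a b := by
  have hq : (1 : ℝ) ≤ (Fintype.card Ω : ℝ) := by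
    exact_mod_cast Fintype.card_pos
  have h1 : (p - 1) / (Fintype.card Ω : ℝ) ≤ 1 := by
    rw [div_le_one (by linarith)]
    linarith
  have hρ1 : ρ ≤ 1 := by nlinarith
  unfold kap
  have h2 : 0 ≤ (1 - ρ) / (Fintype.card Ω : ℝ) := div_nonneg (by linarith) (by linarith)
  split_ifs
  · linarith
  · linarith

private theorem hc_fin {Ω : Type} [Fintype Ω] [Nonempty Ω] (p ρ : ℝ)
    (hp1 : 1 ≤ p) (hp2 : p ≤ 2) (hρ0 : 0 ≤ ρ) (hρ : ρ ^ 2 ≤ (p - 1) / (Fintype.card Ω : ℝ))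
    (n : ℕ) : HC p (fun y x : Fin n → Ω => ∏ w, kap ρ (y w) (x w)) := by
  induction n with
  | zero =>
    intro f hf
    have hp0 : p ≠ 0 := by linarith
    have e1 : ∀ x : Fin 0 → Ω, (∑ x' : Fin 0 → Ω, (∏ w, kap ρ (x w) (x' w)) * f x') ^ 2 =
        f default ^ 2 := by
      intro x
      rw [Fintype.sum_unique]
      simp
    have e2 : ∀ x : Fin 0 → Ω, f x ^ p = f default ^ p := by
      intro x
      rw [Subsingleton.elim x default]
    simp only [e1, e2]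
    rw [mean_const, mean_const, ← Real.rpow_mul (hf _), mul_div_cancel₀ _ hp0]
    norm_num
  | succ n ih =>
    have h := hypB p hp1 hp2 (fun a b : Ω => kap ρ a b)
      (fun y x : Fin n → Ω => ∏ w, kap ρ (y w) (x w))
      (kap_nonneg p ρ hp2 hρ0 hρ)
      (fun y x => Finset.prod_nonneg fun w _ => kap_nonneg p ρ hp2 hρ0 hρ _ _)
      (hc_kap p ρ hp1 hp2 hρ0 hρ) ih
    have h2 := hc_equiv (Fin.consEquiv (fun _ : Fin (n + 1) => Ω)).symm h
    have e : (fun x x' : Fin (n + 1) → Ω => (fun a b : Ω × (Fin n → Ω) =>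
        kap ρ a.1 b.1 * ∏ w, kap ρ (a.2 w) (b.2 w))
        ((Fin.consEquiv (fun _ : Fin (n + 1) => Ω)).symm x)
        ((Fin.consEquiv (fun _ : Fin (n + 1) => Ω)).symm x')) =
        (fun y x : Fin (n + 1) → Ω => ∏ w, kap ρ (y w) (x w)) := by
      funext x x'
      rw [Fin.prod_univ_succ]
      rfl
    rw [← e]
    exact h2

theorem prod_hc {W Ω : Type} [Fintype W] [DecidableEq W] [Fintype Ω] [Nonempty Ω] (p ρ : ℝ)
    (hp1 : 1 ≤ p) (hp2 : p ≤ 2) (hρ0 : 0 ≤ ρ) (hρ : ρ ^ 2 ≤ (p - 1) / (Fintype.card Ω : ℝ)) :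
    HC p (fun y x : W → Ω => ∏ w, kap ρ (y w) (x w)) := by
  have h := hc_equiv (Equiv.arrowCongr (Fintype.equivFin W) (Equiv.refl Ω))
    (hc_fin (Ω := Ω) p ρ hp1 hp2 hρ0 hρ (Fintype.card W))
  have e : (fun x x' : W → Ω => (fun y x : Fin (Fintype.card W) → Ω => ∏ w, kap ρ (y w) (x w))
        (Equiv.arrowCongr (Fintype.equivFin W) (Equiv.refl Ω) x)
        (Equiv.arrowCongr (Fintype.equivFin W) (Equiv.refl Ω) x')) =
        (fun y x : W → Ω => ∏ w, kap ρ (y w) (x w)) := by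
    funext x x'
    exact Equiv.prod_comp (Fintype.equivFin W).symm (fun w => kap ρ (x w) (x' w))
  rw [← e]
  exact h

theorem hyper {W Ω : Type} [Fintype W] [DecidableEq W] [Fintype Ω] [Nonempty Ω] (p ρ : ℝ)
    (hp1 : 1 ≤ p) (hp2 : p ≤ 2) (hρ0 : 0 ≤ ρ) (hρ : ρ ^ 2 ≤ (p - 1) / (Fintype.card Ω : ℝ))
    (f : (W → Ω) → ℝ) (hf : ∀ x, 0 ≤ f x) :
    mean (fun y => noise ρ f y ^ 2) ≤ (mean (fun x => f x ^ p)) ^ (2 / p) := by
  have h := prod_hc (W := W) (Ω := Ω) p ρ hp1 hp2 hρ0 hρ f hf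
  simp only [noise_eq]
  exact h

end Pool.Agent.Lib.P325P
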