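import Pool.Agent.Lib.P325P.Defs
import Pool.Agent.Lib.P325P.Base
import Pool.Agent.Lib.P325P.Es
import Pool.Agent.Lib.P325P.HypC
import Pool.Agent.Lib.P325P.HypD

/-!
Module Level (1.5h; black boxes Es, HypC, HypD). Level inequality for bounded nonnegative functions.
PROOF. q = card Ω, Wd = the left side. d = 0: S = ∅ only, es_empty: both sides m^2. d ≥ 1: for 1 ≤ p ≤ 2
and ρ^2 = (p-1)/q: ρ^(2d) Wd ≤ ∑_S ρ^(2|S|) mean (es^2) = mean (noise^2) ≤ (mean f^p)^(2/p)
(mean_noise_sq, hyper) and mean f^p ≤ M^(p-1) m, so (mean f^p)^(2/p) ≤ m^2 (M/m)^(2(p-1)/p) ≤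
m^2 exp (2 (p-1) L) (M ≥ m, so M/m ≥ 1 and 0 ≤ log (M/m) ≤ L; p ≥ 1). If L ≥ d take p = 1 + d/L:
Wd ≤ m^2 (q L / d)^d exp (2 d) ≤ m^2 (exp 2 * q * (L+1))^d. If L < d: by parseval
Wd ≤ mean f^2 ≤ M m ≤ m^2 exp L ≤ m^2 exp d ≤ the right side (q ≥ 1, L ≥ 0).
-/

open scoped BigOperators

namespace Pool.Agent.Lib.P325P

/-- the power mean bound -/
private theorem rpow_mean_le {X : Type} [Fintype X] [Nonempty X] (f : X → ℝ) (hf : ∀ x, 0 ≤ f x)
    (M m : ℝ) (hM : ∀ x, f x ≤ M) (hm : mean f = m) (hm0 : 0 < m) (p : ℝ) (hp : 1 ≤ p) :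
    (mean (fun x => f x ^ p)) ^ (2 / p) ≤ m ^ 2 * Real.exp (2 * ((p - 1) * Real.log (M / m))) := by
  have hMm : m ≤ M := by rw [← hm]; exact mean_le hM
  have hM0 : 0 < M := lt_of_lt_of_le hm0 hMm
  have hℓ0 : 0 ≤ Real.log (M / m) := Real.log_nonneg (by rw [le_div_iff₀ hm0]; linarith)
  have h1 : mean (fun x => f x ^ p) ≤ M ^ (p - 1) * m := by
    rw [← hm, ← mean_mul_left]
    refine mean_mono fun x => ?_
    have e : f x ^ p = f x ^ (p - 1) * f x := by
      have := Real.rpow_add_one' (hf x) (y := p - 1) (by linarith)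
      rw [← this]; congr 1; ring
    rw [e]
    exact mul_le_mul_of_nonneg_right (Real.rpow_le_rpow (hf x) (hM x) (by linarith)) (hf x)
  have h0 : 0 ≤ mean (fun x => f x ^ p) := mean_nonneg fun x => Real.rpow_nonneg (hf x) _
  have hp0 : 0 < p := by linarith
  refine (Real.rpow_le_rpow h0 h1 (by positivity)).trans ?_
  have e1 : M ^ (p - 1) * m = Real.exp (p * Real.log m + (p - 1) * Real.log (M / m)) := by
    rw [Real.rpow_def_of_pos hM0, Real.log_div hM0.ne' hm0.ne']
    have e0 : m = Real.exp (Real.log m) := (Real.exp_log hm0).symm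
    calc Real.exp (Real.log M * (p - 1)) * m
        = Real.exp (Real.log M * (p - 1)) * Real.exp (Real.log m) := by rw [← e0]
      _ = Real.exp (Real.log M * (p - 1) + Real.log m) := (Real.exp_add _ _).symm
      _ = _ := by congr 1; ring
  rw [e1, ← Real.exp_mul]
  have e2 : m ^ 2 = Real.exp (2 * Real.log m) := by
    rw [mul_comm, Real.exp_mul, Real.exp_log hm0]
    norm_num
  rw [e2, ← Real.exp_add]
  refine Real.exp_le_exp.2 ?_
  have e3 : (p * Real.log m + (p - 1) * Real.log (M / m)) * (2 / p) =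
      2 * Real.log m + 2 * ((p - 1) * Real.log (M / m)) * (1 / p) := by
    field_simp
  rw [e3]
  have h3 : 1 / p ≤ 1 := by rw [div_le_one hp0]; exact hp
  have h4 : 0 ≤ 2 * ((p - 1) * Real.log (M / m)) := by
    have : 0 ≤ p - 1 := by linarith
    positivity
  have h5 := mul_le_mul_of_nonneg_left h3 h4
  linarith

theorem level {W Ω : Type} [Fintype W] [DecidableEq W] [Fintype Ω] [Nonempty Ω]
    (f : (W → Ω) → ℝ) (hf : ∀ x, 0 ≤ f x) (M m L : ℝ) (hM : ∀ x, f x ≤ M) (hm : mean f = m)
    (hm0 : 0 < m) (hL : Real.log (M / m) ≤ L) (d : ℕ) :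
    ∑ S ∈ Finset.univ.filter (fun S : Finset W => S.card = d),
      mean (fun x => es S f x ^ 2) ≤
      m ^ 2 * (Real.exp 2 * (Fintype.card Ω : ℝ) * (L + 1)) ^ d := by
  have hMm : m ≤ M := by rw [← hm]; exact mean_le hM
  have hM0 : 0 < M := lt_of_lt_of_le hm0 hMm
  have hℓ0 : 0 ≤ Real.log (M / m) := Real.log_nonneg (by rw [le_div_iff₀ hm0]; linarith)
  have hL0 : 0 ≤ L := hℓ0.trans hL
  have hq1 : (1 : ℝ) ≤ (Fintype.card Ω : ℝ) := by
    exact_mod_cast Nat.one_le_iff_ne_zero.2 Fintype.card_ne_zero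
  have hq0 : (0 : ℝ) < (Fintype.card Ω : ℝ) := by linarith
  set q : ℝ := (Fintype.card Ω : ℝ) with hq
  rcases Nat.eq_zero_or_pos d with hd | hd
  · subst hd
    have e : (Finset.univ.filter (fun S : Finset W => S.card = 0)) = {∅} := by
      ext S; simp
    rw [e, Finset.sum_singleton, pow_zero, mul_one]
    refine le_of_eq ?_
    have : ∀ x : W → Ω, es ∅ f x ^ 2 = m ^ 2 := fun x => by rw [es_empty, hm]
    simp only [this]
    exact mean_const _
  · have hd1 : (1 : ℝ) ≤ (d : ℝ) := by exact_mod_cast hd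
    by_cases hLd : (d : ℝ) ≤ L
    · have hLp : 0 < L := by linarith
      have hx : 0 < (d : ℝ) / L := by positivity
      have hx1 : (d : ℝ) / L ≤ 1 := by rw [div_le_one hLp]; exact hLd
      set p : ℝ := 1 + (d : ℝ) / L with hp
      have hp1 : 1 ≤ p := by linarith
      have hp2 : p ≤ 2 := by linarith
      have hr0 : 0 < (p - 1) / q := by
        have : 0 < p - 1 := by rw [hp]; linarith
        positivity
      set ρ : ℝ := Real.sqrt ((p - 1) / q) with hρ
      have hρ2 : ρ ^ 2 = (p - 1) / q := Real.sq_sqrt hr0.le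
      have h1 := hyper p ρ hp1 hp2 (Real.sqrt_nonneg _) (by rw [hρ2]) f hf
      rw [mean_noise_sq] at h1
      have h2 := rpow_mean_le f hf M m hM hm hm0 p hp1
      have h3 : ((p - 1) / q) ^ d * ∑ S ∈ Finset.univ.filter (fun S : Finset W => S.card = d),
          mean (fun x => es S f x ^ 2) ≤
          ∑ S : Finset W, ρ ^ (2 * S.card) * mean (fun y => es S f y ^ 2) := by
        rw [Finset.mul_sum]
        refine (Finset.sum_le_sum_of_subset_of_nonneg (Finset.filter_subset
          (fun S : Finset W => S.card = d) Finset.univ) (fun S _ _ => ?_)).trans' ?_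
        · exact mul_nonneg (pow_nonneg (Real.sqrt_nonneg _) _) (mean_nonneg fun x => sq_nonneg _)
        · refine le_of_eq (Finset.sum_congr rfl fun S hS => ?_)
          rw [Finset.mem_filter] at hS
          rw [hS.2, pow_mul, hρ2]
      have h4 : (p - 1) * Real.log (M / m) ≤ d := by
        have e : (p - 1) * L = d := by rw [hp]; field_simp; ring
        rw [← e]
        exact mul_le_mul_of_nonneg_left hL (by linarith)
      have h5 : m ^ 2 * Real.exp (2 * ((p - 1) * Real.log (M / m))) ≤
          m ^ 2 * (Real.exp 2) ^ d := by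
        refine mul_le_mul_of_nonneg_left ?_ (sq_nonneg _)
        rw [← Real.exp_nat_mul]
        refine Real.exp_le_exp.2 ?_
        nlinarith
      have h6 : (Real.exp 2) ^ d ≤
          ((p - 1) / q) ^ d * (Real.exp 2 * q * (L + 1)) ^ d := by
        rw [← mul_pow]
        refine pow_le_pow_left₀ (Real.exp_pos _).le ?_ d
        have e : (p - 1) / q * (Real.exp 2 * q * (L + 1)) =
            Real.exp 2 * ((d : ℝ) / L * (L + 1)) := by
          rw [hp]; field_simp; ring
        rw [e]
        have e2 : (1 : ℝ) ≤ (d : ℝ) / L * (L + 1) := by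
          rw [div_mul_eq_mul_div, le_div_iff₀ hLp]
          nlinarith
        have := mul_le_mul_of_nonneg_left e2 (Real.exp_pos 2).le
        linarith
      have h7 : ((p - 1) / q) ^ d * ∑ S ∈ Finset.univ.filter (fun S : Finset W => S.card = d),
          mean (fun x => es S f x ^ 2) ≤
          ((p - 1) / q) ^ d * (m ^ 2 * (Real.exp 2 * q * (L + 1)) ^ d) := by
        calc _ ≤ _ := h3
          _ ≤ _ := h1
          _ ≤ _ := h2
          _ ≤ _ := h5
          _ ≤ m ^ 2 * (((p - 1) / q) ^ d * (Real.exp 2 * q * (L + 1)) ^ d) :=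
            mul_le_mul_of_nonneg_left h6 (sq_nonneg _)
          _ = _ := by ring
      exact le_of_mul_le_mul_left h7 (pow_pos hr0 d)
    · push Not at hLd
      have h1 : ∑ S ∈ Finset.univ.filter (fun S : Finset W => S.card = d),
          mean (fun x => es S f x ^ 2) ≤ mean (fun y => f y ^ 2) := by
        rw [parseval]
        exact Finset.sum_le_sum_of_subset_of_nonneg (Finset.filter_subset _ _)
          (fun S _ _ => mean_nonneg fun x => sq_nonneg _)
      have h2 : mean (fun y => f y ^ 2) ≤ M * m := by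
        rw [← hm, ← mean_mul_left]
        refine mean_mono fun x => ?_
        have := hf x
        have := hM x
        nlinarith
      have h3 : M ≤ m * Real.exp d := by
        have e : M = m * Real.exp (Real.log (M / m)) := by
          rw [Real.exp_log (by positivity)]; field_simp
        rw [e]
        refine mul_le_mul_of_nonneg_left (Real.exp_le_exp.2 (by linarith)) hm0.le
      have h4 : Real.exp d ≤ (Real.exp 2 * q * (L + 1)) ^ d := by
        have e : Real.exp (d : ℝ) = (Real.exp 1) ^ d := by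
          rw [← Real.exp_nat_mul, mul_one]
        rw [e]
        refine pow_le_pow_left₀ (Real.exp_pos _).le ?_ d
        have h5 : Real.exp 1 ≤ Real.exp 2 := Real.exp_le_exp.2 (by norm_num)
        have h6 : Real.exp 2 * 1 ≤ Real.exp 2 * (q * (L + 1)) := by
          refine mul_le_mul_of_nonneg_left ?_ (Real.exp_pos _).le
          nlinarith
        linarith [mul_assoc (Real.exp 2) q (L + 1)]
      calc _ ≤ _ := h1
        _ ≤ _ := h2
        _ ≤ m * Real.exp d * m := mul_le_mul_of_nonneg_right h3 hm0.le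
        _ = m ^ 2 * Real.exp d := by ring
        _ ≤ _ := mul_le_mul_of_nonneg_left h4 (sq_nonneg _)

end Pool.Agent.Lib.P325P
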