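import Pool.Agent.Lib.P325P.Defs
import Pool.Agent.Lib.P325P.Base
import Pool.Agent.Lib.P325P.Cm
import Pool.Agent.Lib.P325P.Es
import Pool.Agent.Lib.P325P.Level
import Pool.Agent.Lib.P325P.EsLift
import Pool.Agent.Lib.P325P.Grp

/-!
Module GBd (black boxes Cm, Es, Level, EsLift, Grp). Sup bound for the averaged components.
PROOF. G y = mean_z (u z * es S (lift z v) y) depends on the labels of S only (es_dep), q = card Ω,
t = card K: G y ^ 2 ≤ q^|S| mean G^2 (sq_le_card) ≤ q^|S| (mean_z (u z √(mean_y es S (lift z v) y ^ 2)))^2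
(mean_mean_sq) = q^|S| (mean_z (u z w (sec z S)))^2 with w A = √(mean (es A v)^2) (mean_es_lift)
≤ q^|S| (U / √t^|S|) U ∑_(|A| = |S|) mean (es A v)^2 (group) ≤ q^|S| U^2 m^2 (exp 2 q (L+1))^|S| / √t^|S|
(level) = (U m (exp 1 q √(L+1) / √√t)^|S|)^2. L ≥ 0 since M ≥ m > 0.
-/

open scoped BigOperators

namespace Pool.Agent.Lib.P325P

variable {V K Ω : Type} [Fintype V] [DecidableEq V] [Fintype K] [DecidableEq K] [Fintype Ω]
  [Nonempty Ω] [Nonempty K]

theorem gbd (u : (V → K) → ℝ) (hu : ∀ z, 0 ≤ u z) (v : (V × K → Ω) → ℝ) (hv : ∀ x, 0 ≤ v x)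
    (U M m L : ℝ) (hU : mean u = U) (hM : ∀ x, v x ≤ M) (hm : mean v = m) (hm0 : 0 < m)
    (hL : Real.log (M / m) ≤ L) (S : Finset V)
    (hd : ∀ z, massAt u S z ≤ U / Real.sqrt (Fintype.card K) ^ S.card) (y : V → Ω) :
    |mean (fun z => u z * es S (lift z v) y)| ≤
      U * m * (Real.exp 1 * (Fintype.card Ω : ℝ) * Real.sqrt (L + 1) /
        Real.sqrt (Real.sqrt (Fintype.card K))) ^ S.card := by
  have hU0 : 0 ≤ U := hU ▸ mean_nonneg hu
  have hMm : m ≤ M := hm ▸ mean_le hM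
  have hL0 : 0 ≤ L := le_trans (Real.log_nonneg ((one_le_div hm0).2 hMm)) hL
  have hKpos : (0 : ℝ) < (Fintype.card K : ℝ) := Nat.cast_pos.2 Fintype.card_pos
  have hstpos : 0 < Real.sqrt (Fintype.card K : ℝ) := Real.sqrt_pos.2 hKpos
  have hq0 : (0 : ℝ) ≤ (Fintype.card Ω : ℝ) := Nat.cast_nonneg _
  -- dependence
  have hdep : DependsOn (fun y : V → Ω => mean (fun z : V → K => u z * es S (lift z v) y))
      (S : Set V) := by
    intro x x' hx
    refine mean_congr fun z => ?_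
    rw [es_dep S (lift z v) hx]
  have h1 := sq_le_card hdep y
  have h2 := mean_mean_sq u hu (fun (z : V → K) (y : V → Ω) => es S (lift z v) y)
  have h3 : mean (fun z : V → K => u z * Real.sqrt (mean (fun y : V → Ω =>
      es S (lift z v) y ^ 2))) = mean (fun z : V → K => u z *
        (fun A : Finset (V × K) => Real.sqrt (mean (fun x => es A v x ^ 2))) (sec z S)) := by
    refine mean_congr fun z => ?_
    simp only []
    rw [mean_es_lift]
  have h4 := group u hu (fun A : Finset (V × K) => Real.sqrt (mean (fun x => es A v x ^ 2)))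
    S U _ hU hd
  have h5 : ∑ A ∈ Finset.univ.filter (fun A : Finset (V × K) => A.card = S.card),
      (fun A : Finset (V × K) => Real.sqrt (mean (fun x => es A v x ^ 2))) A ^ 2 =
      ∑ A ∈ Finset.univ.filter (fun A : Finset (V × K) => A.card = S.card),
        mean (fun x => es A v x ^ 2) := by
    refine Finset.sum_congr rfl fun A _ => ?_
    exact Real.sq_sqrt (mean_nonneg fun x => sq_nonneg _)
  have h6 := level v hv M m L hM hm hm0 hL S.card
  rw [h3] at h2
  rw [h5] at h4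
  have hc0 : 0 ≤ U / Real.sqrt (Fintype.card K : ℝ) ^ S.card * U :=
    mul_nonneg (div_nonneg hU0 (pow_nonneg hstpos.le _)) hU0
  have h7 := h2.trans (h4.trans (mul_le_mul_of_nonneg_left h6 hc0))
  have h8 := h1.trans (mul_le_mul_of_nonneg_left h7 (pow_nonneg hq0 S.card))
  have hR : (Fintype.card Ω : ℝ) ^ S.card * (U / Real.sqrt (Fintype.card K : ℝ) ^ S.card * U *
      (m ^ 2 * (Real.exp 2 * (Fintype.card Ω : ℝ) * (L + 1)) ^ S.card)) =
      (U * m * (Real.exp 1 * (Fintype.card Ω : ℝ) * Real.sqrt (L + 1) /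
        Real.sqrt (Real.sqrt (Fintype.card K))) ^ S.card) ^ 2 := by
    have e1 : Real.exp 2 = Real.exp 1 ^ 2 := by
      rw [← Real.exp_nat_mul]; norm_num
    have e2 : (Real.sqrt (L + 1)) ^ 2 = L + 1 := Real.sq_sqrt (by linarith)
    have e3 : (Real.sqrt (Real.sqrt (Fintype.card K : ℝ))) ^ 2 = Real.sqrt (Fintype.card K : ℝ) :=
      Real.sq_sqrt hstpos.le
    have e4 : (Real.exp 1 * (Fintype.card Ω : ℝ) * Real.sqrt (L + 1) /
        Real.sqrt (Real.sqrt (Fintype.card K : ℝ))) ^ 2 =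
        (Fintype.card Ω : ℝ) * (Real.exp 2 * (Fintype.card Ω : ℝ) * (L + 1)) /
          Real.sqrt (Fintype.card K : ℝ) := by
      rw [div_pow, mul_pow, mul_pow, e2, e3, e1]
      ring
    have e5 : ∀ X : ℝ, (U * m * X ^ S.card) ^ 2 = U ^ 2 * m ^ 2 * (X ^ 2) ^ S.card := by
      intro X
      rw [mul_pow, mul_pow, ← pow_mul, ← pow_mul, mul_comm S.card 2]
    rw [e5, e4, div_pow, mul_pow (Fintype.card Ω : ℝ)
      (Real.exp 2 * (Fintype.card Ω : ℝ) * (L + 1)) S.card]
    ring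
  rw [hR] at h8
  refine abs_le_of_sq_le_sq h8 ?_
  refine mul_nonneg (mul_nonneg hU0 hm0.le) (pow_nonneg (div_nonneg ?_ (Real.sqrt_nonneg _)) _)
  exact mul_nonneg (mul_nonneg (Real.exp_pos _).le hq0) (Real.sqrt_nonneg _)

end Pool.Agent.Lib.P325P
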