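import Mathlib
import Pool.Agent.Lib.P325x.Defs
import Pool.Agent.Lib.P325P.Fark

/-!
Module GameL (2.5h; black box Fark). From linear programs for games on N + N vertices to short
nonnegative decompositions of the lifted objective of a game on n + n vertices.
PROOF. n * t ≤ N: the copy a : Fin t of the vertex i : Fin n is the vertex i * t + a of Fin N (both sides).
For z let I_z be the game with src' e = (src e, z (inl (src e))), dst' e = (dst e, z (inr (dst e))), the
same b. A labeling X of Fin N ⊕ Fin N satisfies e in I_z iff the labeling i ↦ X (copy (i, z i)) satisfies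
e in the given game; so value I_z ≤ value ≤ δ (ciSup_le; the value is a supremum of finitely many numbers
≤ 1, satFrac ≤ value by le_ciSup). By hno applied to I_z there are w, w0 with w (pt X) + w0 = satFrac I_z X
for all X and w y + w0 ≤ s for all feasible y. Farkas (y0 = pt of any labeling): w = ∑ l j • A j, l ≥ 0,
∑ l j c j ≤ s - w0. For x : (Fin n ⊕ Fin n) × Fin t → ZMod k let X = ext x be x on the copies and 0
elsewhere. Then s - satFrac (x at z) = s - w0 - w (pt X) = (s - w0 - ∑ l j c j) + ∑ l j (c j - A j (pt X)).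
I = Option (Fin R): u none z = s - w0 - ∑ l j c j, v none x = 1; u (some j) z = l j,
v (some j) x = c j - A j (pt (ext x)). (The choice of w, w0, l depends on z only: use `choose`.)
-/

open scoped BigOperators

namespace Pool.Agent.Lib.P325P

open Pool.Agent.Lib.P325x (Game)

theorem gameL {n t N k : ℕ} [NeZero k] (hN : n * t ≤ N) (s δ : ℝ)
    {ι : Type} [Fintype ι] [Nonempty ι] (src dst : ι → Fin n) (b : ι → ZMod k)
    (hval : (Game.mk src dst (fun e => Equiv.addRight (b e))).value ≤ δ)
    {Y : Type*} [AddCommGroup Y] [Module ℝ Y] (R : ℕ) (A : Fin R → Y →ₗ[ℝ] ℝ) (c : Fin R → ℝ)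
    (pt : (Fin N ⊕ Fin N → ZMod k) → Y) (hpt : ∀ z j, A j (pt z) ≤ c j)
    (hno : ¬ ∃ src' dst' : ι → Fin N,
      (Game.mk src' dst' (fun e => Equiv.addRight (b e))).value ≤ δ ∧
      ∀ (w : Y →ₗ[ℝ] ℝ) (w0 : ℝ),
        (∀ z, w (pt z) + w0 = (Game.mk src' dst' (fun e => Equiv.addRight (b e))).satFrac
          (fun i => z (Sum.inl i)) (fun i => z (Sum.inr i))) →
        ∃ y, (∀ j, A j y ≤ c j) ∧ s < w y + w0) :
    ∃ (I : Type) (_ : Fintype I) (u : I → (Fin n ⊕ Fin n → Fin t) → ℝ)
      (v : I → ((Fin n ⊕ Fin n) × Fin t → ZMod k) → ℝ),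
      Fintype.card I = R + 1 ∧ (∀ j z, 0 ≤ u j z) ∧ (∀ j x, 0 ≤ v j x) ∧
      ∀ (z : Fin n ⊕ Fin n → Fin t) (x : (Fin n ⊕ Fin n) × Fin t → ZMod k),
        s - (Game.mk src dst (fun e => Equiv.addRight (b e))).satFrac
          (fun i => x (Sum.inl i, z (Sum.inl i))) (fun i => x (Sum.inr i, z (Sum.inr i))) =
          ∑ j, u j z * v j x := by
  classical
  -- the copies of the vertices
  let cp : Fin n × Fin t → Fin N := fun p => Fin.castLE hN (finProdFinEquiv p)
  have hcp : Function.Injective cp :=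
    (Fin.castLE_injective hN).comp finProdFinEquiv.injective
  let ext : ((Fin n ⊕ Fin n) × Fin t → ZMod k) → (Fin N ⊕ Fin N → ZMod k) := fun x =>
    Sum.elim (Function.extend cp (fun p => x (Sum.inl p.1, p.2)) (fun _ => 0))
      (Function.extend cp (fun p => x (Sum.inr p.1, p.2)) (fun _ => 0))
  have hextL : ∀ x i a, ext x (Sum.inl (cp (i, a))) = x (Sum.inl i, a) := by
    intro x i a
    exact hcp.extend_apply (fun p => x (Sum.inl p.1, p.2)) (fun _ => 0) (i, a)
  have hextR : ∀ x i a, ext x (Sum.inr (cp (i, a))) = x (Sum.inr i, a) := by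
    intro x i a
    exact hcp.extend_apply (fun p => x (Sum.inr p.1, p.2)) (fun _ => 0) (i, a)
  have key : ∀ z : Fin n ⊕ Fin n → Fin t, ∃ (l : Fin R → ℝ) (μ : ℝ), (∀ j, 0 ≤ l j) ∧ 0 ≤ μ ∧
      ∀ X : Fin N ⊕ Fin N → ZMod k,
        s - (Game.mk src dst (fun e => Equiv.addRight (b e))).satFrac
          (fun i => X (Sum.inl (cp (i, z (Sum.inl i)))))
          (fun i => X (Sum.inr (cp (i, z (Sum.inr i))))) =
          μ + ∑ j, l j * (c j - A j (pt X)) := by
    intro z
    have hsat : ∀ (f g : Fin N → ZMod k),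
        (Game.mk (fun e => cp (src e, z (Sum.inl (src e))))
          (fun e => cp (dst e, z (Sum.inr (dst e)))) (fun e => Equiv.addRight (b e))).satFrac f g =
        (Game.mk src dst (fun e => Equiv.addRight (b e))).satFrac
          (fun i => f (cp (i, z (Sum.inl i)))) (fun i => g (cp (i, z (Sum.inr i)))) :=
      fun f g => rfl
    have hv : (Game.mk (fun e => cp (src e, z (Sum.inl (src e))))
        (fun e => cp (dst e, z (Sum.inr (dst e)))) (fun e => Equiv.addRight (b e))).value ≤ δ := by
      refine le_trans ?_ hval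
      unfold Game.value
      apply ciSup_le
      intro p
      rw [hsat]
      exact le_ciSup (f := fun q : (Fin n → ZMod k) × (Fin n → ZMod k) =>
        (Game.mk src dst (fun e => Equiv.addRight (b e))).satFrac q.1 q.2)
        (Set.finite_range _).bddAbove
        ((fun i => p.1 (cp (i, z (Sum.inl i)))), (fun i => p.2 (cp (i, z (Sum.inr i)))))
    have h1 : ∃ (w : Y →ₗ[ℝ] ℝ) (w0 : ℝ),
        (∀ X : Fin N ⊕ Fin N → ZMod k, w (pt X) + w0 =
          (Game.mk (fun e => cp (src e, z (Sum.inl (src e))))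
            (fun e => cp (dst e, z (Sum.inr (dst e)))) (fun e => Equiv.addRight (b e))).satFrac
            (fun i => X (Sum.inl i)) (fun i => X (Sum.inr i))) ∧
        ∀ y, (∀ j, A j y ≤ c j) → w y + w0 ≤ s := by
      by_contra hcon
      push Not at hcon
      exact hno ⟨_, _, hv, hcon⟩
    obtain ⟨w, w0, hw1, hw2⟩ := h1
    obtain ⟨l, hl1, hl2, hl3⟩ := farkas R A c (pt (fun _ => 0)) (hpt _) w (s - w0)
      (fun y hy => by linarith [hw2 y hy])
    refine ⟨l, s - w0 - ∑ j, l j * c j, hl1, by linarith, fun X => ?_⟩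
    have h2 := hw1 X
    rw [hsat] at h2
    have h3 : w (pt X) = ∑ j, l j * A j (pt X) := by
      rw [hl2]
      simp only [LinearMap.sum_apply, LinearMap.smul_apply, smul_eq_mul]
    have h4 : ∑ j, l j * (c j - A j (pt X)) = ∑ j, l j * c j - ∑ j, l j * A j (pt X) := by
      rw [← Finset.sum_sub_distrib]
      exact Finset.sum_congr rfl fun j _ => by ring
    rw [h4, ← h3, ← h2]
    ring
  choose l μ hl hμ hX using key
  refine ⟨Option (Fin R), inferInstance,
    fun o z => o.elim (μ z) (fun j => l z j),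
    fun o x => o.elim 1 (fun j => c j - A j (pt (ext x))), ?_, ?_, ?_, ?_⟩
  · rw [Fintype.card_option, Fintype.card_fin]
  · rintro (_ | j) z
    · exact hμ z
    · exact hl z j
  · rintro (_ | j) x
    · exact zero_le_one
    · exact sub_nonneg.2 (hpt _ j)
  · intro z x
    have h1 := hX z (ext x)
    simp only [hextL, hextR] at h1
    rw [h1, Fintype.sum_option]
    simp only [Option.elim_none, Option.elim_some, mul_one]

end Pool.Agent.Lib.P325P
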