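import Mathlib

/-!
Module Geo (0.7h; Mathlib only). Sum over the large subsets.
PROOF. N = card V, X = N γ ≤ 1/2. Group by cardinality: ∑_(d > d0) choose N d γ^d ≤ ∑_(d > d0) X^d
(Nat.choose_le_pow: choose N d ≤ N^d) ≤ X^(d0+1)/(1-X) ≤ X^d0.
-/

open scoped BigOperators

namespace Pool.Agent.Lib.P325P

theorem geo {V : Type} [Fintype V] [DecidableEq V] (γ : ℝ) (h0 : 0 ≤ γ)
    (h : (Fintype.card V : ℝ) * γ ≤ 1 / 2) (d0 : ℕ) :
    ∑ S ∈ Finset.univ.filter (fun S : Finset V => d0 < S.card), γ ^ S.card ≤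
      ((Fintype.card V : ℝ) * γ) ^ d0 := by
  set N : ℕ := Fintype.card V with hN
  set X : ℝ := (N : ℝ) * γ with hX
  have hX0 : 0 ≤ X := mul_nonneg (Nat.cast_nonneg _) h0
  rw [Finset.sum_filter, ← Finset.powerset_univ]
  have h1 := Finset.sum_powerset_apply_card (fun m : ℕ => if d0 < m then γ ^ m else 0)
    (x := (Finset.univ : Finset V))
  rw [h1, Finset.card_univ, ← hN]
  have h2 : ∀ m ∈ Finset.range (N + 1), N.choose m • (if d0 < m then γ ^ m else 0) ≤
      if d0 < m then X ^ m else 0 := by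
    intro m _
    split_ifs with hm
    · rw [nsmul_eq_mul, hX, mul_pow]
      have h3 : ((N.choose m : ℕ) : ℝ) ≤ (N : ℝ) ^ m := by
        exact_mod_cast Nat.choose_le_pow N m
      exact mul_le_mul_of_nonneg_right h3 (pow_nonneg h0 _)
    · simp
  refine (Finset.sum_le_sum h2).trans ?_
  have h4 : ∀ n : ℕ, ∑ m ∈ Finset.range (d0 + 1 + n), (if d0 < m then X ^ m else 0) ≤
      X ^ d0 * (1 - (1 / 2) ^ n) := by
    intro n
    induction n with
    | zero =>
      rw [add_zero, Finset.sum_eq_zero (fun m hm => if_neg (by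
        have := Finset.mem_range.1 hm
        omega))]
      simp
    | succ n ih =>
      rw [← add_assoc, Finset.sum_range_succ, if_pos (by omega)]
      have h5 : X ^ (d0 + 1 + n) ≤ X ^ d0 * (1 / 2) ^ (n + 1) := by
        rw [add_assoc, pow_add, add_comm 1 n]
        exact mul_le_mul_of_nonneg_left (pow_le_pow_left₀ hX0 h _) (pow_nonneg hX0 _)
      have h6 : X ^ d0 * (1 - (1 / 2) ^ n) + X ^ d0 * (1 / 2) ^ (n + 1) =
          X ^ d0 * (1 - (1 / 2) ^ (n + 1)) := by ring
      linarith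
  have h7 : Finset.range (N + 1) ⊆ Finset.range (d0 + 1 + N) := by
    intro m hm
    rw [Finset.mem_range] at hm ⊢
    omega
  refine (Finset.sum_le_sum_of_subset_of_nonneg h7 fun m _ _ => ?_).trans ((h4 N).trans ?_)
  · split_ifs
    · exact pow_nonneg hX0 _
    · exact le_rfl
  · have h8 : (0 : ℝ) ≤ (1 / 2) ^ N := by positivity
    have h9 := mul_nonneg (pow_nonneg hX0 d0) h8
    nlinarith

end Pool.Agent.Lib.P325P
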