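import Pool.Agent.Lib.P325P.Defs
import Pool.Agent.Lib.P325P.Base
import Pool.Agent.Lib.P325P.Cm
import Pool.Agent.Lib.P325P.Es
import Pool.Agent.Lib.P325P.EsMul
import Pool.Agent.Lib.P325h.Defs

/-!
Module LamB (2h; black boxes Cm, Es, EsMul). Bounds for the truncated extension of a Sherali-Adams
functional. q = card Ω, N = card V.
PROOF. abs_E_le: if h depends on D, |D| ≤ r and |h| ≤ M, then M ± h ≥ 0 depend on D, so |E h| ≤ M.
lam_sum: linearity (es_sum and map_sum, map_smul). lam_eq: ∑_(|T| ≤ r) es T f = f (the other components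
vanish; sum_es_univ), E additive. lam_ge: for f ≥ 0, |E (es T f)| ≤ (2q)^|T| mean f ≤ (2q)^r mean f
(abs_es_le_mean, es_dep, abs_E_le; 2q ≥ 1) and there are at most (N+1)^r sets with |T| ≤ r (e.g. the map
from functions Fin r → Option V to sets is onto these sets: or ∑_(j ≤ r) choose N j ≤ (N+1)^r).
lam_prod_le: if |J| + |S| ≤ r then T with es T (f g) ≠ 0 is S ∪ T', T' ⊆ J (es_mul, es_zero_of_dep), so
|T| ≤ r and lam_eq applies: Lam (f g) = E (f g); M f ± f g ≥ 0 depends on J ∪ S, so |E (f g)| ≤ M E f.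
lam_prod_abs: only T = S ∪ T', T' ⊆ J, |T| ≤ r contribute, at most 2^|J| terms, each |es T (f g)| =
|es T' f * g| ≤ 2^|J| M, depends on T: abs_E_le. lam_prod_zero: |T| ≤ r < |S| gives ¬ S ⊆ T.
-/

open scoped BigOperators

namespace Pool.Agent.Lib.P325P

open Pool.Agent.Lib.P325h (IsLocalExpectation)

variable {V Ω : Type} [Fintype V] [DecidableEq V] [Fintype Ω] [Nonempty Ω]

set_option linter.unusedSectionVars false

namespace LamBAux

theorem E_const_add (E : ((V → Ω) → ℝ) →ₗ[ℝ] ℝ) (h1 : E (fun _ => 1) = 1) (M : ℝ)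
    (h : (V → Ω) → ℝ) : E (fun y => M + h y) = M + E h := by
  have h2 : (fun y => M + h y) = M • (fun _ : V → Ω => (1 : ℝ)) + h := by
    funext y; simp
  rw [h2, map_add, map_smul, h1]; simp

theorem E_const_sub (E : ((V → Ω) → ℝ) →ₗ[ℝ] ℝ) (h1 : E (fun _ => 1) = 1) (M : ℝ)
    (h : (V → Ω) → ℝ) : E (fun y => M - h y) = M - E h := by
  have h2 : (fun y => M - h y) = M • (fun _ : V → Ω => (1 : ℝ)) - h := by
    funext y; simp
  rw [h2, map_sub, map_smul, h1]; simp

theorem E_mul_add (E : ((V → Ω) → ℝ) →ₗ[ℝ] ℝ) (M : ℝ) (f h : (V → Ω) → ℝ) :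
    E (fun y => M * f y + h y) = M * E f + E h := by
  have h2 : (fun y => M * f y + h y) = M • f + h := by
    funext y; simp
  rw [h2, map_add, map_smul]; simp

theorem E_mul_sub (E : ((V → Ω) → ℝ) →ₗ[ℝ] ℝ) (M : ℝ) (f h : (V → Ω) → ℝ) :
    E (fun y => M * f y - h y) = M * E f - E h := by
  have h2 : (fun y => M * f y - h y) = M • f - h := by
    funext y; simp
  rw [h2, map_sub, map_smul]; simp

theorem E_sum (E : ((V → Ω) → ℝ) →ₗ[ℝ] ℝ) {ι : Type*} (s : Finset ι) (c : ι → ℝ)
    (f : ι → (V → Ω) → ℝ) :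
    E (fun y => ∑ j ∈ s, c j * f j y) = ∑ j ∈ s, c j * E (f j) := by
  have h2 : (fun y => ∑ j ∈ s, c j * f j y) = ∑ j ∈ s, c j • f j := by
    funext y; simp
  rw [h2, map_sum]
  exact Finset.sum_congr rfl fun j _ => by rw [map_smul]; rfl

theorem E_zero (E : ((V → Ω) → ℝ) →ₗ[ℝ] ℝ) {f : (V → Ω) → ℝ} (h : ∀ y, f y = 0) : E f = 0 := by
  have : f = 0 := funext h
  rw [this, map_zero]

theorem card_small (V : Type) [Fintype V] [DecidableEq V] (r : ℕ) :
    (Finset.univ.filter (fun T : Finset V => T.card ≤ r)).card ≤ (Fintype.card V + 1) ^ r := by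
  classical
  have h1 : (Fintype.card V + 1) ^ r = (Finset.univ : Finset (Fin r → Option V)).card := by
    rw [Finset.card_univ, Fintype.card_fun, Fintype.card_option, Fintype.card_fin]
  rw [h1]
  refine Finset.card_le_card_of_surjOn
    (fun φ : Fin r → Option V => Finset.univ.filter fun v => ∃ i, φ i = some v) ?_
  intro T hT
  have hT' : T.card ≤ r := by simpa using hT
  refine ⟨fun i => if h : (i : ℕ) < T.card then some (T.equivFin.symm ⟨i, h⟩ : V) else none,
    by simp, ?_⟩
  ext v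
  simp only [Finset.mem_filter, Finset.mem_univ, true_and]
  constructor
  · rintro ⟨i, hi⟩
    split_ifs at hi with h
    rw [← Option.some.inj hi]
    exact (T.equivFin.symm ⟨i, h⟩).2
  · intro hv
    have h2 := (T.equivFin ⟨v, hv⟩).2
    refine ⟨⟨(T.equivFin ⟨v, hv⟩ : Fin T.card), lt_of_lt_of_le h2 hT'⟩, ?_⟩
    rw [dif_pos h2]
    simp

end LamBAux

open LamBAux

theorem abs_E_le {r : ℕ} {E : ((V → Ω) → ℝ) →ₗ[ℝ] ℝ} (hE : IsLocalExpectation r E)
    {D : Finset V} (hD : D.card ≤ r) {h : (V → Ω) → ℝ} (hh : DependsOn h (D : Set V)) {M : ℝ}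
    (hM : ∀ y, |h y| ≤ M) : |E h| ≤ M := by
  have h1 : 0 ≤ E (fun y => M + h y) := by
    refine hE.nonneg _ D hD (fun x y hxy => ?_) fun y => ?_
    · show M + h x = M + h y
      rw [hh hxy]
    · have := (abs_le.1 (hM y)).1
      linarith
  have h2 : 0 ≤ E (fun y => M - h y) := by
    refine hE.nonneg _ D hD (fun x y hxy => ?_) fun y => ?_
    · show M - h x = M - h y
      rw [hh hxy]
    · have := (abs_le.1 (hM y)).2
      linarith
  rw [E_const_add E hE.one] at h1
  rw [E_const_sub E hE.one] at h2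
  rw [abs_le]
  constructor <;> linarith

theorem lam_sum (r : ℕ) (E : ((V → Ω) → ℝ) →ₗ[ℝ] ℝ) {ι : Type*} (s : Finset ι) (c : ι → ℝ)
    (f : ι → (V → Ω) → ℝ) :
    Lam r E (fun y => ∑ j ∈ s, c j * f j y) = ∑ j ∈ s, c j * Lam r E (f j) := by
  unfold Lam
  simp only [Finset.mul_sum]
  rw [Finset.sum_comm]
  refine Finset.sum_congr rfl fun T _ => ?_
  have h1 : es T (fun y => ∑ j ∈ s, c j * f j y) = fun y => ∑ j ∈ s, c j * es T (f j) y := by
    funext y
    exact es_sum T s c f y
  rw [h1, E_sum]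

theorem lam_eq (r : ℕ) (E : ((V → Ω) → ℝ) →ₗ[ℝ] ℝ) (f : (V → Ω) → ℝ)
    (h : ∀ T : Finset V, r < T.card → ∀ y, es T f y = 0) : Lam r E f = E f := by
  have h1 : f = fun y => ∑ T ∈ (Finset.univ : Finset (Finset V)), (1 : ℝ) * es T f y := by
    funext y
    simp only [one_mul]
    exact (sum_es_univ f y).symm
  have h2 : E f = ∑ T : Finset V, E (es T f) := by
    conv_lhs => rw [h1]
    rw [E_sum]
    simp only [one_mul]
  rw [h2]
  unfold Lam
  refine Finset.sum_subset (Finset.filter_subset _ _) fun T _ hT => ?_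
  simp only [Finset.mem_filter, Finset.mem_univ, true_and, not_le] at hT
  exact E_zero E (h T hT)

theorem lam_ge {r : ℕ} {E : ((V → Ω) → ℝ) →ₗ[ℝ] ℝ} (hE : IsLocalExpectation r E)
    {f : (V → Ω) → ℝ} (hf : ∀ y, 0 ≤ f y) :
    -((2 * (Fintype.card Ω : ℝ) * ((Fintype.card V : ℝ) + 1)) ^ r * mean f) ≤ Lam r E f := by
  have hq : (1 : ℝ) ≤ Fintype.card Ω := by exact_mod_cast Fintype.card_pos
  have hm : 0 ≤ mean f := mean_nonneg hf
  have h1 : ∀ T ∈ Finset.univ.filter (fun T : Finset V => T.card ≤ r),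
      -((2 * (Fintype.card Ω : ℝ)) ^ r * mean f) ≤ E (es T f) := by
    intro T hT
    have hT' : T.card ≤ r := by simpa using hT
    have h2 : |E (es T f)| ≤ (2 * (Fintype.card Ω : ℝ)) ^ T.card * mean f :=
      abs_E_le hE hT' (es_dep T f) (abs_es_le_mean T hf)
    have h3 : (2 * (Fintype.card Ω : ℝ)) ^ T.card ≤ (2 * (Fintype.card Ω : ℝ)) ^ r :=
      pow_le_pow_right₀ (by linarith) hT'
    have h4 := mul_le_mul_of_nonneg_right h3 hm
    have h5 := (abs_le.1 h2).1
    linarith
  have h6 := Finset.card_nsmul_le_sum _ _ _ h1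
  unfold Lam
  refine le_trans ?_ h6
  rw [nsmul_eq_mul]
  have h7 : ((Finset.univ.filter (fun T : Finset V => T.card ≤ r)).card : ℝ) ≤
      ((Fintype.card V : ℝ) + 1) ^ r := by exact_mod_cast card_small V r
  have h8 : 0 ≤ (2 * (Fintype.card Ω : ℝ)) ^ r * mean f := by positivity
  have h9 := mul_le_mul_of_nonneg_right h7 h8
  rw [mul_pow]
  linarith

theorem lam_prod_le {r : ℕ} {E : ((V → Ω) → ℝ) →ₗ[ℝ] ℝ} (hE : IsLocalExpectation r E)
    {J S : Finset V} {f g : (V → Ω) → ℝ} (hf : DependsOn f (J : Set V)) (hf0 : ∀ y, 0 ≤ f y)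
    (hg : PureAt S g) (hJS : Disjoint J S) {M : ℝ} (hM : ∀ y, |g y| ≤ M)
    (hr : J.card + S.card ≤ r) : |Lam r E (fun y => f y * g y)| ≤ M * E f := by
  have h1 : Lam r E (fun y => f y * g y) = E (fun y => f y * g y) := by
    refine lam_eq r E _ fun T hT y => ?_
    rw [es_mul hf hg hJS T y]
    split_ifs with hST
    · rw [es_zero_of_dep hf, zero_mul]
      intro hsub
      have h2 := Finset.card_le_card hsub
      have h3 := Finset.card_sdiff_add_card_eq_card hST
      omega
    · rfl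
  have hcard : (J ∪ S).card ≤ r := (Finset.card_union_le J S).trans hr
  have hdf : ∀ x y : V → Ω, (∀ i ∈ ((J ∪ S : Finset V) : Set V), x i = y i) → f x = f y :=
    fun x y hxy => hf fun i hi => hxy i (by
      rw [Finset.coe_union]; exact Or.inl hi)
  have hdg : ∀ x y : V → Ω, (∀ i ∈ ((J ∪ S : Finset V) : Set V), x i = y i) → g x = g y :=
    fun x y hxy => hg.1 fun i hi => hxy i (by
      rw [Finset.coe_union]; exact Or.inr hi)
  have h2 : 0 ≤ E (fun y => M * f y + f y * g y) := by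
    refine hE.nonneg _ (J ∪ S) hcard (fun x y hxy => ?_) fun y => ?_
    · show M * f x + f x * g x = M * f y + f y * g y
      rw [hdf x y hxy, hdg x y hxy]
    · have h3 := (abs_le.1 (hM y)).1
      have h4 := hf0 y
      nlinarith
  have h3 : 0 ≤ E (fun y => M * f y - f y * g y) := by
    refine hE.nonneg _ (J ∪ S) hcard (fun x y hxy => ?_) fun y => ?_
    · show M * f x - f x * g x = M * f y - f y * g y
      rw [hdf x y hxy, hdg x y hxy]
    · have h3 := (abs_le.1 (hM y)).2
      have h4 := hf0 y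
      nlinarith
  rw [E_mul_add] at h2
  rw [E_mul_sub] at h3
  rw [h1, abs_le]
  constructor <;> linarith

theorem lam_prod_abs {r : ℕ} {E : ((V → Ω) → ℝ) →ₗ[ℝ] ℝ} (hE : IsLocalExpectation r E)
    {J S : Finset V} {f g : (V → Ω) → ℝ} (hf : DependsOn f (J : Set V)) (hf0 : ∀ y, 0 ≤ f y)
    (hf1 : ∀ y, f y ≤ 1) (hg : PureAt S g) (hJS : Disjoint J S) {M : ℝ} (hM : ∀ y, |g y| ≤ M) :
    |Lam r E (fun y => f y * g y)| ≤ 4 ^ J.card * M := by
  classical
  have hM0 : 0 ≤ M := by
    obtain ⟨ω⟩ := ‹Nonempty Ω›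
    exact (abs_nonneg _).trans (hM fun _ => ω)
  set A : Finset (Finset V) := J.powerset.image (fun T' => S ∪ T') with hA
  have hAc : A.card ≤ 2 ^ J.card := by
    rw [← Finset.card_powerset]
    exact Finset.card_image_le
  have hf2 : ∀ y, |f y| ≤ 1 := fun y => abs_le.2 ⟨by have := hf0 y; linarith, hf1 y⟩
  have h1 : ∀ T : Finset V, T.card ≤ r → |E (es T (fun y => f y * g y))| ≤
      if T ∈ A then 2 ^ J.card * M else 0 := by
    intro T hT
    by_cases hTA : T ∈ A
    · rw [if_pos hTA]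
      refine abs_E_le hE hT (es_dep T _) fun y => ?_
      rw [es_mul hf hg hJS T y]
      split_ifs with hST
      · rw [abs_mul]
        have h2 := abs_es_le (T \ S) hf2 y
        rw [mul_one] at h2
        have h3 : (T \ S).card ≤ J.card := by
          rw [hA, Finset.mem_image] at hTA
          obtain ⟨T', hT', hTT⟩ := hTA
          rw [Finset.mem_powerset] at hT'
          refine Finset.card_le_card fun v hv => ?_
          rw [← hTT, Finset.mem_sdiff, Finset.mem_union] at hv
          rcases hv.1 with h4 | h4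
          · exact absurd h4 hv.2
          · exact hT' h4
        have h4 : (2 : ℝ) ^ (T \ S).card ≤ 2 ^ J.card := pow_le_pow_right₀ (by norm_num) h3
        exact mul_le_mul (h2.trans h4) (hM y) (abs_nonneg _) (by positivity)
      · rw [abs_zero]; positivity
    · rw [if_neg hTA]
      refine le_of_eq ?_
      rw [abs_eq_zero]
      refine E_zero E fun y => ?_
      rw [es_mul hf hg hJS T y]
      split_ifs with hST
      · rw [es_zero_of_dep hf, zero_mul]
        intro hsub
        apply hTA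
        rw [hA, Finset.mem_image]
        exact ⟨T \ S, Finset.mem_powerset.2 hsub, Finset.union_sdiff_of_subset hST⟩
      · rfl
  unfold Lam
  refine (Finset.abs_sum_le_sum_abs _ _).trans ?_
  have h2 : ∑ T ∈ Finset.univ.filter (fun T : Finset V => T.card ≤ r),
      |E (es T (fun y => f y * g y))| ≤
      ∑ T ∈ Finset.univ.filter (fun T : Finset V => T.card ≤ r),
        if T ∈ A then 2 ^ J.card * M else 0 :=
    Finset.sum_le_sum fun T hT => h1 T (by simpa using hT)
  have h3 : ∑ T ∈ Finset.univ.filter (fun T : Finset V => T.card ≤ r),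
      (if T ∈ A then 2 ^ J.card * M else 0) ≤
      ∑ T : Finset V, (if T ∈ A then 2 ^ J.card * M else 0) :=
    Finset.sum_le_sum_of_subset_of_nonneg (Finset.filter_subset _ _) fun T _ _ => by
      split_ifs <;> positivity
  have h4 : ∑ T : Finset V, (if T ∈ A then 2 ^ J.card * M else 0) =
      (A.card : ℝ) * (2 ^ J.card * M) := by
    rw [← Finset.sum_filter, Finset.filter_mem_eq_inter, Finset.univ_inter, Finset.sum_const,
      nsmul_eq_mul]
  have h5 : (A.card : ℝ) ≤ 2 ^ J.card := by exact_mod_cast hAc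
  have h6 : (A.card : ℝ) * (2 ^ J.card * M) ≤ 2 ^ J.card * (2 ^ J.card * M) :=
    mul_le_mul_of_nonneg_right h5 (by positivity)
  have h7 : (2 : ℝ) ^ J.card * (2 ^ J.card * M) = 4 ^ J.card * M := by
    rw [← mul_assoc, ← mul_pow]; norm_num
  linarith

theorem lam_prod_zero (r : ℕ) (E : ((V → Ω) → ℝ) →ₗ[ℝ] ℝ) {J S : Finset V}
    {f g : (V → Ω) → ℝ} (hf : DependsOn f (J : Set V)) (hg : PureAt S g) (hJS : Disjoint J S)
    (hr : r < S.card) : Lam r E (fun y => f y * g y) = 0 := by
  unfold Lam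
  refine Finset.sum_eq_zero fun T hT => ?_
  have hT' : T.card ≤ r := by simpa using hT
  refine E_zero E fun y => ?_
  rw [es_mul hf hg hJS T y, if_neg]
  intro hST
  have := Finset.card_le_card hST
  omega

end Pool.Agent.Lib.P325P
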