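import Mathlib

/-!
Module ParaP (2.5h; Mathlib only). Choice of the parameters.
PROOF. Given N let n be maximal with n^6 ≤ N (n ≥ 1; n → ∞ with N; N < (n+1)^6 and 2 N ≤ (2 n)^7 for
n ≥ some constant), r = ⌈(2 n)^e⌉₊. Then r ≥ (2n)^e ≥ (2N)^(e/7), r → ∞, r ≤ (2n)^e + 1 ≤ 2 n + 1 (e ≤ 1/4
gives r ≤ 2 (2n)^(1/4)). B = (2 k (2 n + 1))^r, τ = exp(-2r)/B, so B τ = exp(-2r) and
(exp r + 1) * 3 exp(-2r) ≤ 6 exp(-r) < η for large r. log (1/τ) = r (2 + log (2 k (2n+1))).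
√(n^5)^j for 2 j > r: √√(n^5) ≥ n^(5/4) (n^5 as a real power: √√(n^5) = n^(5/4)), √(n^5)^j =
(n^(5/4))^(2 j) ≥ (n^(5/4))^r * ... and n^(5/4) > exp 2 * 2 k (2 n + 1) for large n, so
τ √(n^5)^j > 1. Last condition: L + 1 ≤ r (log k + 2 + log (2k(2n+1))) + 1 = O(n^(1/4) log n), so the
left side is O(n * n^(1/4)... / n^(5/4)): 4 k * 2 n * exp 1 * k * √(L+1) / n^(5/4) = O(n^(-1/4) *
√(n^(1/4) log n)) = O(n^(-1/8) √(log n)) → 0. (All `eventually` statements as n → ∞; N → ∞ gives n → ∞.)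
-/

open scoped BigOperators

namespace Pool.Agent.Lib.P325P

namespace ParaPAux

open Filter Topology

theorem root6 (n1 N : ℕ) (h : n1 ^ 6 ≤ N) : ∃ n, n1 ≤ n ∧ n ^ 6 ≤ N ∧ N < (n + 1) ^ 6 := by
  have h1 : n1 ≤ N := (Nat.le_self_pow (by norm_num) n1).trans h
  refine ⟨Nat.findGreatest (fun n => n ^ 6 ≤ N) N, Nat.le_findGreatest h1 h, ?_, ?_⟩
  · exact Nat.findGreatest_spec (P := fun n => n ^ 6 ≤ N) (m := n1) h1 h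
  · by_contra hcon
    push Not at hcon
    have h2 : Nat.findGreatest (fun n => n ^ 6 ≤ N) N + 1 ≤ N :=
      (Nat.le_self_pow (by norm_num) _).trans hcon
    exact Nat.findGreatest_is_greatest (P := fun n => n ^ 6 ≤ N) (Nat.lt_succ_self _) h2 hcon

theorem sqrt_sqrt {n : ℕ} :
    Real.sqrt (Real.sqrt ((n : ℝ) ^ 5)) = (n : ℝ) ^ (5 / 4 : ℝ) := by
  have hn : (0 : ℝ) ≤ n := Nat.cast_nonneg n
  rw [Real.sqrt_eq_rpow, Real.sqrt_eq_rpow, ← Real.rpow_natCast (n : ℝ) 5,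
    ← Real.rpow_mul hn, ← Real.rpow_mul hn]
  norm_num

/-- the bound for the logarithms -/
theorem bound_W {e : ℝ} (he : 0 < e) (he4 : e ≤ 1 / 4) {k n : ℕ} (hk : 1 ≤ k) (hn : 1 ≤ n)
    {r : ℕ} (hr : (r : ℝ) ≤ (2 * (n : ℝ)) ^ e + 1) :
    (r : ℝ) * Real.log k + ((r : ℝ) * 2 + (r : ℝ) * Real.log (2 * (k : ℝ) * (2 * (n : ℝ) + 1)))
      + 1 ≤ 154 * (k : ℝ) * (n : ℝ) ^ (3 / 8 : ℝ) := by
  have hn1 : (1 : ℝ) ≤ n := by exact_mod_cast hn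
  have hk1 : (1 : ℝ) ≤ k := by exact_mod_cast hk
  have hn0 : (0 : ℝ) < n := by linarith
  have h14 : (1 : ℝ) ≤ (n : ℝ) ^ (1 / 4 : ℝ) := Real.one_le_rpow hn1 (by norm_num)
  have h18 : (1 : ℝ) ≤ (n : ℝ) ^ (1 / 8 : ℝ) := Real.one_le_rpow hn1 (by norm_num)
  have h38 : (1 : ℝ) ≤ (n : ℝ) ^ (3 / 8 : ℝ) := Real.one_le_rpow hn1 (by norm_num)
  have hr3 : (r : ℝ) ≤ 3 * (n : ℝ) ^ (1 / 4 : ℝ) := by
    have h1 : (2 * (n : ℝ)) ^ e ≤ (2 * (n : ℝ)) ^ (1 / 4 : ℝ) :=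
      Real.rpow_le_rpow_of_exponent_le (by linarith) he4
    have h2 : (2 * (n : ℝ)) ^ (1 / 4 : ℝ) = (2 : ℝ) ^ (1 / 4 : ℝ) * (n : ℝ) ^ (1 / 4 : ℝ) :=
      Real.mul_rpow (by norm_num) hn0.le
    have h3 : (2 : ℝ) ^ (1 / 4 : ℝ) ≤ 2 := by
      have := Real.rpow_le_rpow_of_exponent_le (x := 2) (by norm_num)
        (show (1 / 4 : ℝ) ≤ 1 by norm_num)
      rwa [Real.rpow_one] at this
    nlinarith
  have hD : Real.log (2 * (k : ℝ) * (2 * (n : ℝ) + 1)) ≤ 48 * (k : ℝ) * (n : ℝ) ^ (1 / 8 : ℝ) := by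
    have hD0 : 0 < 2 * (k : ℝ) * (2 * (n : ℝ) + 1) := by positivity
    have h1 := Real.log_le_rpow_div hD0.le (show (0 : ℝ) < 1 / 8 by norm_num)
    have h2 : 2 * (k : ℝ) * (2 * (n : ℝ) + 1) ≤ (6 * k) * n := by nlinarith
    have h3 : (2 * (k : ℝ) * (2 * (n : ℝ) + 1)) ^ (1 / 8 : ℝ) ≤ ((6 * k) * n) ^ (1 / 8 : ℝ) :=
      Real.rpow_le_rpow hD0.le h2 (by norm_num)
    have h4 : ((6 * (k : ℝ)) * n) ^ (1 / 8 : ℝ) = (6 * k) ^ (1 / 8 : ℝ) * (n : ℝ) ^ (1 / 8 : ℝ) :=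
      Real.mul_rpow (by positivity) hn0.le
    have h5 : (6 * (k : ℝ)) ^ (1 / 8 : ℝ) ≤ 6 * k := by
      have := Real.rpow_le_rpow_of_exponent_le (x := 6 * (k : ℝ)) (by linarith)
        (show (1 / 8 : ℝ) ≤ 1 by norm_num)
      rwa [Real.rpow_one] at this
    have h6 : (6 * (k : ℝ)) ^ (1 / 8 : ℝ) * (n : ℝ) ^ (1 / 8 : ℝ) ≤
        6 * k * (n : ℝ) ^ (1 / 8 : ℝ) := mul_le_mul_of_nonneg_right h5 (by positivity)
    have h7 : (2 * (k : ℝ) * (2 * (n : ℝ) + 1)) ^ (1 / 8 : ℝ) / (1 / 8) =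
        8 * (2 * (k : ℝ) * (2 * (n : ℝ) + 1)) ^ (1 / 8 : ℝ) := by ring
    rw [h7] at h1
    linarith
  have hlk : Real.log k ≤ k := by
    have := Real.log_le_sub_one_of_pos (show (0 : ℝ) < k by linarith)
    linarith
  have hlk0 : 0 ≤ Real.log k := Real.log_nonneg hk1
  have hsum : Real.log k + 2 + Real.log (2 * (k : ℝ) * (2 * (n : ℝ) + 1)) ≤
      51 * (k : ℝ) * (n : ℝ) ^ (1 / 8 : ℝ) := by
    have h1 : (k : ℝ) ≤ k * (n : ℝ) ^ (1 / 8 : ℝ) := by nlinarith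
    have h2 : (2 : ℝ) ≤ 2 * (k * (n : ℝ) ^ (1 / 8 : ℝ)) := by nlinarith
    linarith
  have hprod : (n : ℝ) ^ (1 / 4 : ℝ) * (n : ℝ) ^ (1 / 8 : ℝ) = (n : ℝ) ^ (3 / 8 : ℝ) := by
    rw [← Real.rpow_add hn0]
    norm_num
  have hr0 : (0 : ℝ) ≤ r := Nat.cast_nonneg r
  have h1 : (r : ℝ) * (Real.log k + 2 + Real.log (2 * (k : ℝ) * (2 * (n : ℝ) + 1))) ≤
      (3 * (n : ℝ) ^ (1 / 4 : ℝ)) * (51 * (k : ℝ) * (n : ℝ) ^ (1 / 8 : ℝ)) :=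
    (mul_le_mul_of_nonneg_left hsum hr0).trans
      (mul_le_mul_of_nonneg_right hr3 (by positivity))
  have h2 : (3 * (n : ℝ) ^ (1 / 4 : ℝ)) * (51 * (k : ℝ) * (n : ℝ) ^ (1 / 8 : ℝ)) =
      153 * k * (n : ℝ) ^ (3 / 8 : ℝ) := by
    rw [← hprod]
    ring
  have h3 : (1 : ℝ) ≤ k * (n : ℝ) ^ (3 / 8 : ℝ) := by nlinarith
  have h4 : (r : ℝ) * Real.log k + ((r : ℝ) * 2 +
      (r : ℝ) * Real.log (2 * (k : ℝ) * (2 * (n : ℝ) + 1))) + 1 =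
      (r : ℝ) * (Real.log k + 2 + Real.log (2 * (k : ℝ) * (2 * (n : ℝ) + 1))) + 1 := by ring
  rw [h4]
  rw [h2] at h1
  linarith

theorem core {e η : ℝ} (he : 0 < e) (he4 : e ≤ 1 / 4) {k n N : ℕ} (hk : 1 ≤ k)
    (hn : 1 ≤ n) (hN' : N < (n + 1) ^ 6)
    (hb : 1 < (2 * (n : ℝ)) ^ e) (hc : 6 * Real.exp (-(2 * (n : ℝ)) ^ e) < η)
    (hd : Real.exp 2 * (2 * (k : ℝ) * (2 * (n : ℝ) + 1)) < (n : ℝ) ^ (5 / 4 : ℝ))
    (hE : 1232 * Real.exp 1 * (k : ℝ) ^ 3 * (n : ℝ) ^ (-(1 / 16) : ℝ) ≤ Real.exp (-4)) :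
    ∃ (r : ℕ) (τ : ℝ), 2 ≤ r ∧
      (∀ r0 : ℕ, (2 * (n : ℝ)) ^ e ≤ r0 → r ≤ r0) ∧
      (2 * (N : ℝ)) ^ (e / 7) ≤ r ∧ 0 < τ ∧
      (Real.exp r + 1) * (2 * ((2 * (k : ℝ) * (2 * (n : ℝ) + 1)) ^ r * τ) +
        Real.exp (-(2 * (r : ℝ)))) < η ∧
      (∀ j : ℕ, r < 2 * j → 1 < τ * Real.sqrt ((n : ℝ) ^ 5) ^ j) ∧
      4 * (k : ℝ) * (2 * (n : ℝ) * (Real.exp 1 * (k : ℝ) *
        Real.sqrt ((r : ℝ) * Real.log k + Real.log (1 / τ) + 1) /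
          Real.sqrt (Real.sqrt ((n : ℝ) ^ 5)))) ≤ Real.exp (-4) := by
  have hn1 : (1 : ℝ) ≤ n := by exact_mod_cast hn
  have hk1 : (1 : ℝ) ≤ k := by exact_mod_cast hk
  have hn0 : (0 : ℝ) < n := by linarith
  have hD0 : 0 < 2 * (k : ℝ) * (2 * (n : ℝ) + 1) := by positivity
  set D : ℝ := 2 * (k : ℝ) * (2 * (n : ℝ) + 1) with hD
  set r : ℕ := ⌈(2 * (n : ℝ)) ^ e⌉₊ with hr
  have hr1 : (2 * (n : ℝ)) ^ e ≤ r := Nat.le_ceil _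
  have hr2 : (r : ℝ) ≤ (2 * (n : ℝ)) ^ e + 1 := (Nat.ceil_lt_add_one (by positivity)).le
  have hr3 : 2 ≤ r := by
    have : (1 : ℝ) < r := lt_of_lt_of_le hb hr1
    have h1 : 1 < r := by exact_mod_cast this
    omega
  have hτ : 0 < Real.exp (-(2 * (r : ℝ))) / D ^ r := by positivity
  have hDr : 0 < D ^ r := by positivity
  refine ⟨r, Real.exp (-(2 * (r : ℝ))) / D ^ r, hr3, fun r0 h0 => Nat.ceil_le.2 h0, ?_, hτ, ?_,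
    ?_, ?_⟩
  · have h1 : 2 * (N : ℝ) ≤ (2 * (n : ℝ)) ^ (7 : ℝ) := by
      have h2 : (N : ℝ) ≤ ((n : ℝ) + 1) ^ 6 := by exact_mod_cast hN'.le
      have h3 : ((n : ℝ) + 1) ^ 6 ≤ (2 * (n : ℝ)) ^ 6 :=
        pow_le_pow_left₀ (by linarith) (by linarith) 6
      have h4 : (2 * (n : ℝ)) ^ (7 : ℝ) = (2 * (n : ℝ)) ^ 6 * (2 * n) := by
        rw [show (7 : ℝ) = ((7 : ℕ) : ℝ) by norm_num, Real.rpow_natCast]
        ring
      rw [h4]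
      have h5 : (0 : ℝ) < (2 * (n : ℝ)) ^ 6 := by positivity
      nlinarith
    have h2 : (2 * (N : ℝ)) ^ (e / 7) ≤ ((2 * (n : ℝ)) ^ (7 : ℝ)) ^ (e / 7) :=
      Real.rpow_le_rpow (by positivity) h1 (by positivity)
    rw [← Real.rpow_mul (by positivity)] at h2
    have h3 : (7 : ℝ) * (e / 7) = e := by ring
    rw [h3] at h2
    exact h2.trans hr1
  · have h1 : D ^ r * (Real.exp (-(2 * (r : ℝ))) / D ^ r) = Real.exp (-(2 * (r : ℝ))) := by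
      field_simp
    rw [h1]
    have h2 : Real.exp (-(2 * (r : ℝ))) = Real.exp (-(r : ℝ)) * Real.exp (-(r : ℝ)) := by
      rw [← Real.exp_add]
      congr 1
      ring
    have h3 : Real.exp r * Real.exp (-(r : ℝ)) = 1 := by
      rw [← Real.exp_add]
      simp
    have h4 : Real.exp (-(r : ℝ)) ≤ 1 := Real.exp_le_one_iff.2 (by
      have : (0 : ℝ) ≤ r := Nat.cast_nonneg r
      linarith)
    have h5 : 0 < Real.exp (-(r : ℝ)) := Real.exp_pos _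
    have h6 : Real.exp (-(r : ℝ)) ≤ Real.exp (-(2 * (n : ℝ)) ^ e) :=
      Real.exp_le_exp.2 (by linarith)
    have h7 : (Real.exp r + 1) * (2 * Real.exp (-(2 * (r : ℝ))) + Real.exp (-(2 * (r : ℝ)))) =
        3 * (Real.exp r * Real.exp (-(r : ℝ))) * Real.exp (-(r : ℝ)) +
          3 * Real.exp (-(r : ℝ)) * Real.exp (-(r : ℝ)) := by
      rw [h2]
      ring
    rw [h7, h3]
    nlinarith
  · intro j hj
    have hs1 : (1 : ℝ) ≤ (n : ℝ) ^ (5 / 4 : ℝ) := Real.one_le_rpow hn1 (by norm_num)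
    have h1 : Real.sqrt ((n : ℝ) ^ 5) = ((n : ℝ) ^ (5 / 4 : ℝ)) ^ 2 := by
      rw [← sqrt_sqrt, Real.sq_sqrt (Real.sqrt_nonneg _)]
    rw [h1, ← pow_mul]
    have h2 : ((n : ℝ) ^ (5 / 4 : ℝ)) ^ r ≤ ((n : ℝ) ^ (5 / 4 : ℝ)) ^ (2 * j) :=
      pow_le_pow_right₀ hs1 hj.le
    have h3 : (Real.exp 2 * D) ^ r < ((n : ℝ) ^ (5 / 4 : ℝ)) ^ r :=
      pow_lt_pow_left₀ hd (by positivity) (by omega)
    have h4 : Real.exp (-(2 * (r : ℝ))) / D ^ r * (Real.exp 2 * D) ^ r = 1 := by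
      rw [mul_pow (Real.exp 2) D r, ← Real.exp_nat_mul]
      have h5 : Real.exp (-(2 * (r : ℝ))) / D ^ r * (Real.exp ((r : ℝ) * 2) * D ^ r) =
          Real.exp (-(2 * (r : ℝ))) * Real.exp ((r : ℝ) * 2) := by
        field_simp
      rw [h5, ← Real.exp_add]
      have h6 : -(2 * (r : ℝ)) + (r : ℝ) * 2 = 0 := by ring
      rw [h6, Real.exp_zero]
    calc (1 : ℝ) = Real.exp (-(2 * (r : ℝ))) / D ^ r * (Real.exp 2 * D) ^ r := h4.symm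
      _ < Real.exp (-(2 * (r : ℝ))) / D ^ r * ((n : ℝ) ^ (5 / 4 : ℝ)) ^ r :=
        mul_lt_mul_of_pos_left h3 hτ
      _ ≤ _ := mul_le_mul_of_nonneg_left h2 hτ.le
  · have h1 : Real.log (1 / (Real.exp (-(2 * (r : ℝ))) / D ^ r)) =
        (r : ℝ) * 2 + (r : ℝ) * Real.log D := by
      rw [one_div_div, Real.log_div hDr.ne' (Real.exp_pos _).ne', Real.log_pow, Real.log_exp]
      ring
    rw [h1, sqrt_sqrt]
    have h2 := bound_W he he4 hk hn hr2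
    rw [← hD] at h2
    have h3 : Real.sqrt ((r : ℝ) * Real.log k + ((r : ℝ) * 2 + (r : ℝ) * Real.log D) + 1) ≤
        154 * (k : ℝ) * (n : ℝ) ^ (3 / 16 : ℝ) := by
      have h4 : Real.sqrt (154 * (k : ℝ) * (n : ℝ) ^ (3 / 8 : ℝ)) ≤
          154 * (k : ℝ) * (n : ℝ) ^ (3 / 16 : ℝ) := by
        rw [Real.sqrt_le_left (by positivity), mul_pow, ← Real.rpow_natCast ((n : ℝ) ^ _) 2,
          ← Real.rpow_mul hn0.le]
        have h5 : (3 / 16 : ℝ) * ((2 : ℕ) : ℝ) = 3 / 8 := by norm_num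
        rw [h5]
        refine mul_le_mul_of_nonneg_right ?_ (by positivity)
        nlinarith
      exact (Real.sqrt_le_sqrt h2).trans h4
    have h4 : 4 * (k : ℝ) * (2 * (n : ℝ) * (Real.exp 1 * (k : ℝ) *
        Real.sqrt ((r : ℝ) * Real.log k + ((r : ℝ) * 2 + (r : ℝ) * Real.log D) + 1) /
          (n : ℝ) ^ (5 / 4 : ℝ))) ≤ 4 * (k : ℝ) * (2 * (n : ℝ) * (Real.exp 1 * (k : ℝ) *
        (154 * (k : ℝ) * (n : ℝ) ^ (3 / 16 : ℝ)) / (n : ℝ) ^ (5 / 4 : ℝ))) := by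
      gcongr
    refine h4.trans (le_trans (le_of_eq ?_) hE)
    have h5 : (n : ℝ) ^ (-(1 / 16) : ℝ) = n * (n : ℝ) ^ (3 / 16 : ℝ) / (n : ℝ) ^ (5 / 4 : ℝ) := by
      have h6 : (n : ℝ) * (n : ℝ) ^ (3 / 16 : ℝ) = (n : ℝ) ^ (1 + 3 / 16 : ℝ) := by
        rw [Real.rpow_add hn0, Real.rpow_one]
      rw [h6, ← Real.rpow_sub hn0]
      norm_num
    rw [h5]
    ring

end ParaPAux

open Filter Topology in
theorem paraP (e η : ℝ) (he : 0 < e) (he4 : e ≤ 1 / 4) (hη : 0 < η) (k n0 : ℕ) (hk : 1 ≤ k) :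
    ∃ N0 : ℕ, ∀ N ≥ N0, ∃ (n r : ℕ) (τ : ℝ), n0 ≤ n ∧ 1 ≤ n ∧ n * n ^ 5 ≤ N ∧ 2 ≤ r ∧
      (∀ r0 : ℕ, (2 * (n : ℝ)) ^ e ≤ r0 → r ≤ r0) ∧
      (2 * (N : ℝ)) ^ (e / 7) ≤ r ∧ 0 < τ ∧
      (Real.exp r + 1) * (2 * ((2 * (k : ℝ) * (2 * (n : ℝ) + 1)) ^ r * τ) +
        Real.exp (-(2 * (r : ℝ)))) < η ∧
      (∀ j : ℕ, r < 2 * j → 1 < τ * Real.sqrt ((n : ℝ) ^ 5) ^ j) ∧
      4 * (k : ℝ) * (2 * (n : ℝ) * (Real.exp 1 * (k : ℝ) *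
        Real.sqrt ((r : ℝ) * Real.log k + Real.log (1 / τ) + 1) /
          Real.sqrt (Real.sqrt ((n : ℝ) ^ 5)))) ≤ Real.exp (-4) := by
  have hk1 : (1 : ℝ) ≤ k := by exact_mod_cast hk
  have hk0 : (0 : ℝ) < k := by linarith
  have tn : Tendsto (fun n : ℕ => (n : ℝ)) atTop atTop := tendsto_natCast_atTop_atTop
  have t2n : Tendsto (fun n : ℕ => 2 * (n : ℝ)) atTop atTop :=
    tn.const_mul_atTop (by norm_num)
  have te : Tendsto (fun n : ℕ => (2 * (n : ℝ)) ^ e) atTop atTop :=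
    (tendsto_rpow_atTop he).comp t2n
  have hb : ∀ᶠ n : ℕ in atTop, 1 < (2 * (n : ℝ)) ^ e := te.eventually_gt_atTop 1
  have hc : ∀ᶠ n : ℕ in atTop, 6 * Real.exp (-(2 * (n : ℝ)) ^ e) < η := by
    have h1 : Tendsto (fun n : ℕ => 6 * Real.exp (-(2 * (n : ℝ)) ^ e)) atTop (𝓝 (6 * 0)) :=
      (Real.tendsto_exp_neg_atTop_nhds_zero.comp te).const_mul 6
    rw [mul_zero] at h1
    exact h1.eventually_lt_const hη
  have hd : ∀ᶠ n : ℕ in atTop,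
      Real.exp 2 * (2 * (k : ℝ) * (2 * (n : ℝ) + 1)) < (n : ℝ) ^ (5 / 4 : ℝ) := by
    have h1 : Tendsto (fun n : ℕ => (n : ℝ) ^ (1 / 4 : ℝ)) atTop atTop :=
      (tendsto_rpow_atTop (by norm_num)).comp tn
    filter_upwards [h1.eventually_gt_atTop (Real.exp 2 * (6 * k)), eventually_ge_atTop 1]
      with n hn hn1
    have hn1' : (1 : ℝ) ≤ n := by exact_mod_cast hn1
    have hn0 : (0 : ℝ) < n := by linarith
    have h2 : (n : ℝ) ^ (5 / 4 : ℝ) = n * (n : ℝ) ^ (1 / 4 : ℝ) := by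
      have : (5 / 4 : ℝ) = 1 + 1 / 4 := by norm_num
      rw [this, Real.rpow_add hn0, Real.rpow_one]
    rw [h2]
    have h3 : 2 * (k : ℝ) * (2 * (n : ℝ) + 1) ≤ 6 * k * n := by nlinarith
    have h4 : Real.exp 2 * (2 * (k : ℝ) * (2 * (n : ℝ) + 1)) ≤ Real.exp 2 * (6 * k * n) :=
      mul_le_mul_of_nonneg_left h3 (Real.exp_pos _).le
    have h5 : (n : ℝ) * (Real.exp 2 * (6 * k)) < n * (n : ℝ) ^ (1 / 4 : ℝ) :=
      mul_lt_mul_of_pos_left hn hn0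
    nlinarith
  have hE : ∀ᶠ n : ℕ in atTop,
      1232 * Real.exp 1 * (k : ℝ) ^ 3 * (n : ℝ) ^ (-(1 / 16) : ℝ) ≤ Real.exp (-4) := by
    have h1 : Tendsto (fun n : ℕ => 1232 * Real.exp 1 * (k : ℝ) ^ 3 *
        (n : ℝ) ^ (-(1 / 16) : ℝ)) atTop (𝓝 (1232 * Real.exp 1 * (k : ℝ) ^ 3 * 0)) :=
      ((tendsto_rpow_neg_atTop (by norm_num : (0 : ℝ) < 1 / 16)).comp tn).const_mul _
    rw [mul_zero] at h1
    exact h1.eventually_le_const (Real.exp_pos _)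
  obtain ⟨n1, hn1⟩ := (((hb.and hc).and (hd.and hE)).and
    ((eventually_ge_atTop n0).and (eventually_ge_atTop 1))).exists_forall_of_atTop
  refine ⟨n1 ^ 6, fun N hN => ?_⟩
  obtain ⟨n, h1, h2, h3⟩ := ParaPAux.root6 n1 N hN
  obtain ⟨⟨⟨gb, gc⟩, gd, gE⟩, g1, g2⟩ := hn1 n h1
  obtain ⟨r, τ, h4⟩ := ParaPAux.core he he4 hk g2 h3 gb gc gd gE
  refine ⟨n, r, τ, g1, g2, ?_, h4⟩
  have : n * n ^ 5 = n ^ 6 := by ring
  rw [this]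
  exact h2

end Pool.Agent.Lib.P325P
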