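import Pool.Agent.Lib.P325P.Defs
import Pool.Agent.Lib.P325P.Base
import Pool.Agent.Lib.P325P.Cm
import Pool.Agent.Lib.P325P.CmMul
import Pool.Agent.Lib.P325P.Es
import Pool.Agent.Lib.P325P.EsLift

/-!
Module PartId (2h; black boxes Base, Cm, CmMul, Es, EsLift). The lift of a part on which the copies of
the vertices of J are fixed. q = card Ω.
PROOF. avg_ind: the mean over β of q^|J| ind J β y is 1 (ind_comm, mean_ind). part_id: let ind J β y = 1
(y = β on J), and let u z ≠ 0, so z = α on J. ∑_(S ⊆ univ \ J) es S g = cm (univ \ J) g (sum_es) for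
g = lift z (res J α β v), and cm (univ \ J) g y = mean_y' g (y on univ \ J, y' on J); here
g y'' = mean_x q^|J| 1[y'' = β on J] v (p ↦ if p.2 = z p.1 then y'' p.1 else x p), because for i ∈ J the
copy (i, α i) = (i, z i) has the label y'' i. So the mean over y' is mean_y' (q^|J| 1[y' = β on J]) *
lift z v y (for y' = β = y on J the labeling y'' is y) = lift z v y (mean_ind). If u z = 0 both terms
vanish. mean_ind_avg: mean_y (ind J β y * lift z v y) = mean_y mean_x (ind * v) = mean_x (1[x (i, z i) =
β i on J] v x) (mean_graph) = mean (res J α β v) / q^|J| for z = α on J; sum over z.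
mean_res: mean over β of q^|J| ind J β (..) is 1. g_pure: es S (fun y => mean_z u z es S (..) y) by es_sum
(the mean is a finite sum with coefficients) and es_es, es_dep.
-/

open scoped BigOperators

namespace Pool.Agent.Lib.P325P

variable {V K Ω : Type} [Fintype V] [DecidableEq V] [Fintype K] [DecidableEq K] [Fintype Ω]
  [Nonempty Ω]

theorem avg_ind (J : Finset V) (y : V → Ω) :
    mean (fun β : V → Ω => (Fintype.card Ω : ℝ) ^ J.card * ind J β y) = 1 := by
  have hq : (Fintype.card Ω : ℝ) ^ J.card ≠ 0 :=
    pow_ne_zero _ (Nat.cast_ne_zero.2 Fintype.card_ne_zero)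
  rw [mean_mul_left, mean_congr (fun β => ind_comm J β y), mean_ind, mul_inv_cancel₀ hq]

/-- the lift of the restriction -/
private theorem lift_res (J : Finset V) (α : V → K) (β : V → Ω) (z : V → K)
    (hz : ∀ i ∈ J, z i = α i) (v : (V × K → Ω) → ℝ) (y : V → Ω) :
    lift z (res J α β v) y = (Fintype.card Ω : ℝ) ^ J.card * ind J β y * lift z v y := by
  unfold lift
  rw [← mean_mul_left]
  refine mean_congr fun x => ?_
  unfold res
  have h : ind J β (fun i => if α i = z i then y i else x (i, α i)) = ind J β y := by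
    refine ind_dep J β ?_
    intro i hi
    exact if_pos (hz i hi).symm
  exact congrArg (fun t => (Fintype.card Ω : ℝ) ^ J.card * t *
    v (fun p => if p.2 = z p.1 then y p.1 else x p)) h

private theorem cm_lift_res (J : Finset V) (α : V → K) (z : V → K)
    (hz : ∀ i ∈ J, z i = α i) (v : (V × K → Ω) → ℝ) (β y : V → Ω) (hy : ∀ i ∈ J, y i = β i) :
    cm (Finset.univ \ J) (lift z (res J α β v)) y = lift z v y := by
  have hq : (Fintype.card Ω : ℝ) ^ J.card ≠ 0 :=
    pow_ne_zero _ (Nat.cast_ne_zero.2 Fintype.card_ne_zero)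
  unfold cm
  have h1 : ∀ y' : V → Ω, lift z (res J α β v)
      (fun w => if w ∈ Finset.univ \ J then y w else y' w) =
      ((Fintype.card Ω : ℝ) ^ J.card * ind J β y') * lift z v y := by
    intro y'
    rw [lift_res J α β z hz]
    have h2 : ind J β (fun w => if w ∈ Finset.univ \ J then y w else y' w) = ind J β y' := by
      refine ind_dep J β ?_
      intro i hi
      have : i ∉ Finset.univ \ J := by simpa using hi
      exact if_neg this
    rw [h2]
    by_cases h3 : ∀ i ∈ J, y' i = β i
    · have h4 : (fun w => if w ∈ Finset.univ \ J then y w else y' w) = y := by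
        funext w
        by_cases hw : w ∈ J
        · rw [if_neg (by simpa using hw), h3 w hw, hy w hw]
        · rw [if_pos (by simpa using hw)]
      rw [h4]
    · rw [ind_eq_zero h3]
      ring
  rw [mean_congr h1, mean_mul_right, mean_mul_left, mean_ind, mul_inv_cancel₀ hq, one_mul]

theorem part_id (u : (V → K) → ℝ) (J : Finset V) (α : V → K)
    (hs : ∀ z, u z ≠ 0 → ∀ i ∈ J, z i = α i) (v : (V × K → Ω) → ℝ) (β y : V → Ω) :
    ind J β y * avg u v y = ind J β y * ∑ S ∈ (Finset.univ \ J).powerset,
      mean (fun z => u z * es S (lift z (res J α β v)) y) := by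
  by_cases hy : ∀ i ∈ J, y i = β i
  · congr 1
    rw [← mean_sum]
    unfold avg
    refine mean_congr fun z => ?_
    rw [← Finset.mul_sum, sum_es]
    by_cases hu : u z = 0
    · rw [hu, zero_mul, zero_mul]
    · rw [cm_lift_res J α z (hs z hu) v β y hy]
  · rw [ind_eq_zero hy, zero_mul, zero_mul]

theorem mean_ind_avg (u : (V → K) → ℝ) (J : Finset V) (α : V → K)
    (hs : ∀ z, u z ≠ 0 → ∀ i ∈ J, z i = α i) (v : (V × K → Ω) → ℝ) (β : V → Ω) :
    (Fintype.card Ω : ℝ) ^ J.card * mean (fun y => ind J β y * avg u v y) =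
      mean u * mean (res J α β v) := by
  have h1 : mean (fun y => ind J β y * avg u v y) =
      mean (fun z => mean (fun y => ind J β y * (u z * lift z v y))) := by
    rw [← mean_swap]
    refine mean_congr fun y => ?_
    unfold avg
    rw [← mean_mul_left]
  rw [h1, ← mean_mul_left, ← mean_mul_right]
  refine mean_congr fun z => ?_
  by_cases hu : u z = 0
  · rw [hu, zero_mul]
    have : mean (fun y : V → Ω => ind J β y * (0 * lift z v y)) = 0 := by
      rw [mean_congr (g := fun _ : V → Ω => (0 : ℝ)) (fun y => by ring), mean_const]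
    rw [this, mul_zero]
  · rw [← mean_mul_left, ← mean_lift z (res J α β v), ← mean_mul_left]
    refine mean_congr fun y => ?_
    rw [lift_res J α β z (hs z hu)]
    ring

theorem mean_avg (u : (V → K) → ℝ) (v : (V × K → Ω) → ℝ) :
    mean (avg u v) = mean u * mean v := by
  have h1 : mean (avg u v) = mean (fun z => mean (fun y : V → Ω => u z * lift z v y)) := by
    rw [← mean_swap]
    rfl
  rw [h1, ← mean_mul_right]
  refine mean_congr fun z => ?_
  rw [mean_mul_left]
  have h2 : mean (fun y : V → Ω => lift z v y) = mean v := mean_lift z v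
  rw [h2]

theorem mean_res (J : Finset V) (α : V → K) (v : (V × K → Ω) → ℝ) :
    mean (fun β : V → Ω => mean (res J α β v)) = mean v := by
  have h1 : mean (fun β : V → Ω => mean (res J α β v)) =
      mean (fun x => mean (fun β : V → Ω => res J α β v x)) := mean_swap _
  rw [h1]
  refine mean_congr fun x => ?_
  unfold res
  rw [mean_mul_right, avg_ind, one_mul]

theorem res_nonneg (J : Finset V) (α : V → K) (β : V → Ω) {v : (V × K → Ω) → ℝ}
    (hv : ∀ x, 0 ≤ v x) (x : V × K → Ω) : 0 ≤ res J α β v x := by
  unfold res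
  exact mul_nonneg (mul_nonneg (pow_nonneg (Nat.cast_nonneg _) _) (ind_nonneg _ _ _)) (hv x)

theorem res_le (J : Finset V) (α : V → K) (β : V → Ω) {v : (V × K → Ω) → ℝ}
    (hv : ∀ x, 0 ≤ v x) (hv1 : ∀ x, v x ≤ 1) (x : V × K → Ω) :
    res J α β v x ≤ (Fintype.card Ω : ℝ) ^ J.card := by
  unfold res
  have hq : (0 : ℝ) ≤ (Fintype.card Ω : ℝ) ^ J.card := pow_nonneg (Nat.cast_nonneg _) _
  have h1 : ind J β (fun i => x (i, α i)) * v x ≤ 1 :=
    mul_le_one₀ (ind_le_one _ _ _) (hv x) (hv1 x)
  calc (Fintype.card Ω : ℝ) ^ J.card * ind J β (fun i => x (i, α i)) * v x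
      = (Fintype.card Ω : ℝ) ^ J.card * (ind J β (fun i => x (i, α i)) * v x) := by ring
    _ ≤ (Fintype.card Ω : ℝ) ^ J.card * 1 := mul_le_mul_of_nonneg_left h1 hq
    _ = _ := mul_one _

theorem g_empty (u : (V → K) → ℝ) (w : (V × K → Ω) → ℝ) (y : V → Ω) :
    mean (fun z => u z * es ∅ (lift z w) y) = mean u * mean w := by
  rw [← mean_mul_right]
  refine mean_congr fun z => ?_
  rw [es_empty, mean_lift]

theorem g_pure (u : (V → K) → ℝ) (w : (V × K → Ω) → ℝ) (S : Finset V) :
    PureAt S (fun y => mean (fun z => u z * es S (lift z w) y)) := by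
  constructor
  · intro y y' h
    refine mean_congr fun z => ?_
    rw [es_dep S (lift z w) h]
  · intro T hT y
    have h1 : (fun y => mean (fun z => u z * es S (lift z w) y)) =
        fun y => ∑ z ∈ (Finset.univ : Finset (V → K)),
          (u z / (Fintype.card (V → K) : ℝ)) * es S (lift z w) y := by
      funext y
      unfold mean
      rw [Finset.sum_div]
      refine Finset.sum_congr rfl fun z _ => ?_
      ring
    rw [h1, es_sum]
    refine Finset.sum_eq_zero fun z _ => ?_
    rw [es_es, if_neg hT, mul_zero]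

end Pool.Agent.Lib.P325P
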