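import Pool.Agent.Lib.P325P.Defs
import Pool.Agent.Lib.P325P.Base
import Pool.Agent.Lib.P325P.Es
import Pool.Agent.Lib.P325P.GBd
import Pool.Agent.Lib.P325P.LamB
import Pool.Agent.Lib.P325P.PartId
import Pool.Agent.Lib.P325P.Geo
import Pool.Agent.Lib.P325h.Defs

/-!
Module PartB (2.5h; black boxes Base, Es, GBd, LamB, PartId, Geo). The main estimate, for one part.
NOTATION. q = card Ω, N = card V, t = card K, a = |J|, U = mean u, B = (2 q (N+1))^r,
γ = exp 1 * q * √(L+1) / √√t, m β = mean (res J α β v), G S β y = mean_z (u z * es S (lift z (res J α β v)) y).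
PROOF. avg u v = mean_β (q^a * (ind J β * avg u v)) (avg_ind), so by lam_sum (the mean is a finite sum)
Lam (avg u v) = mean_β Y β, Y β = q^a * Lam (ind J β * avg u v). CLAIM: Y β ≥ -(U m β exp(-2r) + B U τ).
Then Lam (avg u v) ≥ -(U mean v exp(-2r) + B U τ) (mean_res) ≥ -U (B τ + exp(-2r)).
Case m β < τ: avg u v ≥ 0, lam_ge: Lam ≥ -B mean (ind * avg u v), and q^a mean (..) = U m β ≤ U τ
(mean_ind_avg). Case m β ≥ τ: ind J β * avg u v = ∑_(S ⊆ univ \ J) ind J β * G S β (part_id); lam_sum.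
gbd with M = q^a (res_le): log (q^a / m β) ≤ a log q + log (1/τ) ≤ L, so |G S β| ≤ U m β γ^|S|.
S = ∅: G is the constant U m β (g_empty) and Lam (ind * const) = U m β E (ind) (lam_eq, es_zero_of_dep:
ind * const depends on J, a ≤ r; or lam_prod). S ≠ ∅, a + |S| ≤ r: lam_prod_le: ≥ -U m β γ^|S| E(ind); the
sum over these S is ≥ -U m β E(ind) (geo with d0 = 0; N γ ≤ 4 q N γ ≤ exp(-4) ≤ 1/2; E(ind) ≥ 0). The
others, |S| > r - a: lam_prod_abs: each ≥ -4^a U m β γ^|S|; geo with d0 = r - a: ≥ -4^a U m β (Nγ)^(r-a).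
So Y β ≥ -(4q)^a (Nγ)^(r-a) U m β ≥ -(4 q N γ)^(r-a) U m β (a ≤ r - a, 4 q ≥ 1) ≥ -exp(-4(r-a)) U m β ≥
-exp(-2r) U m β (2 (r-a) ≥ r).
-/

open scoped BigOperators

namespace Pool.Agent.Lib.P325P

open Pool.Agent.Lib.P325h (IsLocalExpectation)

variable {V K Ω : Type} [Fintype V] [DecidableEq V] [Fintype K] [DecidableEq K] [Fintype Ω]
  [Nonempty Ω] [Nonempty K]

namespace PartBAux

omit [Nonempty Ω] [Nonempty K] in
theorem avg_nonneg (u : (V → K) → ℝ) (hu : ∀ z, 0 ≤ u z) (v : (V × K → Ω) → ℝ)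
    (hv : ∀ x, 0 ≤ v x) (y : V → Ω) : 0 ≤ avg u v y :=
  mean_nonneg fun z => mul_nonneg (hu z) (mean_nonneg fun _ => hv _)

omit [Nonempty K] in
theorem lam_avg (r : ℕ) (E : ((V → Ω) → ℝ) →ₗ[ℝ] ℝ) (u : (V → K) → ℝ) (J : Finset V)
    (v : (V × K → Ω) → ℝ) :
    Lam r E (avg u v) = mean (fun β : V → Ω => (Fintype.card Ω : ℝ) ^ J.card *
      Lam r E (fun y => ind J β y * avg u v y)) := by
  have h1 : avg u v = fun y => ∑ β : V → Ω, ((Fintype.card Ω : ℝ) ^ J.card /
      (Fintype.card (V → Ω) : ℝ)) * (ind J β y * avg u v y) := by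
    funext y
    have h2 := avg_ind J y
    unfold mean at h2
    have h3 : ∑ β : V → Ω, ((Fintype.card Ω : ℝ) ^ J.card / (Fintype.card (V → Ω) : ℝ)) *
        (ind J β y * avg u v y) = ((∑ β : V → Ω, (Fintype.card Ω : ℝ) ^ J.card * ind J β y) /
          (Fintype.card (V → Ω) : ℝ)) * avg u v y := by
      rw [Finset.sum_div, Finset.sum_mul]
      refine Finset.sum_congr rfl fun β _ => ?_
      ring
    rw [h3, h2, one_mul]
  conv_lhs => rw [h1]
  rw [lam_sum]
  unfold mean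
  rw [Finset.sum_div]
  refine Finset.sum_congr rfl fun β _ => ?_
  ring

theorem claim_small {r : ℕ} {E : ((V → Ω) → ℝ) →ₗ[ℝ] ℝ} (hE : IsLocalExpectation r E)
    (u : (V → K) → ℝ) (hu : ∀ z, 0 ≤ u z) (J : Finset V) (α : V → K)
    (hs : ∀ z, u z ≠ 0 → ∀ i ∈ J, z i = α i) (v : (V × K → Ω) → ℝ) (hv : ∀ x, 0 ≤ v x)
    (τ : ℝ) (β : V → Ω) (hm : mean (res J α β v) < τ) :
    -((2 * (Fintype.card Ω : ℝ) * ((Fintype.card V : ℝ) + 1)) ^ r * mean u * τ) ≤
      (Fintype.card Ω : ℝ) ^ J.card * Lam r E (fun y => ind J β y * avg u v y) := by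
  have hU : 0 ≤ mean u := mean_nonneg hu
  have hq : (0 : ℝ) ≤ (Fintype.card Ω : ℝ) ^ J.card := by positivity
  have hB : (0 : ℝ) ≤ (2 * (Fintype.card Ω : ℝ) * ((Fintype.card V : ℝ) + 1)) ^ r := by positivity
  have h1 := lam_ge hE (f := fun y => ind J β y * avg u v y)
    (fun y => mul_nonneg (ind_nonneg J β y) (avg_nonneg u hu v hv y))
  have h2 := mul_le_mul_of_nonneg_left h1 hq
  refine le_trans ?_ h2
  have h3 := mean_ind_avg u J α hs v β
  have h4 : (Fintype.card Ω : ℝ) ^ J.card *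
      -((2 * (Fintype.card Ω : ℝ) * ((Fintype.card V : ℝ) + 1)) ^ r *
        mean (fun y => ind J β y * avg u v y)) =
      -((2 * (Fintype.card Ω : ℝ) * ((Fintype.card V : ℝ) + 1)) ^ r *
        (mean u * mean (res J α β v))) := by
    rw [← h3]; ring
  rw [h4, mul_assoc]
  apply neg_le_neg
  apply mul_le_mul_of_nonneg_left _ hB
  exact mul_le_mul_of_nonneg_left hm.le hU

/-- lower bound for one component -/
theorem comp_ge {r : ℕ} {E : ((V → Ω) → ℝ) →ₗ[ℝ] ℝ} (hE : IsLocalExpectation r E)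
    {J S : Finset V} (hJr : J.card ≤ r) (β : V → Ω) (g : (V → Ω) → ℝ) (hg : PureAt S g)
    (hJS : Disjoint J S) {c γ : ℝ} (hc : 0 ≤ c) (hγ : 0 ≤ γ)
    (hM : ∀ y, |g y| ≤ c * γ ^ S.card) (h0 : S = ∅ → ∀ y, g y = c) :
    c * E (ind J β) * (if S = ∅ then 1 else 0) - c * E (ind J β) *
      (if 0 < S.card then γ ^ S.card else 0) - 4 ^ J.card * c *
      (if r - J.card < S.card then γ ^ S.card else 0) ≤
      Lam r E (fun y => ind J β y * g y) := by
  have hEi : 0 ≤ E (ind J β) := hE.nonneg _ J hJr (ind_dep J β) (ind_nonneg J β)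
  by_cases hS : S = ∅
  · have h1 : (fun y => ind J β y * g y) = c • (ind J β) := by
      funext y
      rw [h0 hS y, Pi.smul_apply, smul_eq_mul, mul_comm]
    rw [h1, lam_eq, map_smul, smul_eq_mul]
    · subst hS
      simp
    · intro T hT y
      apply es_zero_of_dep (J := J)
      · intro x x' hx
        rw [Pi.smul_apply, Pi.smul_apply, ind_dep J β hx]
      · intro hTJ
        have := Finset.card_le_card hTJ
        omega
  · have hpos : 0 < S.card := Finset.card_pos.2 (Finset.nonempty_iff_ne_empty.2 hS)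
    have hp : 0 ≤ γ ^ S.card := pow_nonneg hγ _
    rw [if_neg hS, if_pos hpos, mul_zero, zero_sub]
    by_cases hr : J.card + S.card ≤ r
    · have h1 := lam_prod_le hE (ind_dep J β) (ind_nonneg J β) hg hJS hM hr
      have h2 : ¬ (r - J.card < S.card) := by omega
      rw [if_neg h2, mul_zero, sub_zero]
      have h3 := (abs_le.1 h1).1
      refine le_trans (le_of_eq ?_) h3
      ring
    · have h1 := lam_prod_abs hE (ind_dep J β) (ind_nonneg J β) (ind_le_one J β) hg hJS hM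
      have h2 : r - J.card < S.card := by omega
      rw [if_pos h2]
      have h3 := (abs_le.1 h1).1
      have h4 : 0 ≤ c * E (ind J β) * γ ^ S.card := by positivity
      have h5 : (4 : ℝ) ^ J.card * (c * γ ^ S.card) = 4 ^ J.card * c * γ ^ S.card := by ring
      rw [h5] at h3
      linarith

theorem exp_four : Real.exp (-4) ≤ 1 / 2 := by
  rw [Real.exp_neg, one_div]
  apply inv_anti₀ (by norm_num)
  have := Real.add_one_le_exp (4 : ℝ)
  linarith

theorem card_pos' : (1 : ℝ) ≤ (Fintype.card Ω : ℝ) := by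
  have : 0 < Fintype.card Ω := Fintype.card_pos
  exact_mod_cast this

/-- the numerical part -/
theorem num {q X : ℝ} (hq : 1 ≤ q) (hX : 0 ≤ X) (h : 4 * q * X ≤ Real.exp (-4)) {a r : ℕ}
    (ha : 2 * a ≤ r) : q ^ a * (4 ^ a * X ^ (r - a)) ≤ Real.exp (-(2 * (r : ℝ))) := by
  have h1 : q ^ a * (4 ^ a * X ^ (r - a)) = (4 * q) ^ a * X ^ (r - a) := by
    rw [mul_pow]; ring
  have h2 : (4 * q) ^ a ≤ (4 * q) ^ (r - a) := pow_le_pow_right₀ (by linarith) (by omega)
  have h3 : (4 * q) ^ a * X ^ (r - a) ≤ (4 * q) ^ (r - a) * X ^ (r - a) :=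
    mul_le_mul_of_nonneg_right h2 (pow_nonneg hX _)
  have h4 : (4 * q) ^ (r - a) * X ^ (r - a) = (4 * q * X) ^ (r - a) := by rw [mul_pow (4 * q)]
  have h5 : (4 * q * X) ^ (r - a) ≤ Real.exp (-4) ^ (r - a) :=
    pow_le_pow_left₀ (by positivity) h _
  have h6 : Real.exp (-4) ^ (r - a) ≤ Real.exp (-(2 * (r : ℝ))) := by
    rw [← Real.exp_nat_mul]
    apply Real.exp_le_exp.2
    have h7 : a ≤ r := by omega
    rw [Nat.cast_sub h7]
    have h8 : (2 * (a : ℝ)) ≤ r := by exact_mod_cast ha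
    linarith
  rw [h1]
  exact h3.trans (h4.le.trans (h5.trans h6))

theorem claim_large {r : ℕ} {E : ((V → Ω) → ℝ) →ₗ[ℝ] ℝ} (hE : IsLocalExpectation r E)
    (u : (V → K) → ℝ) (hu : ∀ z, 0 ≤ u z) (J : Finset V) (α : V → K)
    (hs : ∀ z, u z ≠ 0 → ∀ i ∈ J, z i = α i)
    (hd : ∀ S : Finset V, Disjoint S J → ∀ z,
      massAt u S z ≤ mean u / Real.sqrt (Fintype.card K) ^ S.card)
    (hJ : 2 * J.card ≤ r) (v : (V × K → Ω) → ℝ) (hv : ∀ x, 0 ≤ v x) (hv1 : ∀ x, v x ≤ 1)
    (τ L : ℝ) (hτ : 0 < τ)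
    (hL : (J.card : ℝ) * Real.log (Fintype.card Ω) + Real.log (1 / τ) ≤ L)
    (γ : ℝ) (hγdef : γ = Real.exp 1 * (Fintype.card Ω : ℝ) * Real.sqrt (L + 1) /
        Real.sqrt (Real.sqrt (Fintype.card K)))
    (hγ : 4 * (Fintype.card Ω : ℝ) * ((Fintype.card V : ℝ) * γ) ≤ Real.exp (-4))
    (β : V → Ω) (hm : τ ≤ mean (res J α β v)) :
    -(mean u * mean (res J α β v) * Real.exp (-(2 * (r : ℝ)))) ≤
      (Fintype.card Ω : ℝ) ^ J.card * Lam r E (fun y => ind J β y * avg u v y) := by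
  have hU : 0 ≤ mean u := mean_nonneg hu
  have hq1 : (1 : ℝ) ≤ (Fintype.card Ω : ℝ) := card_pos'
  have hγ0 : 0 ≤ γ := by rw [hγdef]; positivity
  have hX0 : 0 ≤ (Fintype.card V : ℝ) * γ := by positivity
  have hX1 : (Fintype.card V : ℝ) * γ ≤ 1 / 2 := by
    refine le_trans ?_ (hγ.trans exp_four)
    nlinarith
  set m := mean (res J α β v) with hmdef
  have hm0 : 0 < m := lt_of_lt_of_le hτ hm
  have hc : 0 ≤ mean u * m := mul_nonneg hU hm0.le
  have hJr : J.card ≤ r := by omega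
  have hEi : 0 ≤ E (ind J β) := hE.nonneg _ J hJr (ind_dep J β) (ind_nonneg J β)
  -- the logarithm
  have hlog : Real.log ((Fintype.card Ω : ℝ) ^ J.card / m) ≤ L := by
    rw [Real.log_div (by positivity) hm0.ne', Real.log_pow]
    rw [one_div, Real.log_inv] at hL
    have := Real.log_le_log hτ hm
    linarith
  -- the components
  let G : Finset V → (V → Ω) → ℝ := fun S y => mean (fun z => u z * es S (lift z (res J α β v)) y)
  have hG : ∀ S : Finset V, Disjoint S J → ∀ y, |G S y| ≤ mean u * m * γ ^ S.card := by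
    intro S hS y
    rw [hγdef]
    exact gbd u hu (res J α β v) (res_nonneg J α β hv) (mean u) ((Fintype.card Ω : ℝ) ^ J.card) m L
      rfl (res_le J α β hv hv1) rfl hm0 hlog S (hd S hS) y
  have hdec : (fun y => ind J β y * avg u v y) = fun y =>
      ∑ S ∈ (Finset.univ \ J).powerset, (1 : ℝ) * (ind J β y * G S y) := by
    funext y
    rw [part_id u J α hs v β y, Finset.mul_sum]
    refine Finset.sum_congr rfl fun S _ => ?_
    rw [one_mul]
  have hlam : Lam r E (fun y => ind J β y * avg u v y) =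
      ∑ S ∈ (Finset.univ \ J).powerset, (1 : ℝ) * Lam r E (fun y => ind J β y * G S y) := by
    rw [hdec]
    exact lam_sum r E _ (fun _ => 1) (fun S y => ind J β y * G S y)
  -- lower bound
  have hlow : ∀ S ∈ (Finset.univ \ J).powerset,
      mean u * m * E (ind J β) * (if S = ∅ then 1 else 0) - mean u * m * E (ind J β) *
      (if 0 < S.card then γ ^ S.card else 0) - 4 ^ J.card * (mean u * m) *
      (if r - J.card < S.card then γ ^ S.card else 0) ≤
      (1 : ℝ) * Lam r E (fun y => ind J β y * G S y) := by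
    intro S hS
    have hdis : Disjoint S J := by
      rw [Finset.mem_powerset] at hS
      exact Finset.disjoint_of_subset_left hS Finset.sdiff_disjoint
    rw [one_mul]
    refine comp_ge hE hJr β (G S) (g_pure u _ S) hdis.symm hc hγ0 (hG S hdis) ?_
    intro h0 y
    subst h0
    exact g_empty u _ y
  have hsum := Finset.sum_le_sum hlow
  rw [← hlam, Finset.sum_sub_distrib, Finset.sum_sub_distrib, ← Finset.mul_sum, ← Finset.mul_sum,
    ← Finset.mul_sum] at hsum
  have hs1 : ∑ S ∈ (Finset.univ \ J).powerset, (if S = ∅ then (1 : ℝ) else 0) = 1 := by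
    rw [Finset.sum_ite_eq' (Finset.univ \ J).powerset ∅ (fun _ => (1 : ℝ)),
      if_pos (Finset.empty_mem_powerset _)]
  have hs2 : ∀ d0 : ℕ, ∑ S ∈ (Finset.univ \ J).powerset, (if d0 < S.card then γ ^ S.card else 0) ≤
      ((Fintype.card V : ℝ) * γ) ^ d0 := by
    intro d0
    refine le_trans ?_ (geo γ hγ0 hX1 d0)
    rw [Finset.sum_filter]
    apply Finset.sum_le_sum_of_subset_of_nonneg (Finset.subset_univ _)
    intro S _ _
    split_ifs
    · exact pow_nonneg hγ0 _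
    · exact le_rfl
  rw [hs1, mul_one] at hsum
  have h1 := mul_le_mul_of_nonneg_left (hs2 0) (mul_nonneg hc hEi)
  rw [pow_zero, mul_one] at h1
  have h2 := mul_le_mul_of_nonneg_left (hs2 (r - J.card))
    (mul_nonneg (pow_nonneg (by norm_num : (0 : ℝ) ≤ 4) J.card) hc)
  have h3 : -((4 : ℝ) ^ J.card * (mean u * m) * ((Fintype.card V : ℝ) * γ) ^ (r - J.card)) ≤
      Lam r E (fun y => ind J β y * avg u v y) := by linarith
  have h4 := mul_le_mul_of_nonneg_left h3
    (pow_nonneg (by linarith : (0 : ℝ) ≤ (Fintype.card Ω : ℝ)) J.card)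
  refine le_trans ?_ h4
  have h5 := num hq1 hX0 hγ hJ
  have h6 := mul_le_mul_of_nonneg_left h5 hc
  have h7 : (Fintype.card Ω : ℝ) ^ J.card *
      -((4 : ℝ) ^ J.card * (mean u * m) * ((Fintype.card V : ℝ) * γ) ^ (r - J.card)) =
      -(mean u * m * ((Fintype.card Ω : ℝ) ^ J.card *
        (4 ^ J.card * ((Fintype.card V : ℝ) * γ) ^ (r - J.card)))) := by ring
  rw [h7]
  exact neg_le_neg h6

end PartBAux

open PartBAux

theorem part {r : ℕ} {E : ((V → Ω) → ℝ) →ₗ[ℝ] ℝ} (hE : IsLocalExpectation r E)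
    (u : (V → K) → ℝ) (hu : ∀ z, 0 ≤ u z) (J : Finset V) (α : V → K)
    (hs : ∀ z, u z ≠ 0 → ∀ i ∈ J, z i = α i)
    (hd : ∀ S : Finset V, Disjoint S J → ∀ z,
      massAt u S z ≤ mean u / Real.sqrt (Fintype.card K) ^ S.card)
    (hJ : 2 * J.card ≤ r) (v : (V × K → Ω) → ℝ) (hv : ∀ x, 0 ≤ v x) (hv1 : ∀ x, v x ≤ 1)
    (τ L : ℝ) (hτ : 0 < τ)
    (hL : (J.card : ℝ) * Real.log (Fintype.card Ω) + Real.log (1 / τ) ≤ L)
    (hγ : 4 * (Fintype.card Ω : ℝ) * ((Fintype.card V : ℝ) *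
      (Real.exp 1 * (Fintype.card Ω : ℝ) * Real.sqrt (L + 1) /
        Real.sqrt (Real.sqrt (Fintype.card K)))) ≤ Real.exp (-4)) :
    -(mean u * ((2 * (Fintype.card Ω : ℝ) * ((Fintype.card V : ℝ) + 1)) ^ r * τ +
      Real.exp (-(2 * (r : ℝ))))) ≤ Lam r E (avg u v) := by
  have hU : 0 ≤ mean u := mean_nonneg hu
  have hB : (0 : ℝ) ≤ (2 * (Fintype.card Ω : ℝ) * ((Fintype.card V : ℝ) + 1)) ^ r := by positivity
  have he : 0 ≤ Real.exp (-(2 * (r : ℝ))) := (Real.exp_pos _).le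
  set B := (2 * (Fintype.card Ω : ℝ) * ((Fintype.card V : ℝ) + 1)) ^ r with hBdef
  have hclaim : ∀ β : V → Ω,
      -(mean u * Real.exp (-(2 * (r : ℝ)))) * mean (res J α β v) + -(B * mean u * τ) ≤
      (Fintype.card Ω : ℝ) ^ J.card * Lam r E (fun y => ind J β y * avg u v y) := by
    intro β
    have hm0 : 0 ≤ mean (res J α β v) := mean_nonneg (res_nonneg J α β hv)
    by_cases hm : mean (res J α β v) < τ
    · have h1 := claim_small hE u hu J α hs v hv τ β hm
      have h2 : 0 ≤ mean u * Real.exp (-(2 * (r : ℝ))) * mean (res J α β v) := by positivity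
      rw [← hBdef] at h1
      linarith
    · have h1 := claim_large hE u hu J α hs hd hJ v hv hv1 τ L hτ hL _ rfl hγ β (not_lt.1 hm)
      have h2 : 0 ≤ B * mean u * τ := by positivity
      have h3 : mean u * mean (res J α β v) * Real.exp (-(2 * (r : ℝ))) =
        mean u * Real.exp (-(2 * (r : ℝ))) * mean (res J α β v) := by ring
      rw [h3] at h1
      linarith
  rw [lam_avg r E u J v]
  refine le_trans ?_ (mean_mono hclaim)
  rw [mean_add, mean_const, mean_mul_left, mean_res]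
  have hmv : mean v ≤ 1 := mean_le hv1
  have h1 : mean u * Real.exp (-(2 * (r : ℝ))) * mean v ≤ mean u * Real.exp (-(2 * (r : ℝ))) * 1 :=
    mul_le_mul_of_nonneg_left hmv (mul_nonneg hU he)
  have h2 : mean u * (B * τ + Real.exp (-(2 * (r : ℝ)))) =
    mean u * Real.exp (-(2 * (r : ℝ))) * 1 + B * mean u * τ := by ring
  rw [h2]
  linarith

end Pool.Agent.Lib.P325P
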