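import Pool.Agent.Lib.P325P.Defs
import Pool.Agent.Lib.P325P.Base
import Pool.Agent.Lib.P325P.LamB
import Pool.Agent.Lib.P325P.PartId
import Pool.Agent.Lib.P325P.PartB
import Pool.Agent.Lib.P325P.Dense
import Pool.Agent.Lib.P325h.Defs

/-!
Module Term (1h; black boxes LamB, PartId (mean_avg), PartB, Dense). One product term.
PROOF. dense: u = u0 + ∑ up. avg is linear in u, Lam linear (lam_sum). Lam (avg u0 v) ≥ -B mean u0 mean v
≥ -B τ (lam_ge, mean_avg, avg u0 v ≥ 0). For each part 2 |J p| ≤ r (otherwise hT contradicts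
τ √t^|J p| ≤ 1), |J p| log q ≤ r log q, so part gives Lam (avg (up p) v) ≥ -mean (up p) (B τ + exp(-2r));
∑ mean (up p) ≤ mean u ≤ 1.
-/

open scoped BigOperators

namespace Pool.Agent.Lib.P325P

open Pool.Agent.Lib.P325h (IsLocalExpectation)

variable {V K Ω : Type} [Fintype V] [DecidableEq V] [Fintype K] [DecidableEq K] [Fintype Ω]
  [Nonempty Ω] [Nonempty K]

theorem term {r : ℕ} {E : ((V → Ω) → ℝ) →ₗ[ℝ] ℝ} (hE : IsLocalExpectation r E)
    (u : (V → K) → ℝ) (hu : ∀ z, 0 ≤ u z) (hu1 : ∀ z, u z ≤ 1) (v : (V × K → Ω) → ℝ)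
    (hv : ∀ x, 0 ≤ v x) (hv1 : ∀ x, v x ≤ 1) (τ L : ℝ) (hτ : 0 < τ)
    (hT : ∀ j : ℕ, r < 2 * j → 1 < τ * Real.sqrt (Fintype.card K) ^ j)
    (hL : (r : ℝ) * Real.log (Fintype.card Ω) + Real.log (1 / τ) ≤ L)
    (hγ : 4 * (Fintype.card Ω : ℝ) * ((Fintype.card V : ℝ) *
      (Real.exp 1 * (Fintype.card Ω : ℝ) * Real.sqrt (L + 1) /
        Real.sqrt (Real.sqrt (Fintype.card K)))) ≤ Real.exp (-4)) :
    -(2 * ((2 * (Fintype.card Ω : ℝ) * ((Fintype.card V : ℝ) + 1)) ^ r * τ) +
      Real.exp (-(2 * (r : ℝ)))) ≤ Lam r E (avg u v) := by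
  classical
  obtain ⟨n, up, J, α, u0, hdec, hu0, hmu0, hparts⟩ := dense τ hτ u hu hu1
  set B : ℝ := (2 * (Fintype.card Ω : ℝ) * ((Fintype.card V : ℝ) + 1)) ^ r with hB
  have hB0 : 0 ≤ B := by positivity
  set e : ℝ := Real.exp (-(2 * (r : ℝ))) with he
  have he0 : 0 ≤ e := (Real.exp_pos _).le
  have hq : (0 : ℝ) ≤ Real.log (Fintype.card Ω) := Real.log_natCast_nonneg _
  -- the decomposition of the average
  have hlin : avg u v = fun y => ∑ j : Option (Fin n), (1 : ℝ) *
      (Option.elim j (avg u0 v) (fun p => avg (up p) v)) y := by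
    funext y
    rw [Fintype.sum_option]
    simp only [Option.elim, one_mul]
    have h1 : ∀ z, u z * lift z v y = u0 z * lift z v y + ∑ p, up p z * lift z v y := by
      intro z
      rw [hdec z, add_mul, Finset.sum_mul]
    unfold avg
    rw [mean_congr h1, mean_add, mean_sum]
  have hsum : Lam r E (avg u v) = Lam r E (avg u0 v) + ∑ p, Lam r E (avg (up p) v) := by
    rw [hlin, lam_sum, Fintype.sum_option]
    simp only [Option.elim, one_mul]
  have hv0m : 0 ≤ mean v := mean_nonneg hv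
  have hv1m : mean v ≤ 1 := mean_le hv1
  have hu0m : 0 ≤ mean u0 := mean_nonneg hu0
  have hbase : -(B * τ) ≤ Lam r E (avg u0 v) := by
    have h1 := lam_ge hE (f := avg u0 v) (fun y => mean_nonneg fun z =>
      mul_nonneg (hu0 z) (mean_nonneg fun x => hv _))
    rw [mean_avg] at h1
    refine le_trans ?_ h1
    have h2 : mean u0 * mean v ≤ τ * 1 := mul_le_mul hmu0 hv1m hv0m hτ.le
    rw [mul_one] at h2
    have h3 := mul_le_mul_of_nonneg_left h2 hB0
    linarith
  have hpart : ∀ p, -(mean (up p) * (B * τ + e)) ≤ Lam r E (avg (up p) v) := by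
    intro p
    obtain ⟨h1, h2, h3, h4⟩ := hparts p
    have hJ : 2 * (J p).card ≤ r := by
      by_contra hcon
      push Not at hcon
      exact absurd (hT _ hcon) (not_lt.2 h4)
    refine part hE (up p) h1 (J p) (α p) h2 h3 hJ v hv hv1 τ L hτ ?_ hγ
    refine le_trans ?_ hL
    have h5 : ((J p).card : ℝ) ≤ (r : ℝ) := by
      have : (J p).card ≤ r := by omega
      exact_mod_cast this
    have h6 := mul_le_mul_of_nonneg_right h5 hq
    linarith
  have hmass : ∑ p, mean (up p) ≤ 1 := by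
    have h1 : mean u = mean u0 + ∑ p, mean (up p) := by
      rw [mean_congr hdec, mean_add, mean_sum]
    have h2 : mean u ≤ 1 := mean_le hu1
    linarith
  have hBe : 0 ≤ B * τ + e := by positivity
  have htot : -(B * τ + e) ≤ ∑ p, Lam r E (avg (up p) v) := by
    have h1 : ∑ p, -(mean (up p) * (B * τ + e)) ≤ ∑ p, Lam r E (avg (up p) v) :=
      Finset.sum_le_sum fun p _ => hpart p
    rw [Finset.sum_neg_distrib, ← Finset.sum_mul] at h1
    have h2 := mul_le_mul_of_nonneg_right hmass hBe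
    linarith
  rw [hsum]
  linarith

end Pool.Agent.Lib.P325P
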