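import Pool.Agent.Lib.P325P.Defs
import Pool.Agent.Lib.P325P.Base
import Pool.Agent.Lib.P325P.EsLift
import Pool.Agent.Lib.P325P.LamB
import Pool.Agent.Lib.P325P.Term
import Pool.Agent.Lib.P325h.Defs

/-!
Module Rank (1.5h; black boxes EsLift (lift_sel), LamB (lam_eq, lam_sum), Term). Lower bound for a lifted
function which is a short sum of products of nonnegative functions.
PROOF. F y = lift z (x ↦ F (i ↦ x (i, z i))) y for every z (lift_sel), so F y = mean_z ∑_j u j z lift z (v j) y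
= ∑_j avg (u j) (v j) y. E F = Lam F (lam_eq) = ∑_j Lam (avg (u j) (v j)). For each j: u j z v j x ≤ F(..) ≤ 1.
Let c = max v j (finite nonempty set). If c = 0 then v j = 0, avg = 0, Lam = 0. Otherwise u' = c u j ≤ 1
and v' = v j / c ≤ 1, avg u' v' = avg (u j) (v j): term.
-/

open scoped BigOperators

namespace Pool.Agent.Lib.P325P

open Pool.Agent.Lib.P325h (IsLocalExpectation)

variable {V K Ω : Type} [Fintype V] [DecidableEq V] [Fintype K] [DecidableEq K] [Fintype Ω]
  [Nonempty Ω] [Nonempty K]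

namespace RankAux

theorem lift_sum {I : Type} [Fintype I] (z : V → K) (c : I → ℝ) (v : I → (V × K → Ω) → ℝ)
    (y : V → Ω) :
    lift z (fun x => ∑ j, c j * v j x) y = ∑ j, c j * lift z (v j) y := by
  unfold lift
  rw [mean_sum]
  exact Finset.sum_congr rfl fun j _ => mean_mul_left _ _

theorem avg_sum {I : Type} [Fintype I] (u : I → (V → K) → ℝ) (v : I → (V × K → Ω) → ℝ)
    (F : (V → Ω) → ℝ)
    (hdec : ∀ (z : V → K) (x : V × K → Ω), F (fun i => x (i, z i)) = ∑ j, u j z * v j x)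
    (y : V → Ω) : F y = ∑ j, avg (u j) (v j) y := by
  unfold avg
  rw [← mean_sum]
  have h : ∀ z : V → K, ∑ j, u j z * lift z (v j) y = F y := by
    intro z
    rw [← lift_sum z (fun j => u j z) v y, ← lift_sel z F y]
    congr 1
    funext x
    exact (hdec z x).symm
  rw [mean_congr h, mean_const]

theorem avg_scale (u : (V → K) → ℝ) (v : (V × K → Ω) → ℝ) {c : ℝ} (hc : c ≠ 0) :
    avg (fun z => c * u z) (fun x => c⁻¹ * v x) = avg u v := by
  funext y
  unfold avg lift
  apply mean_congr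
  intro z
  rw [mean_mul_left]
  field_simp

end RankAux

open RankAux in
theorem rank {r : ℕ} {E : ((V → Ω) → ℝ) →ₗ[ℝ] ℝ} (hE : IsLocalExpectation r E)
    (F : (V → Ω) → ℝ) (hF1 : ∀ y, F y ≤ 1)
    (hFr : ∀ T : Finset V, r < T.card → ∀ y, es T F y = 0)
    {I : Type} [Fintype I] (u : I → (V → K) → ℝ) (v : I → (V × K → Ω) → ℝ)
    (hu : ∀ j z, 0 ≤ u j z) (hv : ∀ j x, 0 ≤ v j x)
    (hdec : ∀ (z : V → K) (x : V × K → Ω), F (fun i => x (i, z i)) = ∑ j, u j z * v j x)
    (τ L : ℝ) (hτ : 0 < τ)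
    (hT : ∀ j : ℕ, r < 2 * j → 1 < τ * Real.sqrt (Fintype.card K) ^ j)
    (hL : (r : ℝ) * Real.log (Fintype.card Ω) + Real.log (1 / τ) ≤ L)
    (hγ : 4 * (Fintype.card Ω : ℝ) * ((Fintype.card V : ℝ) *
      (Real.exp 1 * (Fintype.card Ω : ℝ) * Real.sqrt (L + 1) /
        Real.sqrt (Real.sqrt (Fintype.card K)))) ≤ Real.exp (-4)) :
    -((Fintype.card I : ℝ) * (2 * ((2 * (Fintype.card Ω : ℝ) *
      ((Fintype.card V : ℝ) + 1)) ^ r * τ) + Real.exp (-(2 * (r : ℝ))))) ≤ E F := by
  classical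
  have hB : 0 ≤ 2 * ((2 * (Fintype.card Ω : ℝ) * ((Fintype.card V : ℝ) + 1)) ^ r * τ) +
      Real.exp (-(2 * (r : ℝ))) := by positivity
  set B : ℝ := 2 * ((2 * (Fintype.card Ω : ℝ) * ((Fintype.card V : ℝ) + 1)) ^ r * τ) +
      Real.exp (-(2 * (r : ℝ))) with hBdef
  have hprod : ∀ j z x, u j z * v j x ≤ 1 := by
    intro j z x
    refine le_trans ?_ (hF1 (fun i => x (i, z i)))
    rw [hdec z x]
    exact Finset.single_le_sum (f := fun j => u j z * v j x)
      (fun i _ => mul_nonneg (hu i z) (hv i x)) (Finset.mem_univ j)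
  have hj : ∀ j, -B ≤ Lam r E (avg (u j) (v j)) := by
    intro j
    obtain ⟨x0, hx0⟩ := Finite.exists_max (v j)
    by_cases hc : v j x0 = 0
    · have hv0 : ∀ x, v j x = 0 := fun x => le_antisymm (hc ▸ hx0 x) (hv j x)
      have h0 : avg (u j) (v j) = fun y => ∑ i ∈ (∅ : Finset I), (1 : ℝ) * (avg (u i) (v i)) y := by
        funext y
        rw [Finset.sum_empty]
        unfold avg lift
        have : ∀ z : V → K, u j z * mean (fun x : V × K → Ω =>
            v j (fun p => if p.2 = z p.1 then y p.1 else x p)) = 0 := by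
          intro z
          rw [mean_congr (g := fun _ => (0 : ℝ)) (fun x => hv0 _), mean_const, mul_zero]
        rw [mean_congr (g := fun _ => (0 : ℝ)) this, mean_const]
      rw [h0, lam_sum, Finset.sum_empty]
      linarith
    · have hcpos : 0 < v j x0 := lt_of_le_of_ne (hv j x0) (Ne.symm hc)
      rw [← avg_scale (u j) (v j) hc]
      refine term hE _ (fun z => mul_nonneg hcpos.le (hu j z)) (fun z => ?_) _
        (fun x => mul_nonneg (inv_nonneg.2 hcpos.le) (hv j x)) (fun x => ?_) τ L hτ hT hL hγ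
      · rw [mul_comm]
        exact hprod j z x0
      · rw [inv_mul_le_iff₀ hcpos, mul_one]
        exact hx0 x
  have hF : F = fun y => ∑ j ∈ (Finset.univ : Finset I), (1 : ℝ) * (avg (u j) (v j)) y := by
    funext y
    rw [avg_sum u v F hdec y]
    exact Finset.sum_congr rfl fun j _ => (one_mul _).symm
  rw [← lam_eq r E F hFr]
  conv_rhs => rw [hF]
  rw [lam_sum]
  calc -((Fintype.card I : ℝ) * B) = ∑ _j : I, -B := by
        rw [Finset.sum_const, Finset.card_univ, nsmul_eq_mul]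
        ring
    _ ≤ ∑ j, 1 * Lam r E (avg (u j) (v j)) := by
        apply Finset.sum_le_sum
        intro j _
        rw [one_mul]
        exact hj j

end Pool.Agent.Lib.P325P
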